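import Mathlib

/-!
# The determinant of a net at monomials with affinely independent exponents
-/

set_option autoImplicit false

namespace Pool.Agent.Helper67.TQ

open Polynomial

variable {k : Type} [Field k]

/-- the generic member of a net -/
noncomputable def net3 {N : ℕ} (A : Fin 3 → Matrix (Fin N) (Fin N) k) :
    Matrix (Fin N) (Fin N) (MvPolynomial (Fin 3) k) :=
  fun a b => ∑ l, MvPolynomial.C (A l a b) * MvPolynomial.X l

theorem net3_hom {N : ℕ} (A : Fin 3 → Matrix (Fin N) (Fin N) k) :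
    (net3 A).det.IsHomogeneous N := by
  rw [Matrix.det_apply]
  refine MvPolynomial.IsHomogeneous.sum _ _ _ fun σ _ => ?_
  have h1 : (∏ i, net3 A (σ i) i).IsHomogeneous (∑ _i : Fin N, 1) := by
    refine MvPolynomial.IsHomogeneous.prod _ _ _ fun i _ => ?_
    refine MvPolynomial.IsHomogeneous.sum _ _ _ fun l _ => ?_
    exact (MvPolynomial.isHomogeneous_X k l).C_mul _
  have h2 : ∑ _i : Fin N, 1 = N := by simp
  rw [h2] at h1
  rw [Units.smul_def]
  rcases Int.units_eq_one_or (Equiv.Perm.sign σ) with h | h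
  · rw [h, Units.val_one, one_smul]
    exact h1
  · rw [h, Units.val_neg, Units.val_one, neg_smul, one_smul]
    exact h1.neg

/-- monomials in two variables -/
noncomputable def mo (ε : k) (a b : ℕ) : k[X][X] := monomial b (monomial a ε)

theorem mo_mul (ε ε' : k) (a b a' b' : ℕ) : mo ε a b * mo ε' a' b' =
    mo (ε * ε') (a + a') (b + b') := by
  rw [mo, mo, mo, monomial_mul_monomial, monomial_mul_monomial]

theorem mo_one : mo (1 : k) 0 0 = 1 := rfl

theorem mo_pow (ε : k) (a b n : ℕ) : mo ε a b ^ n = mo (ε ^ n) (a * n) (b * n) := by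
  induction n with
  | zero => rw [pow_zero, pow_zero, mul_zero, mul_zero, mo_one]
  | succ n ih => rw [pow_succ, ih, mo_mul, pow_succ, mul_add, mul_add, mul_one, mul_one]

theorem aeval_mono {N : ℕ} {D : MvPolynomial (Fin 3) k} (hD : D.IsHomogeneous N) (h0 : D ≠ 0)
    (ε : Fin 3 → k) (hε : ∀ l, ε l ≠ 0) (a b : Fin 3 → ℕ)
    (hab : ((a 0 : ℤ) - a 2) * (b 1 - b 2) - (a 1 - a 2) * (b 0 - b 2) ≠ 0) :
    MvPolynomial.aeval (fun l => mo (ε l) (a l) (b l)) D ≠ (0 : k[X][X]) := by
  classical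
  obtain ⟨e, he⟩ := MvPolynomial.ne_zero_iff.1 h0
  intro h
  have h1 : MvPolynomial.aeval (fun l => mo (ε l) (a l) (b l)) D =
      ∑ d ∈ D.support, mo (D.coeff d * (ε 0 ^ d 0 * ε 1 ^ d 1 * ε 2 ^ d 2))
        (a 0 * d 0 + a 1 * d 1 + a 2 * d 2) (b 0 * d 0 + b 1 * d 1 + b 2 * d 2) := by
    rw [MvPolynomial.aeval_def, MvPolynomial.eval₂_eq']
    refine Finset.sum_congr rfl fun d _ => ?_
    rw [Fin.prod_univ_three, mo_pow, mo_pow, mo_pow, mo_mul, mo_mul]
    have h2 : (algebraMap k k[X][X]) (D.coeff d) = mo (D.coeff d) 0 0 := rfl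
    rw [h2, mo_mul, zero_add, zero_add]
  rw [h1] at h
  have h2 := congrArg (fun f => (f.coeff (b 0 * e 0 + b 1 * e 1 + b 2 * e 2)).coeff
    (a 0 * e 0 + a 1 * e 1 + a 2 * e 2)) h
  simp only [coeff_zero, finsetSum_coeff] at h2
  rw [Finset.sum_eq_single e] at h2
  · rw [mo, coeff_monomial_same, coeff_monomial_same] at h2
    exact mul_ne_zero he (mul_ne_zero (mul_ne_zero (pow_ne_zero _ (hε 0)) (pow_ne_zero _ (hε 1)))
      (pow_ne_zero _ (hε 2))) h2
  · intro d hd hde
    rw [mo, coeff_monomial]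
    by_cases hb : b 0 * d 0 + b 1 * d 1 + b 2 * d 2 = b 0 * e 0 + b 1 * e 1 + b 2 * e 2
    · rw [if_pos hb, coeff_monomial]
      by_cases hA : a 0 * d 0 + a 1 * d 1 + a 2 * d 2 = a 0 * e 0 + a 1 * e 1 + a 2 * e 2
      · exfalso
        apply hde
        have hs : ∀ d : Fin 3 →₀ ℕ, D.coeff d ≠ 0 → (d 0 + d 1 + d 2 : ℤ) = N := by
          intro d hd
          have h3 := hD hd
          rw [Finsupp.weight_apply, Finsupp.sum_fintype _ _ (fun i => by simp),
            Fin.sum_univ_three] at h3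
          simp only [Pi.one_apply, smul_eq_mul, mul_one] at h3
          exact_mod_cast h3
        have s1 := hs d (MvPolynomial.mem_support_iff.1 hd)
        have s2 := hs e he
        have hb' : (b 0 * d 0 + b 1 * d 1 + b 2 * d 2 : ℤ) = b 0 * e 0 + b 1 * e 1 + b 2 * e 2 := by
          exact_mod_cast hb
        have hA' : (a 0 * d 0 + a 1 * d 1 + a 2 * d 2 : ℤ) = a 0 * e 0 + a 1 * e 1 + a 2 * e 2 := by
          exact_mod_cast hA
        have k0 : ((d 0 : ℤ) - e 0) = 0 := by
          apply (mul_eq_zero.1 (?_ : (((a 0 : ℤ) - a 2) * (b 1 - b 2) -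
            (a 1 - a 2) * (b 0 - b 2)) * ((d 0 : ℤ) - e 0) = 0)).resolve_left hab
          linear_combination ((b 1 : ℤ) - b 2) * (hA' - a 2 * s1 + a 2 * s2) -
            ((a 1 : ℤ) - a 2) * (hb' - b 2 * s1 + b 2 * s2)
        have k1 : ((d 1 : ℤ) - e 1) = 0 := by
          apply (mul_eq_zero.1 (?_ : (((a 0 : ℤ) - a 2) * (b 1 - b 2) -
            (a 1 - a 2) * (b 0 - b 2)) * ((d 1 : ℤ) - e 1) = 0)).resolve_left hab
          linear_combination ((a 0 : ℤ) - a 2) * (hb' - b 2 * s1 + b 2 * s2) -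
            ((b 0 : ℤ) - b 2) * (hA' - a 2 * s1 + a 2 * s2)
        have k2 : ((d 2 : ℤ) - e 2) = 0 := by
          linear_combination s1 - s2 - k0 - k1
        apply Finsupp.ext
        intro i
        fin_cases i
        · change d 0 = e 0
          omega
        · change d 1 = e 1
          omega
        · change d 2 = e 2
          omega
      · rw [if_neg (fun h => hA h)]
    · rw [if_neg (fun h => hb h), coeff_zero]
  · intro hh
    exact absurd (MvPolynomial.mem_support_iff.2 he) hh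

/-- a member of the net -/
noncomputable def netAt {N : ℕ} (A : Fin 3 → Matrix (Fin N) (Fin N) k) (E : Fin 3 → k[X][X]) :
    Matrix (Fin N) (Fin N) k[X][X] := fun a b => ∑ l, C (C (A l a b)) * E l

theorem netAt_symm {N : ℕ} {A : Fin 3 → Matrix (Fin N) (Fin N) k} (hA : ∀ l, (A l).IsSymm)
    (E : Fin 3 → k[X][X]) : (netAt A E).IsSymm := by
  refine Matrix.ext fun a b => ?_
  change ∑ l, C (C (A l b a)) * E l = ∑ l, C (C (A l a b)) * E l
  exact Finset.sum_congr rfl fun l _ => by rw [(hA l).apply]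

theorem netAt_det {N : ℕ} (A : Fin 3 → Matrix (Fin N) (Fin N) k) (E : Fin 3 → k[X][X]) :
    (netAt A E).det = MvPolynomial.aeval E (net3 A).det := by
  have h1 : netAt A E = (MvPolynomial.aeval E : MvPolynomial (Fin 3) k →ₐ[k] k[X][X]).toRingHom.mapMatrix
      (net3 A) := by
    refine Matrix.ext fun a b => ?_
    change ∑ l, C (C (A l a b)) * E l = MvPolynomial.aeval E
      (∑ l, MvPolynomial.C (A l a b) * MvPolynomial.X l)
    rw [map_sum]
    refine Finset.sum_congr rfl fun l _ => ?_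
    rw [map_mul, MvPolynomial.aeval_X, MvPolynomial.aeval_C]
    rfl
  rw [h1, ← RingHom.map_det]
  rfl

theorem netAt_det_ne {N : ℕ} {A : Fin 3 → Matrix (Fin N) (Fin N) k} (h0 : (net3 A).det ≠ 0)
    (ε : Fin 3 → k) (hε : ∀ l, ε l ≠ 0) (a b : Fin 3 → ℕ)
    (hab : ((a 0 : ℤ) - a 2) * (b 1 - b 2) - (a 1 - a 2) * (b 0 - b 2) ≠ 0) :
    (netAt A fun l => mo (ε l) (a l) (b l)).det ≠ 0 := by
  rw [netAt_det]
  exact aeval_mono (net3_hom A) h0 ε hε a b hab

end Pool.Agent.Helper67.TQ
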