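import Pool.Agent.Helper67.TQ.Net
import Pool.Agent.Helper67.TQ.Mono

/-!
# Three quadratic forms: the data
-/

set_option autoImplicit false

namespace Pool.Agent.Helper67.TQ

open Pool.Agent.Helper29.CQ Pool.Agent.Helper65.CC Pool.Agent.Helper87.CC
  Pool.Agent.Helper65.CC.KFn
open Pool.Agent.Helper29.PF (pw pwZero pwSucc rp_pw Zf rep_Zf mem_Zf Pk kops ftZ char0)
open Polynomial

variable {p : ℕ} {P : ∀ (A : Type) [CommRing A], Prop} {k : Type} [Field k]

/-! ### Families over the plane -/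

/-- the plane over a functor, where a polynomial in the coordinates is invertible -/
noncomputable def PL (F : KFn k) (h : k[X][X]) : KFn k :=
  F.line.line.opn ⟨fun x => ev2 h x.1.2 x.2, fun f x => ev2_map f h x.1.2 x.2⟩

instance (F : KFn k) [Rp F] (h : k[X][X]) : Rp (PL F h) := by
  unfold PL
  infer_instance

/-- the equation `∑ ε_l z ^ a_l r ^ b_l Q_l = 0` -/
noncomputable def eqn {F : KFn k} (Q : Fin 3 → Coord F) (h : k[X][X]) (ε : Fin 3 → k)
    (a b : Fin 3 → ℕ) : Coord (PL F h) where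
  val {R} _ _ x := ∑ l, algebraMap k R (ε l) * x.1.1.2 ^ a l * x.1.2 ^ b l * (Q l).val x.1.1.1
  nat f x := by
    rw [map_sum]
    refine Finset.sum_congr rfl fun l _ => ?_
    rw [map_mul, map_mul, map_mul, map_pow, map_pow, f.commutes, (Q l).nat]
    rfl

/-- the family -/
noncomputable def NN {F : KFn k} (Q : Fin 3 → Coord F) (h : k[X][X]) (ε : Fin 3 → k)
    (a b : Fin 3 → ℕ) : KFn k := (PL F h).cls (eqn Q h ε a b)

instance {F : KFn k} [Rp F] (Q : Fin 3 → Coord F) (h : k[X][X]) (ε : Fin 3 → k)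
    (a b : Fin 3 → ℕ) : Rp (NN Q h ε a b) := by
  unfold NN
  infer_instance

/-- affinely independent exponents -/
def Ind (a b : Fin 3 → ℕ) : Prop :=
  ((a 0 : ℤ) - a 2) * (b 1 - b 2) - (a 1 - a 2) * (b 0 - b 2) ≠ 0

/-- the function `z r` -/
noncomputable def hzr (k : Type) [Field k] : k[X][X] := X * C X

theorem hzr_ne : hzr k ≠ 0 := mul_ne_zero X_ne_zero (C_ne_zero.2 X_ne_zero)

/-- the open parts that are used: everything, `r ≠ 0`, `z r ≠ 0` -/
def Op (h : k[X][X]) : Prop := h = 1 ∨ h = X ∨ h = hzr k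

theorem Op.ne {h : k[X][X]} (hh : Op h) : h ≠ 0 := by
  rcases hh with rfl | rfl | rfl
  · exact one_ne_zero
  · exact X_ne_zero
  · exact hzr_ne

/-- the data for three equations -/
structure TD (P : ∀ (A : Type) [CommRing A], Prop) {F : KFn k} (Q : Fin 3 → Coord F) : Prop where
  f : F.Mem (Pk P k)
  c1 : ∀ i, (F.cls (Q i)).Mem (Pk P k)
  c2 : ∀ i j, i ≠ j → ((F.cls (Q i)).cls (resC _ (Q j))).Mem (Pk P k)
  n3 : ∀ (h : k[X][X]) (ε : Fin 3 → k) (a b : Fin 3 → ℕ), Op h → (∀ l, ε l ≠ 0) → Ind a b →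
    (NN Q h ε a b).Mem (Pk P k)

/-! ### Affine spaces -/

/-- the affine space -/
def AF (k : Type) [Field k] (N : ℕ) : KFn k where
  obj R _ _ := Fin N → R
  map f x i := f (x i)
  id_map _ := rfl
  comp_map _ _ _ := rfl

theorem rep_AF (N : ℕ) : (AF k N).Rep (MvPolynomial (Fin N) k) MvPolynomial.X := by
  intro R _ _ x
  refine ⟨MvPolynomial.aeval (R := k) (x : Fin N → R), ?_, fun f hf => ?_⟩
  · funext i
    exact MvPolynomial.aeval_X (R := k) (x : Fin N → R) i
  · apply MvPolynomial.algHom_ext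
    intro i
    exact (congrFun hf i).trans (MvPolynomial.aeval_X (R := k) (x : Fin N → R) i).symm

instance (N : ℕ) : Rp (AF k N) := ⟨_, _, _, _, inferInstance, rep_AF N⟩

/-- polynomials as coordinates -/
noncomputable def vC {N : ℕ} (q : MvPolynomial (Fin N) k) : Coord (AF k N) :=
  ⟨fun x => MvPolynomial.aeval (R := k) x q, fun f x =>
    MvPolynomial.comp_aeval_apply (R := k) x f q⟩

/-- the quadratic form of a matrix -/
noncomputable def qp {N : ℕ} (A : Matrix (Fin N) (Fin N) k) : MvPolynomial (Fin N) k :=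
  ∑ a, ∑ b, MvPolynomial.C (A a b) * (MvPolynomial.X a * MvPolynomial.X b)

theorem qp_deg {N : ℕ} (A : Matrix (Fin N) (Fin N) k) : (qp A).totalDegree ≤ 2 := by
  refine MvPolynomial.IsHomogeneous.totalDegree_le ?_
  refine MvPolynomial.IsHomogeneous.sum _ _ _ fun a _ => ?_
  refine MvPolynomial.IsHomogeneous.sum _ _ _ fun b _ => ?_
  exact (((MvPolynomial.isHomogeneous_X k a).mul (MvPolynomial.isHomogeneous_X k b)).C_mul _)

theorem low_two [Finite k] (hp : p.Prime) (hP : FormalClass p P) (hk : (p : k) = 0) {N : ℕ}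
    (Q : Finset (MvPolynomial (Fin N) k)) (hQ : ∀ q ∈ Q, q.totalDegree ≤ 2) (hc : Q.card ≤ 2) :
    P (MvPolynomial (Fin N) k ⧸ Ideal.span (Q : Set (MvPolynomial (Fin N) k))) := by
  classical
  have hfk : Algebra.FiniteType ℤ k := by
    have : Module.Finite ℤ k := Module.Finite.of_finite
    infer_instance
  have h1 := Pool.Agent.Helper87.CC.tameClosed_tame.lowDegree k hfk (by
    intro q hq hlt
    exfalso
    have h2 : ringKrullDim (k ⧸ q) ≤ ringKrullDim k :=
      ringKrullDim_le_of_surjective (Ideal.Quotient.mk q) Ideal.Quotient.mk_surjective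
    rw [ringKrullDim_eq_zero_of_field] at h2
    exact absurd (hlt.trans_le h2) (by decide)) N ∅ Q (by simp) hQ (by
      rw [ringKrullDim_eq_zero_of_field, zero_add]
      exact_mod_cast hc)
  rw [Finset.coe_empty, Set.empty_union] at h1
  exact Pool.Agent.Helper67.CQ.of_tame hp hP h1
    (Pool.Agent.Helper67.CQ.char_quot (Pool.Agent.Helper67.CQ.char_mv hk) _)

theorem af_c1 [Finite k] (hp : p.Prime) (hP : FormalClass p P) (hk : (p : k) = 0) {N : ℕ}
    (q : MvPolynomial (Fin N) k) (hq : q.totalDegree ≤ 2) :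
    ((AF k N).cls (vC q)).Mem (Pk P k) := by
  classical
  have h1 := low_two hp hP hk {q} (by simpa using hq) (by simp)
  rw [Finset.coe_singleton] at h1
  refine Mem.of_iso ?_ (mem_Zf hP hk h1)
  exact
    { hom := fun x => ⟨x.1, fun q' hq' => by
        rw [Set.mem_singleton_iff.1 hq']
        exact x.2⟩
      inv := fun y => ⟨y.1, y.2 q (Set.mem_singleton q)⟩
      inv_hom := fun _ => rfl
      hom_inv := fun _ => rfl
      nat := fun _ _ => rfl }

theorem af_c2 [Finite k] (hp : p.Prime) (hP : FormalClass p P) (hk : (p : k) = 0) {N : ℕ}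
    (q q' : MvPolynomial (Fin N) k) (hq : q.totalDegree ≤ 2) (hq' : q'.totalDegree ≤ 2) :
    (((AF k N).cls (vC q)).cls (resC _ (vC q'))).Mem (Pk P k) := by
  classical
  have h1 := low_two hp hP hk {q, q'} (by
    intro r hr
    rw [Finset.mem_insert, Finset.mem_singleton] at hr
    rcases hr with rfl | rfl
    · exact hq
    · exact hq') (Finset.card_le_two)
  refine Mem.of_iso ?_ (mem_Zf hP hk h1)
  exact
    { hom := fun x => ⟨x.1.1, fun r hr => by
        rw [Finset.mem_coe, Finset.mem_insert, Finset.mem_singleton] at hr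
        rcases hr with rfl | rfl
        · exact x.1.2
        · exact x.2⟩
      inv := fun y => ⟨⟨y.1, y.2 q (by simp)⟩, y.2 q' (by simp)⟩
      inv_hom := fun _ => rfl
      hom_inv := fun _ => rfl
      nat := fun _ _ => rfl }

theorem af_f [Finite k] (hP : FormalClass p P) (hk : (p : k) = 0) (N : ℕ) :
    (AF k N).Mem (Pk P k) :=
  Mem.of_rep (kops hP hk) (rep_AF N) (Pool.Agent.Helper67.CQ.p_mv hP hk N)

theorem ev2_mo (ε : k) (a b : ℕ) {R : Type} [CommRing R] [Algebra k R] (z r : R) :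
    ev2 (mo ε a b) z r = algebraMap k R ε * z ^ a * r ^ b := by
  change eval₂ _ r (monomial b (monomial a ε)) = _
  rw [eval₂_monomial]
  change aeval z (monomial a ε) * r ^ b = _
  rw [aeval_monomial]

theorem ev2_mul (g h : k[X][X]) {R : Type} [CommRing R] [Algebra k R] (z r : R) :
    ev2 (g * h) z r = ev2 g z r * ev2 h z r := eval₂_mul _ _

theorem ev2_C (c : k) {R : Type} [CommRing R] [Algebra k R] (z r : R) :
    ev2 (C (C c)) z r = algebraMap k R c := by
  change eval₂ _ r (C (C c)) = _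
  rw [eval₂_C]
  change aeval z (C c) = _
  rw [aeval_C]

theorem ev2_sum {ι : Type} (s : Finset ι) (g : ι → k[X][X]) {R : Type} [CommRing R] [Algebra k R]
    (z r : R) : ev2 (∑ i ∈ s, g i) z r = ∑ i ∈ s, ev2 (g i) z r := by
  exact eval₂_finsetSum _ _ _ _

theorem net_val {N : ℕ} (A : Fin 3 → Matrix (Fin N) (Fin N) k) (E : Fin 3 → k[X][X]) {R : Type}
    [CommRing R] [Algebra k R] (z r : R) (x : Fin N → R) :
    ∑ a, ∑ b, ev2 (netAt A E a b) z r * (x a * x b) =
      ∑ l, ev2 (E l) z r * MvPolynomial.aeval (R := k) x (qp (A l)) := by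
  have h1 : ∀ l, ev2 (E l) z r * MvPolynomial.aeval (R := k) x (qp (A l)) =
      ∑ a, ∑ b, algebraMap k R (A l a b) * ev2 (E l) z r * (x a * x b) := by
    intro l
    unfold qp
    rw [map_sum, Finset.mul_sum]
    refine Finset.sum_congr rfl fun a _ => ?_
    rw [map_sum, Finset.mul_sum]
    refine Finset.sum_congr rfl fun b _ => ?_
    rw [map_mul, map_mul, MvPolynomial.aeval_C, MvPolynomial.aeval_X, MvPolynomial.aeval_X]
    ring
  symm
  rw [Finset.sum_congr rfl fun l _ => h1 l, Finset.sum_comm]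
  refine Finset.sum_congr rfl fun a _ => ?_
  rw [Finset.sum_comm]
  refine Finset.sum_congr rfl fun b _ => ?_
  rw [← Finset.sum_mul]
  congr 1
  change _ = ev2 (∑ l, C (C (A l a b)) * E l) z r
  rw [ev2_sum]
  exact Finset.sum_congr rfl fun l _ => by rw [ev2_mul, ev2_C]

/-- **the data for three quadratic forms in an odd number of variables** -/
theorem td_quad [Finite k] [CharP k p] (hp : p.Prime) (hp2 : p ≠ 2) (hP : FormalClass p P)
    {m : ℕ} (A : Fin 3 → Matrix (Fin (2 * m + 1)) (Fin (2 * m + 1)) k)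
    (hA : ∀ l, (A l).IsSymm) (hd : (net3 A).det ≠ 0) :
    TD P (F := AF k (2 * m + 1)) fun l => vC (qp (A l)) where
  f := af_f hP (CharP.cast_eq_zero k p) _
  c1 i := af_c1 hp hP (CharP.cast_eq_zero k p) _ (qp_deg _)
  c2 i j _ := af_c2 hp hP (CharP.cast_eq_zero k p) _ _ (qp_deg _) (qp_deg _)
  n3 h ε a b h0 hε hab := by
    refine Mem.of_iso ?_ (net_mem hp hp2 hP h0.ne (netAt A fun l => mo (ε l) (a l) (b l))
      (netAt_symm hA _) (netAt_det_ne hd ε hε a b hab))
    have key : ∀ {R : Type} [CommRing R] [Algebra k R] (z r : R) (x : Fin (2 * m + 1) → R),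
        ∑ i, ∑ j, ev2 (netAt A (fun l => mo (ε l) (a l) (b l)) i j) z r * (x i * x j) =
        ∑ l, algebraMap k R (ε l) * z ^ a l * r ^ b l *
          MvPolynomial.aeval (R := k) x (qp (A l)) := by
      intro R _ _ z r x
      rw [net_val]
      exact Finset.sum_congr rfl fun l _ => by rw [ev2_mo]
    exact
      { hom := fun {R} _ _ x => ⟨(⟨(x.1.1.1.2, x.1.1.2), x.1.2⟩, x.1.1.1.1),
          (key x.1.1.1.2 x.1.1.2 x.1.1.1.1).trans x.2⟩
        inv := fun {R} _ _ y => ⟨⟨((y.1.2, y.1.1.1.1), y.1.1.1.2), y.1.1.2⟩,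
          (key y.1.1.1.1 y.1.1.1.2 y.1.2).symm.trans y.2⟩
        inv_hom := fun _ => rfl
        hom_inv := fun _ => rfl
        nat := fun _ _ => rfl }

end Pool.Agent.Helper67.TQ
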