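import Pool.Agent.Helper9.TP.Tri
import Pool.Agent.Helper29.PF.Stable

/-!
# Extension of scalars of functors of points, and fibrations over the line
-/

set_option autoImplicit false

namespace Pool.Agent.Helper67.TQ

open Pool.Agent.Helper29.CQ Pool.Agent.Helper65.CC Pool.Agent.Helper87.CC
  Pool.Agent.Helper65.CC.KFn
open Pool.Agent.Helper29.PF (Pk kops ftZ char0)
open TensorProduct

variable {k : Type} [Field k] {K : Type} [Field K] [Algebra k K]

/-- algebras over an extension field are algebras over the field -/
@[reducible] noncomputable def down (k K : Type) [Field k] [Field K] [Algebra k K] (R : Type)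
    [CommRing R] [Algebra K R] : Algebra k R :=
  ((algebraMap K R).comp (algebraMap k K)).toAlgebra

/-- homomorphisms over the smaller field -/
noncomputable def dhom (k : Type) {K : Type} [Field k] [Field K] [Algebra k K] {R S : Type} [CommRing R] [CommRing S]
    [Algebra K R] [Algebra K S] (f : R →ₐ[K] S) :
    @AlgHom k R S _ _ _ (down k K R) (down k K S) :=
  let _ := down k K R
  let _ := down k K S
  { (f : R →+* S) with commutes' := fun c => f.commutes (algebraMap k K c) }

/-- the functor on the algebras over an extension field -/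
noncomputable def ext (K : Type) [Field K] [Algebra k K] (F : KFn k) : KFn K where
  obj R _ _ := @KFn.obj k _ F R _ (down k K R)
  map {R S} _ _ _ _ f x := @KFn.map k _ F R S _ _ (down k K R) (down k K S) (dhom k f) x
  id_map {R} _ _ x := @KFn.id_map k _ F R _ (down k K R) x
  comp_map {R S T} _ _ _ _ _ _ f g x :=
    @KFn.comp_map k _ F R S T _ _ _ (down k K R) (down k K S) (down k K T) (dhom k f) (dhom k g) x

/-- coordinates -/
noncomputable def extC (K : Type) [Field K] [Algebra k K] {F : KFn k} (t : Coord F) : Coord (ext K F) where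
  val {R} _ _ x := @Coord.val k _ F t R _ (down k K R) x
  nat {R S} _ _ _ _ f x := @Coord.nat k _ F t R S _ _ (down k K R) (down k K S) (dhom k f) x

/-- isomorphisms -/
noncomputable def extIso (K : Type) [Field K] [Algebra k K] {F F' : KFn k} (e : Iso F F') :
    Iso (ext K F) (ext K F') where
  hom {R} _ _ x := @Iso.hom k _ F F' e R _ (down k K R) x
  inv {R} _ _ x := @Iso.inv k _ F F' e R _ (down k K R) x
  inv_hom {R} _ _ x := @Iso.inv_hom k _ F F' e R _ (down k K R) x
  hom_inv {R} _ _ x := @Iso.hom_inv k _ F F' e R _ (down k K R) x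
  nat {R S} _ _ _ _ f x := @Iso.nat k _ F F' e R S _ _ (down k K R) (down k K S) (dhom k f) x

/-- the extension of scalars represents the extended functor -/
theorem rep_ext {F : KFn k} {A : Type} [CommRing A] [Algebra k A] {a : F.obj A}
    (ha : F.Rep A a) : ∃ b, (ext K F).Rep (K ⊗[k] A) b := by
  let B := K ⊗[k] A
  let j : A →ₐ[k] B := Algebra.TensorProduct.includeRight
  let _ : Algebra k B := down k K B
  let i : @AlgHom k A B _ _ _ _ (down k K B) :=
    @AlgHom.mk k A B _ _ _ _ (down k K B) (j : A →+* B) (fun c => by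
      have h1 : j (algebraMap k A c) = (algebraMap k K c) ⊗ₜ[k] (1 : A) := by
        change (1 : K) ⊗ₜ[k] (algebraMap k A c) = _
        rw [Algebra.algebraMap_eq_smul_one, Algebra.algebraMap_eq_smul_one, TensorProduct.smul_tmul]
      exact h1)
  have hi : ∀ x, i x = (1 : K) ⊗ₜ[k] x := fun _ => rfl
  refine ⟨@KFn.map k _ F A B _ _ _ (down k K B) i a, ?_⟩
  intro R _ _ x
  let _ : Algebra k R := down k K R
  obtain ⟨f, hf, hu⟩ := ha R x
  have hst : IsScalarTower k K R := IsScalarTower.of_algebraMap_eq fun _ => rfl
  let g : K ⊗[k] A →ₐ[K] R :=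
    Algebra.TensorProduct.lift (Algebra.ofId K R) f (fun _ _ => Commute.all _ _)
  have hg : ∀ x, g ((1 : K) ⊗ₜ[k] x) = f x := by
    intro x
    simp only [g, Algebra.TensorProduct.lift_tmul, map_one, one_mul]
  refine ⟨g, ?_, ?_⟩
  · have h1 := @KFn.comp_map k _ F A B R _ _ _ _ (down k K B) (down k K R) i (dhom k g) a
    refine h1.symm.trans ?_
    rw [← hf]
    congr 1
    exact AlgHom.ext fun x => hg x
  · intro g' hg'
    have h1 := @KFn.comp_map k _ F A B R _ _ _ _ (down k K B) (down k K R) i (dhom k g') a
    have h2 := hu _ (h1.trans hg')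
    apply Algebra.TensorProduct.ext
    · ext
    · refine AlgHom.ext fun x => ?_
      have h3 : g' ((1 : K) ⊗ₜ[k] x) = f x := DFunLike.congr_fun h2 x
      exact h3.trans (hg x).symm

instance rp_ext {F : KFn k} [h : Rp F] : Rp (ext K F) := by
  obtain ⟨A, _, _, a, hA, ha⟩ := h.out
  obtain ⟨b, hb⟩ := rep_ext (K := K) ha
  exact ⟨_, _, _, b, Algebra.FiniteType.baseChange _, hb⟩

end Pool.Agent.Helper67.TQ
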