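import Mathlib

/-!
# Diagonalisation of symmetric matrices over a domain
-/

set_option autoImplicit false

namespace Pool.Agent.Helper67.TQ

open Matrix

/-- symmetric matrices with nonzero determinant over a domain are diagonal in a basis over the
field of fractions -/
theorem exists_diag {A : Type} [CommRing A] [IsDomain A] (h2 : (2 : A) ≠ 0) {N : ℕ}
    (M : Matrix (Fin N) (Fin N) A) (hM : M.IsSymm) (hd : M.det ≠ 0) :
    ∃ (S : Matrix (Fin N) (Fin N) A) (w : Fin N → A), S.det ≠ 0 ∧ (∀ l, w l ≠ 0) ∧
      Sᵀ * M * S = Matrix.diagonal w := by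
  classical
  let L := FractionRing A
  have hinj : Function.Injective (algebraMap A L) := IsFractionRing.injective A L
  have h2L : (2 : L) ≠ 0 := by
    intro h
    apply h2
    apply hinj
    rw [map_ofNat, map_zero]
    exact h
  let _ : Invertible (2 : L) := invertibleOfNonzero h2L
  let M' : Matrix (Fin N) (Fin N) L := M.map (algebraMap A L)
  let B : LinearMap.BilinForm L (Fin N → L) := Matrix.toBilin' M'
  have hB : LinearMap.IsSymm B := by
    constructor
    intro x y
    simp only [B, Matrix.toBilin'_apply', RingHom.id_apply]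
    rw [Matrix.dotProduct_mulVec, ← Matrix.mulVec_transpose]
    have h1 : M'ᵀ = M' := by
      ext i j
      exact congrArg (algebraMap A L) (congrFun (congrFun hM i) j)
    rw [h1, dotProduct_comm]
  obtain ⟨v, hv⟩ := LinearMap.BilinForm.exists_orthogonal_basis hB
  have hfr : Module.finrank L (Fin N → L) = N := by simp
  let v' : Module.Basis (Fin N) L (Fin N → L) := v.reindex (finCongr hfr)
  let V : Matrix (Fin N) (Fin N) L := Matrix.of fun i j => v' j i
  have hV : V.det ≠ 0 := by
    have h1 : V = (Pi.basisFun L (Fin N)).toMatrix v' := by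
      ext i j
      simp [V, Module.Basis.toMatrix_apply]
    rw [h1]
    have h3 := Module.Basis.toMatrix_mul_toMatrix_flip (Pi.basisFun L (Fin N)) v'
    have h4 := congrArg Matrix.det h3
    rw [Matrix.det_mul, Matrix.det_one] at h4
    exact left_ne_zero_of_mul_eq_one h4
  obtain ⟨b, hb⟩ := IsLocalization.exist_integer_multiples_of_finite (nonZeroDivisors A)
    (fun ij : Fin N × Fin N => V ij.1 ij.2)
  choose S0 hS0 using hb
  let S : Matrix (Fin N) (Fin N) A := Matrix.of fun i j => S0 (i, j)
  have hS : S.map (algebraMap A L) = (algebraMap A L (b : A)) • V := by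
    ext i j
    rw [Matrix.map_apply, Matrix.smul_apply]
    refine (hS0 (i, j)).trans ?_
    rw [Algebra.smul_def]
    rfl
  have hb0 : algebraMap A L (b : A) ≠ 0 := by
    intro h
    have h1 := hinj (h.trans (map_zero _).symm)
    exact nonZeroDivisors.ne_zero b.2 h1
  have hSd : S.det ≠ 0 := by
    intro h
    have h1 := congrArg (algebraMap A L) h
    rw [map_zero, RingHom.map_det] at h1
    change (S.map (algebraMap A L)).det = 0 at h1
    rw [hS, Matrix.det_smul] at h1
    exact mul_ne_zero (pow_ne_zero _ hb0) hV h1
  have hD : ∀ i j, i ≠ j → (Sᵀ * M * S) i j = 0 := by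
    intro i j hij
    apply hinj
    rw [map_zero]
    have h1 : algebraMap A L ((Sᵀ * M * S) i j) =
        ((S.map (algebraMap A L))ᵀ * M' * (S.map (algebraMap A L))) i j := by
      have h3 : (Sᵀ * M * S).map (algebraMap A L) =
          (S.map (algebraMap A L))ᵀ * M' * (S.map (algebraMap A L)) := by
        rw [Matrix.map_mul, Matrix.map_mul, Matrix.transpose_map]
      exact congrFun (congrFun h3 i) j
    rw [h1, hS, Matrix.transpose_smul, Matrix.smul_mul, Matrix.smul_mul, Matrix.mul_smul,
      Matrix.smul_apply, Matrix.smul_apply]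
    have h4 : (Vᵀ * M' * V) i j = B (v' i) (v' j) := by
      simp only [B, Matrix.toBilin'_apply']
      rw [Matrix.mul_assoc, Matrix.mul_apply]
      simp only [dotProduct, Matrix.mulVec, Matrix.mul_apply, Matrix.transpose_apply, V,
        Matrix.of_apply]
    have h5 : B (v' i) (v' j) = 0 := by
      have h6 : (finCongr hfr).symm i ≠ (finCongr hfr).symm j :=
        fun h => hij ((finCongr hfr).symm.injective h)
      have h7 := hv h6
      simpa [v', Module.Basis.reindex_apply] using h7
    rw [h4, h5, smul_zero, smul_zero]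
  refine ⟨S, fun l => (Sᵀ * M * S) l l, hSd, ?_, ?_⟩
  · have h1 : (Sᵀ * M * S) = Matrix.diagonal fun l => (Sᵀ * M * S) l l := by
      ext i j
      by_cases hij : i = j
      · subst hij
        rw [Matrix.diagonal_apply_eq]
      · rw [Matrix.diagonal_apply_ne _ hij, hD i j hij]
    have h3 : (Sᵀ * M * S).det ≠ 0 := by
      rw [Matrix.det_mul, Matrix.det_mul, Matrix.det_transpose]
      exact mul_ne_zero (mul_ne_zero hSd hd) hSd
    rw [h1, Matrix.det_diagonal] at h3
    exact fun l => Finset.prod_ne_zero_iff.1 h3 l (Finset.mem_univ l)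
  · ext i j
    by_cases hij : i = j
    · subst hij
      rw [Matrix.diagonal_apply_eq]
    · rw [Matrix.diagonal_apply_ne _ hij, hD i j hij]

end Pool.Agent.Helper67.TQ
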