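import Pool.Agent.Helper67.TQ.Hyp
import Pool.Agent.Helper67.TQ.Mat

/-!
# Families of quadratic forms over the line
-/

set_option autoImplicit false

namespace Pool.Agent.Helper67.TQ

open Pool.Agent.Helper29.CQ Pool.Agent.Helper65.CC Pool.Agent.Helper87.CC
  Pool.Agent.Helper65.CC.KFn
open Pool.Agent.Helper29.PF (pw pwZero pwSucc rp_pw Zf rep_Zf)
open Polynomial

variable {K : Type} [Field K] {G : ∀ (R : Type) [CommRing R] [Algebra K R], Prop}

/-! ### Quadrics -/

/-- the zeros of a polynomial -/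
def Zq {N : ℕ} (q : MvPolynomial (Fin N) K) : KFn K :=
  KFn.sub ⟨fun R _ _ => Fin N → R, fun f x i => f (x i), fun _ => rfl, fun _ _ _ => rfl⟩
    (fun {R} _ _ x => MvPolynomial.aeval x q = 0) fun f x h => by
      have h1 := MvPolynomial.comp_aeval_apply (R := K) x f q
      rw [← h1, h, map_zero]

theorem mem_zq [IsAlgClosed K] (hG : GOps K G) {N : ℕ} {q : MvPolynomial (Fin N) K}
    (hq : q.totalDegree ≤ 2) : (Zq q).Mem G := by
  classical
  have h1 := quadric hG.toKOps hG.one N ∅ (fun l hl => absurd hl (Finset.notMem_empty l)) q hq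
  have h2 : (MvPolynomial.map (algebraMap K K) '' (insert q
      ((∅ : Finset (MvPolynomial (Fin N) K)) : Set (MvPolynomial (Fin N) K)))) = {q} := by
    rw [Finset.coe_empty, insert_empty_eq, Set.image_singleton]
    congr 1
    have h3 : algebraMap K K = RingHom.id K := rfl
    rw [h3, MvPolynomial.map_id]
  rw [h2] at h1
  obtain ⟨a, ha⟩ := rep_Zf ({q} : Set (MvPolynomial (Fin N) K))
  refine Mem.of_iso (F' := Zf {q}) ?_ (Mem.of_rep hG.toKOps ha h1)
  exact
    { hom := fun x => ⟨x.1, fun q' hq' => by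
        rw [Set.mem_singleton_iff.1 hq']
        exact x.2⟩
      inv := fun y => ⟨y.1, y.2 q (Set.mem_singleton q)⟩
      inv_hom := fun _ => rfl
      hom_inv := fun _ => rfl
      nat := fun _ _ => rfl }

/-! ### Families over the line -/

/-- the coordinate of the line -/
def idL (K : Type) [Field K] : Coord (A1 K) := ⟨fun x => x, fun _ _ => rfl⟩

/-- open parts of the line -/
noncomputable def Bh (h : K[X]) : KFn K := (A1 K).opn (polyC (idL K) h)

instance (h : K[X]) : Rp (Bh h) := by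
  unfold Bh
  infer_instance

/-- the coordinate -/
def rB (h : K[X]) : Coord (Bh h) := ⟨fun x => x.1, fun _ _ => rfl⟩

theorem mem_Bh [IsAlgClosed K] (hG : GOps K G) {h : K[X]} (h0 : h ≠ 0) : (Bh h).Mem G := by
  refine mem_opn_poly hG.toKOps _ _ h h0 (mem_A1 hG) fun a => Mem.of_iso ?_ (mem_pnt hG)
  exact
    { hom := fun _ => ()
      inv := fun {R} _ _ _ => ⟨algebraMap K R a, sub_self _⟩
      inv_hom := fun {R} _ _ x => by
        have h1 : (idL K).val x.1 - algebraMap K R a = 0 := x.2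
        exact Subtype.ext (sub_eq_zero.1 h1).symm
      hom_inv := fun _ => rfl
      nat := fun _ _ => rfl }

theorem rB_unit (h : K[X]) {R : Type} [CommRing R] [Algebra K R] (x : (Bh h).obj R) :
    IsUnit (aeval ((rB h).val x) h) := x.2

/-- polynomials as coordinates -/
noncomputable def pC (h a : K[X]) : Coord (Bh h) where
  val x := aeval ((rB h).val x) a
  nat f x := (aeval_algHom_apply f ((rB h).val x) a).symm

theorem pC_unit {h a : K[X]} (hd : a ∣ h) {R : Type} [CommRing R] [Algebra K R]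
    (x : (Bh h).obj R) : IsUnit ((pC h a).val x) :=
  isUnit_of_dvd_unit (map_dvd (aeval ((rB h).val x)) hd) (rB_unit h x)

/-- the product of the line and an affine space -/
def AN (K : Type) [Field K] (N : ℕ) : KFn K where
  obj R _ _ := R × (Fin N → R)
  map f x := (f x.1, fun i => f (x.2 i))
  id_map _ := rfl
  comp_map _ _ _ := rfl

/-- a family of closed subschemes of the affine space -/
noncomputable def Fam (h : K[X]) {N : ℕ} (u : Coord (AN K N)) : KFn K :=
  (pw (Bh h) N).cls ⟨fun x => u.val ((rB h).val x.1, x.2), fun f _ => u.nat f _⟩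

instance (h : K[X]) {N : ℕ} (u : Coord (AN K N)) : Rp (Fam h u) := by
  unfold Fam
  infer_instance

/-- the parameter -/
noncomputable def tF (h : K[X]) {N : ℕ} (u : Coord (AN K N)) : Coord (Fam h u) :=
  ⟨fun x => (rB h).val x.1.1, fun _ _ => rfl⟩

/-- shrinking the base -/
theorem fam_shrink [IsAlgClosed K] (hG : KOps K G) {h g : K[X]} (hg : g ≠ 0) {N : ℕ}
    (u : Coord (AN K N))
    (hf : ∀ c : K, ∃ q : MvPolynomial (Fin N) K, (Zq q).Mem G ∧
      ∀ (R : Type) [CommRing R] [Algebra K R] (x : (AN K N).obj R), x.1 = algebraMap K R c →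
        u.val x = MvPolynomial.aeval x.2 q)
    (hm : (Fam (h * g) u).Mem G) : (Fam h u).Mem G := by
  refine mem_fibres hG _ _ (tF h u) g hg rfl ?_ ?_
  · intro c
    obtain ⟨q, hq, hu⟩ := hf c
    by_cases hc : h.eval c = 0
    · refine Mem.of_trivial hG fun A _ _ x => ?_
      have h1 : (rB h).val x.1.1.1 - algebraMap K A c = 0 := x.2
      have h2 : IsUnit (aeval ((rB h).val x.1.1.1) h) := x.1.1.1.2
      rw [sub_eq_zero.1 h1, aeval_algebraMap_apply, coe_aeval_eq_eval, hc, map_zero] at h2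
      exact subsingleton_of_zero_eq_one (isUnit_zero_iff.1 h2)
    · refine Mem.of_iso (F' := Zq q) ?_ hq
      exact
        { hom := fun {R} _ _ x => ⟨x.1.1.2, by
            have h1 : (rB h).val x.1.1.1 - algebraMap K R c = 0 := x.2
            exact (hu R ((rB h).val x.1.1.1, x.1.1.2) (sub_eq_zero.1 h1)).symm.trans x.1.2⟩
          inv := fun {R} _ _ y => ⟨⟨(⟨algebraMap K R c, by
            change IsUnit (aeval (algebraMap K R c) h)
            rw [aeval_algebraMap_apply, coe_aeval_eq_eval]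
            exact unit_const hc⟩, y.1), (hu R (algebraMap K R c, y.1) rfl).trans y.2⟩,
            sub_self _⟩
          inv_hom := fun {R} _ _ x => by
            have h1 : (rB h).val x.1.1.1 - algebraMap K R c = 0 := x.2
            exact Subtype.ext (Subtype.ext (Prod.ext (Subtype.ext (sub_eq_zero.1 h1).symm) rfl))
          hom_inv := fun _ => rfl
          nat := fun _ _ => rfl }
  · refine Mem.of_iso ?_ hm
    exact
      { hom := fun {R} _ _ x => ⟨(⟨x.1.1.1.1, by
          change IsUnit (aeval ((rB h).val x.1.1.1) (h * g))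
          rw [map_mul]
          exact (rB_unit h x.1.1.1).mul x.2⟩, x.1.1.2), x.1.2⟩
        inv := fun {R} _ _ y => ⟨⟨(⟨y.1.1.1, by
          have h1 : IsUnit (aeval ((rB (h * g)).val y.1.1) (h * g)) := y.1.1.2
          rw [map_mul] at h1
          exact isUnit_of_mul_isUnit_left h1⟩, y.1.2), y.2⟩, by
          have h1 : IsUnit (aeval ((rB (h * g)).val y.1.1) (h * g)) := y.1.1.2
          rw [map_mul] at h1
          exact isUnit_of_mul_isUnit_right h1⟩
        inv_hom := fun _ => rfl
        hom_inv := fun _ => rfl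
        nat := fun _ _ => rfl }

/-! ### Quadratic forms over the line -/

/-- the quadratic form with the coefficients `M` -/
noncomputable def uM {N : ℕ} (M : Fin N → Fin N → K[X]) : Coord (AN K N) where
  val x := ∑ a, ∑ b, aeval x.1 (M a b) * (x.2 a * x.2 b)
  nat f x := by
    rw [map_sum]
    refine Finset.sum_congr rfl fun a _ => ?_
    rw [map_sum]
    refine Finset.sum_congr rfl fun b _ => ?_
    rw [map_mul, map_mul, ← aeval_algHom_apply]
    rfl

/-- the diagonal form with the coefficients `a` -/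
noncomputable def uD {N : ℕ} (a : Fin N → K[X]) : Coord (AN K N) where
  val x := ∑ l, aeval x.1 (a l) * x.2 l ^ 2
  nat f x := by
    rw [map_sum]
    refine Finset.sum_congr rfl fun l _ => ?_
    rw [map_mul, map_pow, ← aeval_algHom_apply]
    rfl

theorem uM_fib [IsAlgClosed K] (hG : GOps K G) {N : ℕ} (M : Fin N → Fin N → K[X]) (c : K) :
    ∃ q : MvPolynomial (Fin N) K, (Zq q).Mem G ∧
      ∀ (R : Type) [CommRing R] [Algebra K R] (x : (AN K N).obj R), x.1 = algebraMap K R c →
        (uM M).val x = MvPolynomial.aeval x.2 q := by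
  refine ⟨∑ a, ∑ b, MvPolynomial.C ((M a b).eval c) * (MvPolynomial.X a * MvPolynomial.X b),
    mem_zq hG ?_, ?_⟩
  · refine MvPolynomial.IsHomogeneous.totalDegree_le ?_
    refine MvPolynomial.IsHomogeneous.sum _ _ _ fun a _ => ?_
    refine MvPolynomial.IsHomogeneous.sum _ _ _ fun b _ => ?_
    exact (((MvPolynomial.isHomogeneous_X K a).mul (MvPolynomial.isHomogeneous_X K b)).C_mul _)
  · intro R _ _ x hx
    change ∑ a, ∑ b, aeval x.1 (M a b) * (x.2 a * x.2 b) = _
    rw [hx]
    simp only [map_sum, map_mul, MvPolynomial.aeval_C, MvPolynomial.aeval_X]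
    refine Finset.sum_congr rfl fun a _ => Finset.sum_congr rfl fun b _ => ?_
    rw [aeval_algebraMap_apply, coe_aeval_eq_eval]

theorem uD_fib [IsAlgClosed K] (hG : GOps K G) {N : ℕ} (a : Fin N → K[X]) (c : K) :
    ∃ q : MvPolynomial (Fin N) K, (Zq q).Mem G ∧
      ∀ (R : Type) [CommRing R] [Algebra K R] (x : (AN K N).obj R), x.1 = algebraMap K R c →
        (uD a).val x = MvPolynomial.aeval x.2 q := by
  refine ⟨∑ l, MvPolynomial.C ((a l).eval c) * MvPolynomial.X l ^ 2, mem_zq hG ?_, ?_⟩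
  · refine MvPolynomial.IsHomogeneous.totalDegree_le ?_
    refine MvPolynomial.IsHomogeneous.sum _ _ _ fun l _ => ?_
    have h1 := ((MvPolynomial.isHomogeneous_X K l).pow 2).C_mul ((a l).eval c)
    rwa [one_mul] at h1
  · intro R _ _ x hx
    change ∑ l, aeval x.1 (a l) * x.2 l ^ 2 = _
    rw [hx]
    simp only [map_sum, map_mul, map_pow, MvPolynomial.aeval_C, MvPolynomial.aeval_X]
    refine Finset.sum_congr rfl fun l _ => ?_
    rw [aeval_algebraMap_apply, coe_aeval_eq_eval]

/-- isotropic vectors of ternary diagonal forms -/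
theorem iso_vec [IsAlgClosed K] (h2 : (2 : K) ≠ 0) (a0 a1 a2 : K[X]) (h0 : a0 ≠ 0) (h1 : a1 ≠ 0)
    (h3 : a2 ≠ 0) : ∃ p q s : K[X], p ≠ 0 ∧ a0 * p ^ 2 + a1 * q ^ 2 + a2 * s ^ 2 = 0 := by
  have h2' : (2 : K[X]) ≠ 0 := by
    intro h
    apply h2
    have h3 := congrArg (coeff · 0) h
    simpa using h3
  obtain ⟨x, y, z, hn, he⟩ := Pool.Agent.Helper11.TP.tsen (-(a0 * a1)) (-(a0 * a2))
    (neg_ne_zero.2 (mul_ne_zero h0 h1)) (neg_ne_zero.2 (mul_ne_zero h0 h3))
  by_cases hx : x = 0
  · subst hx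
    have h4 : a1 * y ^ 2 + a2 * z ^ 2 = 0 := by
      have h5 : a0 * (a1 * y ^ 2 + a2 * z ^ 2) = 0 := by linear_combination he
      exact (mul_eq_zero.1 h5).resolve_left h0
    have hy : y ≠ 0 := by
      rintro rfl
      have h5 : a2 * z ^ 2 = 0 := by linear_combination h4
      have h6 := pow_eq_zero_iff (two_ne_zero) |>.1 ((mul_eq_zero.1 h5).resolve_left h3)
      rcases hn with h | h | h
      · exact h rfl
      · exact h rfl
      · exact h h6
    refine ⟨2 * a1 * y, (a1 - a0) * y, (a1 + a0) * z, mul_ne_zero (mul_ne_zero h2' h1) hy, ?_⟩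
    linear_combination (a1 + a0) ^ 2 * h4
  · refine ⟨x, a0 * y, a0 * z, hx, ?_⟩
    linear_combination a0 * he

/-- **diagonal forms in an odd number of variables over the line** -/
theorem dg_odd [IsAlgClosed K] (hG : GOps K G) (h2 : (2 : K) ≠ 0) (m : ℕ) :
    ∀ (h : K[X]), h ≠ 0 → ∀ a : Fin (2 * m + 1) → K[X], (∀ l, a l ≠ 0) →
      (Fam h (uD a)).Mem G := by
  induction m with
  | zero =>
    intro h h0 a ha
    refine fam_shrink hG.toKOps (ha 0) _ (uD_fib hG a) ?_
    exact dg_one (F := Bh (h * a 0)) hG.toKOps (mem_Bh hG (mul_ne_zero h0 (ha 0)))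
      (fun l => pC _ (a l)) fun x => pC_unit (dvd_mul_left _ _) x
  | succ m ih =>
    intro h h0 a ha
    obtain ⟨p, q, s, hp, he⟩ := iso_vec h2 (a 0) (a 1) (a 2) (ha 0) (ha 1) (ha 2)
    refine fam_shrink hG.toKOps (mul_ne_zero (ha 0) hp) _ (uD_fib hG a) ?_
    have hh : h * (a 0 * p) ≠ 0 := mul_ne_zero h0 (mul_ne_zero (ha 0) hp)
    let a' : Fin (2 * m + 3) → K[X] := a
    have e := dgHg (F := Bh (h * (a 0 * p))) (n := 2 * m) (fun l => pC _ (a' l)) (pC _ p) (pC _ q)
      (pC _ s)
      (fun {R} _ _ x => by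
        have h1 := congrArg (aeval ((rB _).val x)) he
        simp only [map_add, map_mul, map_pow, map_zero] at h1
        exact h1) h2
      (fun x => pC_unit (by
        exact Dvd.intro_left _ (by ring : h * p * a 0 = h * (a 0 * p))) x)
      (fun x => pC_unit (by
        exact Dvd.intro_left _ (by ring : h * a 0 * p = h * (a 0 * p))) x)
    refine Mem.of_iso (F := DG (Bh (h * (a 0 * p))) fun l => pC _ (a' l)) e
      (hg_mem hG.toKOps (mem_Bh hG hh) _ ?_)
    let b : Fin (2 * m + 1) → K[X] := Fin.cons (-(a 0 * a 1 * a 2 * p ^ 2))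
      (fun i => a' i.succ.succ.succ)
    have hb := ih _ hh b fun l => by
      refine Fin.cases ?_ (fun i => ?_) l
      · exact neg_ne_zero.2 (mul_ne_zero (mul_ne_zero (mul_ne_zero (ha 0) (ha 1)) (ha 2))
          (pow_ne_zero _ hp))
      · exact ha _
    refine Mem.of_iso ?_ hb
    refine isoCls (F := pw (Bh (h * (a 0 * p))) (2 * m + 1))
      (F' := pw (Bh (h * (a 0 * p))) (2 * m + 1))
      ⟨fun x => x, fun x => x, fun _ => rfl, fun _ => rfl, fun _ _ => rfl⟩ _ _ fun {R} _ _ x => ?_
    have h1 : ∀ l, (bb (F := Bh (h * (a 0 * p))) (fun l => pC _ (a' l)) (pC _ p) l).val x.1 =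
        aeval ((rB _).val x.1) (b l) := by
      intro l
      refine Fin.cases ?_ (fun i => rfl) l
      change -(aeval _ _ * aeval _ _ * aeval _ _ * aeval _ _ ^ 2) =
        aeval ((rB _).val x.1) (-(a 0 * a 1 * a 2 * p ^ 2))
      simp only [map_neg, map_mul, map_pow]
      rfl
    have h3 : ∑ l, (bb (F := Bh (h * (a 0 * p))) (fun l => pC _ (a' l)) (pC _ p) l).val x.1 *
        x.2 l ^ 2 = ∑ l, aeval ((rB _).val x.1) (b l) * x.2 l ^ 2 :=
      Finset.sum_congr rfl fun l _ => by rw [h1]
    change (∑ l, (bb (F := Bh (h * (a 0 * p))) (fun l => pC _ (a' l)) (pC _ p) l).val x.1 *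
        x.2 l ^ 2) = 0 ↔ ∑ l, aeval ((rB _).val x.1) (b l) * x.2 l ^ 2 = 0
    rw [h3]

/-! ### Linear changes of coordinates -/

/-- a linear change of coordinates -/
noncomputable def linIso {F : KFn K} {N : ℕ} (T : Fin N → Fin N → Coord F)
    (hT : ∀ {R : Type} [CommRing R] [Algebra K R] (x : F.obj R),
      IsUnit (Matrix.of fun i j => (T i j).val x).det) : Iso (pw F N) (pw F N) where
  hom y := (y.1, (Matrix.of fun i j => (T i j).val y.1).mulVec y.2)
  inv x := (x.1, ((Matrix.of fun i j => (T i j).val x.1)⁻¹).mulVec x.2)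
  inv_hom {R} _ _ x := Prod.ext rfl (by
    rw [Matrix.mulVec_mulVec, Matrix.nonsing_inv_mul _ (hT x.1), Matrix.one_mulVec])
  hom_inv {R} _ _ x := Prod.ext rfl (by
    rw [Matrix.mulVec_mulVec, Matrix.mul_nonsing_inv _ (hT x.1), Matrix.one_mulVec])
  nat {R S} _ _ _ _ f x := Prod.ext rfl (by
    funext i
    change f (∑ j, (T i j).val x.1 * x.2 j) = ∑ j, (T i j).val (F.map f x.1) * f (x.2 j)
    rw [map_sum]
    exact Finset.sum_congr rfl fun j _ => by rw [map_mul, (T i j).nat])

theorem sum_quad {R : Type} [CommRing R] {N : ℕ} (M : Matrix (Fin N) (Fin N) R) (x : Fin N → R) :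
    ∑ a, ∑ b, M a b * (x a * x b) = x ⬝ᵥ M.mulVec x := by
  simp only [dotProduct, Matrix.mulVec, Finset.mul_sum]
  exact Finset.sum_congr rfl fun a _ => Finset.sum_congr rfl fun b _ => by ring

/-- **quadratic forms in an odd number of variables over the line** -/
theorem qf_odd [IsAlgClosed K] (hG : GOps K G) (h2 : (2 : K) ≠ 0) (m : ℕ) {h : K[X]}
    (h0 : h ≠ 0) (M : Matrix (Fin (2 * m + 1)) (Fin (2 * m + 1)) K[X]) (hM : M.IsSymm)
    (hd : M.det ≠ 0) : (Fam h (uM M)).Mem G := by
  have h2' : (2 : K[X]) ≠ 0 := by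
    intro h
    apply h2
    have h3 := congrArg (coeff · 0) h
    simpa using h3
  obtain ⟨S, w, hS, hw, hSM⟩ := exists_diag h2' M hM hd
  refine fam_shrink hG.toKOps hS _ (uM_fib hG M) ?_
  refine Mem.of_iso (Iso.symm ?_) (dg_odd hG h2 m (h * S.det) (mul_ne_zero h0 hS) w hw)
  refine isoCls (linIso (F := Bh (h * S.det)) (fun i j => pC _ (S i j)) fun {R} _ _ x => ?_) _ _
    fun {R} _ _ x => ?_
  · have h1 : (Matrix.of fun i j => (pC (h * S.det) (S i j)).val x) =
        (aeval ((rB (h * S.det)).val x) : K[X] →ₐ[K] R).toRingHom.mapMatrix S := by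
      ext i j
      rfl
    rw [h1, ← RingHom.map_det]
    exact pC_unit (dvd_mul_left S.det h) x
  · have h1 : ∑ l, aeval ((rB (h * S.det)).val x.1) (w l) * x.2 l ^ 2 =
        ∑ a, ∑ b, aeval ((rB (h * S.det)).val x.1) (M a b) *
          (((Matrix.of fun i j => (pC (h * S.det) (S i j)).val x.1).mulVec x.2) a *
          ((Matrix.of fun i j => (pC (h * S.det) (S i j)).val x.1).mulVec x.2) b) := by
      let φ : K[X] →+* R := (aeval ((rB (h * S.det)).val x.1) : K[X] →ₐ[K] R).toRingHom
      have e1 : (Matrix.of fun i j => (pC (h * S.det) (S i j)).val x.1) = S.map φ := by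
        ext i j
        rfl
      have e2 : ∀ y : Fin (2 * m + 1) → R, ∑ a, ∑ b, aeval ((rB (h * S.det)).val x.1) (M a b) *
          (y a * y b) = y ⬝ᵥ (M.map φ).mulVec y := fun y => sum_quad (M.map φ) y
      rw [e1, e2]
      have e3 : (S.map φ).transpose * (M.map φ) * (S.map φ) = Matrix.diagonal fun l => φ (w l) := by
        rw [← Matrix.transpose_map, ← Matrix.map_mul, ← Matrix.map_mul, hSM,
          Matrix.diagonal_map (map_zero φ)]
      have e4 : ((S.map φ).mulVec x.2) ⬝ᵥ (M.map φ).mulVec ((S.map φ).mulVec x.2) =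
          x.2 ⬝ᵥ ((S.map φ).transpose * (M.map φ) * (S.map φ)).mulVec x.2 := by
        rw [← Matrix.mulVec_mulVec, ← Matrix.mulVec_mulVec,
          Matrix.dotProduct_mulVec x.2 (S.map φ).transpose, Matrix.vecMul_transpose]
      rw [e4, e3]
      simp only [dotProduct, Matrix.mulVec_diagonal]
      exact Finset.sum_congr rfl fun l _ => by
        change φ (w l) * x.2 l ^ 2 = x.2 l * (φ (w l) * x.2 l)
        ring
    change ∑ l, aeval ((rB (h * S.det)).val x.1) (w l) * x.2 l ^ 2 = 0 ↔
      ∑ a, ∑ b, aeval ((rB (h * S.det)).val x.1) (M a b) *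
          (((Matrix.of fun i j => (pC (h * S.det) (S i j)).val x.1).mulVec x.2) a *
          ((Matrix.of fun i j => (pC (h * S.det) (S i j)).val x.1).mulVec x.2) b) = 0
    rw [h1]

end Pool.Agent.Helper67.TQ
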