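import Pool.Agent.Helper67.TQ.Ext

/-!
# Fibrations over the line
-/

set_option autoImplicit false

namespace Pool.Agent.Helper67.TQ

open Pool.Agent.Helper29.CQ Pool.Agent.Helper65.CC Pool.Agent.Helper87.CC
  Pool.Agent.Helper65.CC.KFn
open Pool.Agent.Helper29.PF (Pk kops ftZ char0)
open Polynomial TensorProduct

variable {p : ℕ} {P : ∀ (A : Type) [CommRing A], Prop}

/-- the members of the class over finite fields are in the class `G` after extension of
scalars -/
def CstP (P : ∀ (A : Type) [CommRing A], Prop) {K : Type} [Field K]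
    (G : ∀ (R : Type) [CommRing R] [Algebra K R], Prop) : Prop :=
  ∀ (k' : Type) [Field k'] [Finite k'] [Algebra k' K] (W : Type) [CommRing W] [Algebra k' W],
    P W → G (K ⊗[k'] W)

theorem CstP.mem {K : Type} [Field K] {G : ∀ (R : Type) [CommRing R] [Algebra K R], Prop}
    (hG : KOps K G) (hW : CstP P G) {k : Type} [Field k] [Finite k] [Algebra k K] {F : KFn k}
    [hF : Rp F] (h : F.Mem (Pk P k)) : (ext K F).Mem G := by
  obtain ⟨A, _, _, a, hA, ha⟩ := hF.out
  obtain ⟨b, hb⟩ := rep_ext (K := K) ha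
  exact Mem.of_rep hG hb (hW k A (h A a hA ha))

theorem multS_of (hP : FormalClass p P) {W : Type} [CommRing W] (h : P W) :
    MultS (fun A _ => Algebra.FiniteType ℤ A ∧ P (ZMod p ⊗[ℤ] A)) W := by
  have hft := hP.ft W h
  refine ⟨hft, fun V _ hV => ⟨ft_ten hV.1 hft, ?_⟩⟩
  obtain ⟨e⟩ := Pool.Agent.Helper9.CQ.Sops.ten_ten_equiv (p := p) V W
  obtain ⟨e'⟩ := Pool.Agent.Helper9.CQ.Thr.zmod_ten W (hP.char W h)
  have h1 : P (Ten (ZMod p) V) := hV.2
  exact hP.iso _ _ e (hP.tensor _ _ h1 (hP.iso _ _ e'.symm h))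

section

variable {k : Type} [Field k]

theorem rep_fibre {F : KFn k} {A : Type} [CommRing A] [Algebra k A] {a : F.obj A}
    (ha : F.Rep A a) (z : Coord F) {K : Type} [Field K] [Algebra k K] [Algebra k[X] K]
    (hk : ∀ c : k, algebraMap k K c = algebraMap k[X] K (C c)) :
    let _ : Algebra k[X] A := (aeval (z.val a) : k[X] →ₐ[k] A).toRingHom.toAlgebra
    ∃ b, ((ext K F).cls (subC (extC K z) (algebraMap k[X] K X))).Rep (K ⊗[k[X]] A) b := by
  intro _
  let B := K ⊗[k[X]] A
  let j : A →ₐ[k[X]] B := Algebra.TensorProduct.includeRight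
  have hjr : ∀ r : k[X], j (algebraMap k[X] A r) = algebraMap K B (algebraMap k[X] K r) := by
    intro r
    rw [j.commutes, IsScalarTower.algebraMap_apply k[X] K B]
  have hAr : ∀ r : k[X], algebraMap k[X] A r = aeval (z.val a) r := fun _ => rfl
  let i : @AlgHom k A B _ _ _ _ (down k K B) :=
    @AlgHom.mk k A B _ _ _ _ (down k K B) (j : A →+* B) (fun c => by
      have h1 := hjr (C c)
      rw [hAr, aeval_C, ← hk] at h1
      exact h1)
  have hi : ∀ x, i x = j x := fun _ => rfl
  have hz : @Coord.val k _ F z B _ (down k K B) (@KFn.map k _ F A B _ _ _ (down k K B) i a) =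
      algebraMap K B (algebraMap k[X] K X) := by
    rw [← @Coord.nat k _ F z A B _ _ _ (down k K B) i a, hi]
    have h1 := hjr X
    rw [hAr, aeval_X] at h1
    exact h1
  refine ⟨⟨@KFn.map k _ F A B _ _ _ (down k K B) i a, sub_eq_zero.2 hz⟩, ?_⟩
  intro R _ _ x
  let _ : Algebra k R := down k K R
  let _ : Algebra k[X] R := ((algebraMap K R).comp (algebraMap k[X] K)).toAlgebra
  have hst : IsScalarTower k[X] K R := IsScalarTower.of_algebraMap_eq fun _ => rfl
  obtain ⟨f, hf, hu⟩ := ha R x.1
  have hx : z.val (F := F) (R := R) x.1 = algebraMap K R (algebraMap k[X] K X) :=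
    sub_eq_zero.1 x.2
  have hfz : f (z.val a) = algebraMap K R (algebraMap k[X] K X) := by
    rw [z.nat, hf]
    exact hx
  have hcomm : ∀ r : k[X], f (algebraMap k[X] A r) = algebraMap K R (algebraMap k[X] K r) := by
    intro r
    rw [hAr]
    have h1 : ((f : A →ₐ[k] R).comp (aeval (z.val a) : k[X] →ₐ[k] A) : k[X] →+* R) =
        (algebraMap K R).comp (algebraMap k[X] K) := by
      apply Polynomial.ringHom_ext
      · intro c
        change f (aeval (z.val a) (C c)) = algebraMap K R (algebraMap k[X] K (C c))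
        rw [aeval_C, f.commutes, ← hk]
        rfl
      · change f (aeval (z.val a) X) = algebraMap K R (algebraMap k[X] K X)
        rw [aeval_X, hfz]
    exact RingHom.congr_fun h1 r
  let f' : A →ₐ[k[X]] R := { (f : A →+* R) with commutes' := hcomm }
  let g : K ⊗[k[X]] A →ₐ[K] R :=
    Algebra.TensorProduct.lift (Algebra.ofId K R) f' (fun _ _ => Commute.all _ _)
  have hg : ∀ x, g (j x) = f x := by
    intro x
    change g ((1 : K) ⊗ₜ[k[X]] x) = f' x
    rw [Algebra.TensorProduct.lift_tmul, map_one, one_mul]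
  refine ⟨g, ?_, ?_⟩
  · apply Subtype.ext
    have h1 := @KFn.comp_map k _ F A B R _ _ _ _ (down k K B) (down k K R) i (dhom k g) a
    refine h1.symm.trans ?_
    rw [← hf]
    congr 1
    exact AlgHom.ext fun x => hg x
  · intro g' hg'
    have h0 := congrArg Subtype.val hg'
    have h1 := @KFn.comp_map k _ F A B R _ _ _ _ (down k K B) (down k K R) i (dhom k g') a
    have h2 := hu _ (h1.trans h0)
    apply Algebra.TensorProduct.ext
    · ext
    · apply AlgHom.coe_ringHom_injective
      refine RingHom.ext fun x => ?_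
      have h3 : g' (j x) = f x := DFunLike.congr_fun h2 x
      exact h3.trans (hg x).symm

/-- **fibrations over the line** -/
theorem mem_fibration [Finite k] [CharP k p] (hp : p.Prime) (hP : FormalClass p P) {F : KFn k}
    [hF : Rp F] (z : Coord F)
    (h : ∀ (K : Type) [Field K] [IsAlgClosed K] [CharP K p] [Algebra k K]
      (G : ∀ (R : Type) [CommRing R] [Algebra K R], Prop), GOps K G → CstP P G → ∀ c : K,
      ((ext K F).cls (subC (extC K z) c)).Mem G) : F.Mem (Pk P k) := by
  have hk : (p : k) = 0 := CharP.cast_eq_zero k p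
  obtain ⟨A, _, _, a, hA, ha⟩ := hF.out
  refine Mem.of_rep (kops hP hk) ha ?_
  change P A
  have hS := Pool.Agent.Helper9.CQ.Sops.sops hp hP
  have hft1 : Algebra.FiniteType ℤ k := by
    have : Module.Finite ℤ k := Module.Finite.of_finite
    infer_instance
  have hft2 : Algebra.FiniteType ℤ k[X] := ft_alg hft1 inferInstance
  have hft3 : Algebra.FiniteType ℤ A := ftZ hA
  let _ : Algebra k[X] A := (aeval (z.val a) : k[X] →ₐ[k] A).toRingHom.toAlgebra
  have hft4 : Algebra.FiniteType k[X] A :=
    Algebra.FiniteType.of_restrictScalars_finiteType ℤ k[X] A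
  have hdim : ∀ q : Ideal k[X], ringKrullDim (k[X] ⧸ q) ≤ 1 := by
    intro q
    refine (ringKrullDim_quotient_le q).trans ?_
    rw [Polynomial.ringKrullDim_of_isNoetherianRing, ringKrullDim_eq_zero_of_field]
    exact le_of_eq (zero_add 1)
  have hmult : MultS (fun A _ => Algebra.FiniteType ℤ A ∧ P (ZMod p ⊗[ℤ] A)) A := by
    refine Pool.Agent.Helper20.BL.fibres_mult hS hft2 hft4 ?_ ?_
    · intro q _ _
      have hcp : CharP (AlgebraicClosure q.ResidueField) p :=
        charP_of_injective_ringHom (((algebraMap k[X]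
          (AlgebraicClosure q.ResidueField)).comp C).injective) p
      let _ : Algebra k (AlgebraicClosure q.ResidueField) :=
        ((algebraMap k[X] (AlgebraicClosure q.ResidueField)).comp C).toAlgebra
      obtain ⟨pt, hpt⟩ := rep_fibre ha z (K := AlgebraicClosure q.ResidueField) (fun _ => rfl)
      have hmem := h (AlgebraicClosure q.ResidueField) _
        (Pool.Agent.Helper9.CQ.Thr.geo_gops hS (AlgebraicClosure q.ResidueField))
        (fun k' _ _ _ W _ _ hW => Pool.Agent.Helper9.CQ.ConstOver.const_over W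
            (multS_of hP hW)) (algebraMap k[X] (AlgebraicClosure q.ResidueField) X)
      exact hmem _ pt (Algebra.FiniteType.baseChange _) hpt
    · intro q _ h
      exact absurd h (not_lt.2 (hdim q))
  obtain ⟨e⟩ := Pool.Agent.Helper9.CQ.Thr.zmod_ten A (char0 hk)
  exact hP.iso _ _ e (MultS.mem hS hmult).2

end

end Pool.Agent.Helper67.TQ
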