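import Pool.Agent.Helper67.TQ.Aff

/-!
# Three equations: intersections
-/

set_option autoImplicit false

namespace Pool.Agent.Helper67.TQ

open Pool.Agent.Helper29.CQ Pool.Agent.Helper65.CC Pool.Agent.Helper87.CC
  Pool.Agent.Helper65.CC.KFn
open Pool.Agent.Helper29.PF (pw Pk kops ftZ char0 StableClass mem_unline strata Ys Wf ry ysZero
  ysSucc linC rp_ys)
open Polynomial

variable {p : ℕ} {P : ∀ (A : Type) [CommRing A], Prop} {k : Type} [Field k]

/-! ### Permutations -/

theorem ind_perm {a b : Fin 3 → ℕ} (h : Ind a b) (σ : Equiv.Perm (Fin 3)) :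
    Ind (a ∘ σ) (b ∘ σ) := by
  have key : ∀ a b : Fin 3 → ℕ, ((a 0 : ℤ) - a 2) * (b 1 - b 2) - (a 1 - a 2) * (b 0 - b 2) =
      (Matrix.of fun i : Fin 3 => ![(a i : ℤ), (b i : ℤ), 1]).det := by
    intro a b
    rw [Matrix.det_fin_three]
    simp only [Matrix.of_apply, Matrix.cons_val_zero, Matrix.cons_val_one, Matrix.cons_val]
    ring
  unfold Ind at h ⊢
  rw [key] at h ⊢
  have h1 : (Matrix.of fun i : Fin 3 => ![((a ∘ σ) i : ℤ), ((b ∘ σ) i : ℤ), 1]) =
      (Matrix.of fun i : Fin 3 => ![(a i : ℤ), (b i : ℤ), 1]).submatrix σ id := by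
    ext i j
    rfl
  rw [h1, Matrix.det_permute]
  exact mul_ne_zero (by
    rcases Int.units_eq_one_or (Equiv.Perm.sign σ) with h | h <;> rw [h] <;> simp) h

theorem TD.perm {F : KFn k} {Q : Fin 3 → Coord F} (h : TD P Q) (σ : Equiv.Perm (Fin 3)) :
    TD P (F := F) fun i => Q (σ i) where
  f := h.f
  c1 i := h.c1 _
  c2 i j hij := h.c2 _ _ fun e => hij (σ.injective e)
  n3 u ε a b h0 hε hab := by
    refine Mem.of_iso ?_ (h.n3 u (ε ∘ σ.symm) (a ∘ σ.symm) (b ∘ σ.symm) h0 (fun l => hε _)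
      (ind_perm hab σ.symm))
    have key : ∀ {R : Type} [CommRing R] [Algebra k R] (x : (PL F u).obj R),
        (eqn (fun i => Q (σ i)) u ε a b).val x =
          (eqn Q u (ε ∘ σ.symm) (a ∘ σ.symm) (b ∘ σ.symm)).val x := by
      intro R _ _ x
      have h1 := Equiv.sum_comp σ fun l => algebraMap k R ((ε ∘ σ.symm) l) *
        x.1.1.2 ^ (a ∘ σ.symm) l * x.1.2 ^ (b ∘ σ.symm) l * (Q l).val x.1.1.1
      refine Eq.trans ?_ h1
      change ∑ l, algebraMap k R (ε l) * x.1.1.2 ^ a l * x.1.2 ^ b l * (Q (σ l)).val x.1.1.1 = _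
      refine Finset.sum_congr rfl fun l _ => ?_
      simp only [Function.comp_apply, Equiv.symm_apply_apply]
    exact
      { hom := fun x => ⟨x.1, (key x.1).symm.trans x.2⟩
        inv := fun y => ⟨y.1, (key y.1).trans y.2⟩
        inv_hom := fun _ => rfl
        hom_inv := fun _ => rfl
        nat := fun _ _ => rfl }

/-! ### The common zeros -/

/-- the common zeros -/
def N3 {F : KFn k} (Q : Fin 3 → Coord F) : KFn k :=
  F.sub (fun x => ∀ l, (Q l).val x = 0) fun f x h l => by rw [← (Q l).nat, h l, map_zero]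

/-- the sequence of the last two coordinates -/
def a12 {F : KFn k} (Q : Fin 3 → Coord F) : ℕ → Coord F := fun m => if m = 0 then Q 1 else Q 2

theorem n3_mem [Finite k] (hP : StableClass p P) (hk : (p : k) = 0) {F : KFn k} [Rp F]
    {Q : Fin 3 → Coord F} (h : TD P Q) : (N3 Q).Mem (Pk P k) := by
  have e0 := ysZero F (a12 Q)
  have hY0 : (Ys F (a12 Q) 0).Mem (Pk P k) := Mem.of_iso e0 h.f
  have hY1 : (Ys F (a12 Q) 1).Mem (Pk P k) := by
    refine Mem.of_iso ?_ (h.c1 1)
    exact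
      { hom := fun x => ⟨x.1, x.2 0 Nat.zero_lt_one⟩
        inv := fun y => ⟨y.1, fun m hm => by
          obtain rfl : m = 0 := by omega
          exact y.2⟩
        inv_hom := fun _ => rfl
        hom_inv := fun _ => rfl
        nat := fun _ _ => rfl }
  have hY2 : (Ys F (a12 Q) 2).Mem (Pk P k) := by
    refine Mem.of_iso ?_ (h.c2 1 2 (by decide))
    exact
      { hom := fun x => ⟨⟨x.1, x.2 0 Nat.zero_lt_two⟩, x.2 1 Nat.one_lt_two⟩
        inv := fun y => ⟨y.1.1, fun m hm => by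
          rcases (by omega : m = 0 ∨ m = 1) with rfl | rfl
          · exact y.1.2
          · exact y.2⟩
        inv_hom := fun _ => rfl
        hom_inv := fun _ => rfl
        nat := fun _ _ => rfl }
  have hW : (Wf (Q 0) (a12 Q) 2 0).Mem (Pk P k) := by
    refine Mem.of_iso ?_ (h.n3 1 (fun _ => 1) ![0, 1, 0] ![0, 0, 1] (Or.inl rfl)
      (fun _ => one_ne_zero) (by unfold Ind; simp))
    have key : ∀ {R : Type} [CommRing R] [Algebra k R] (y : F.obj R) (z r : R) (t : Fin 2 → R),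
        t 0 = z → t 1 = r →
        (Q 0).val y + ∑ i : Fin 2, t i * (a12 Q (0 + i)).val y =
        ∑ l, algebraMap k R 1 * z ^ (![0, 1, 0] : Fin 3 → ℕ) l *
          r ^ (![0, 0, 1] : Fin 3 → ℕ) l * (Q l).val y := by
      intro R _ _ y z r t hz hr
      rw [Fin.sum_univ_two, Fin.sum_univ_three, hz, hr]
      have h1 : a12 Q (0 + ((0 : Fin 2) : ℕ)) = Q 1 := rfl
      have h2 : a12 Q (0 + ((1 : Fin 2) : ℕ)) = Q 2 := rfl
      rw [h1, h2, map_one]
      simp only [Matrix.cons_val_zero, Matrix.cons_val_one, Matrix.cons_val, pow_zero, pow_one]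
      ring
    exact
      { hom := fun {R} _ _ x => ⟨⟨((x.1.1.1, x.1.2 0), x.1.2 1), by
          change IsUnit (ev2 1 (x.1.2 0) (x.1.2 1))
          have h1 : ev2 (1 : k[X][X]) (x.1.2 0) (x.1.2 1) = 1 := eval₂_one _ _
          rw [h1]
          exact isUnit_one⟩, (key x.1.1.1 _ _ x.1.2 rfl rfl).symm.trans x.2⟩
        inv := fun {R} _ _ y => ⟨(⟨y.1.1.1.1, fun _ hm => absurd hm (Nat.not_lt_zero _)⟩,
          ![y.1.1.1.2, y.1.1.2]), (key y.1.1.1.1 _ _ _ rfl rfl).trans y.2⟩
        inv_hom := fun {R} _ _ x => Subtype.ext (Prod.ext rfl (funext fun i => by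
          fin_cases i <;> rfl))
        hom_inv := fun _ => rfl
        nat := fun _ _ => rfl }
  have h1 := strata hP hk (Q 0) (a12 Q) 2 0 (fun r' hr => by
    rcases (by omega : r' = 0 ∨ r' = 1 ∨ r' = 2) with rfl | rfl | rfl
    · exact hY0
    · exact hY1
    · exact hY2) hW
  refine Mem.of_iso ?_ h1
  exact
    { hom := fun x => ⟨⟨x.1, fun m hm => by
        change m < 2 at hm
        rcases (by omega : m = 0 ∨ m = 1) with rfl | rfl
        · exact x.2 1
        · exact x.2 2⟩, x.2 0⟩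
      inv := fun y => ⟨y.1.1, fun l => by
        fin_cases l
        · exact y.2
        · exact y.1.2 0 Nat.zero_lt_two
        · exact y.1.2 1 Nat.one_lt_two⟩
      inv_hom := fun _ => rfl
      hom_inv := fun _ => rfl
      nat := fun _ _ => rfl }

end Pool.Agent.Helper67.TQ
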