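import Pool.Agent.Helper67.TQ.Geo1

/-!
# Three equations: the boundary
-/

set_option autoImplicit false

namespace Pool.Agent.Helper67.TQ

open Pool.Agent.Helper29.CQ Pool.Agent.Helper65.CC Pool.Agent.Helper87.CC
  Pool.Agent.Helper65.CC.KFn
open Pool.Agent.Helper29.PF (pw Pk kops ftZ char0 StableClass mem_unline strata Ys Wf ry ysZero
  ysSucc linC rp_ys)
open Polynomial

variable {p : ℕ} {P : ∀ (A : Type) [CommRing A], Prop} {k : Type} [Field k]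

/-- the product with the punctured line -/
def ML (F : KFn k) : KFn k := F.line.opn F.lineCoord

instance (F : KFn k) [Rp F] : Rp (ML F) := by
  unfold ML
  infer_instance

/-- a coordinate of the base -/
def mlC {F : KFn k} (u : Coord F) : Coord (ML F) := ⟨fun x => u.val x.1.1, fun f x => u.nat f x.1.1⟩

theorem ml_mem {K : Type} [Field K] {G : ∀ (R : Type) [CommRing R] [Algebra K R], Prop}
    (hG : KOps K G) {F : KFn K} [Rp F] (h : F.Mem G) : (ML F).Mem G :=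
  mem_opn hG _ (Mem.line hG h) (Mem.of_iso (zeroSection _) h)

/-- `ε₁ Q₁ + ε₂ ρ ^ l Q₂` -/
def wwC {F : KFn k} (Q : Fin 3 → Coord F) (ε₁ ε₂ : k) (l : ℕ) : Coord (ML F) where
  val {R} _ _ x := algebraMap k R ε₁ * (Q 1).val x.1.1 +
    algebraMap k R ε₂ * x.1.2 ^ l * (Q 2).val x.1.1
  nat f x := by
    rw [map_add, map_mul, map_mul, map_mul, map_pow, f.commutes, f.commutes, (Q 1).nat, (Q 2).nat]
    rfl

/-- `Q₀ = ε₁ Q₁ + ε₂ ρ ^ l Q₂ = 0`, `ρ` invertible -/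
def WW {F : KFn k} (Q : Fin 3 → Coord F) (ε₁ ε₂ : k) (l : ℕ) : KFn k :=
  ((ML F).cls (mlC (Q 0))).cls (resC _ (wwC Q ε₁ ε₂ l))

instance {F : KFn k} [Rp F] (Q : Fin 3 → Coord F) (ε₁ ε₂ : k) (l : ℕ) : Rp (WW Q ε₁ ε₂ l) := by
  unfold WW
  infer_instance

theorem ev2_X {R : Type} [CommRing R] [Algebra k R] (z r : R) : ev2 (X : k[X][X]) z r = r :=
  eval₂_X _ _

theorem ww_mem [Finite k] (hP : StableClass p P) (hk : (p : k) = 0) {F : KFn k} [Rp F]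
    {Q : Fin 3 → Coord F} (h : TD P Q) {ε₁ ε₂ : k} (h1 : ε₁ ≠ 0) (h2 : ε₂ ≠ 0) {l : ℕ}
    (hl : 0 < l) : (WW Q ε₁ ε₂ l).Mem (Pk P k) := by
  have hG := kops hP.toFormalClass hk
  let a : ℕ → Coord (ML F) := fun _ => mlC (Q 0)
  have hY0 : (Ys (ML F) a 0).Mem (Pk P k) := Mem.of_iso (ysZero _ a) (ml_mem hG h.f)
  have hY1 : (Ys (ML F) a 1).Mem (Pk P k) := by
    refine Mem.of_iso ?_ (ml_mem hG (h.c1 0))
    exact
      { hom := fun x => ⟨(⟨x.1.1.1, x.2 0 Nat.zero_lt_one⟩, x.1.1.2), x.1.2⟩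
        inv := fun y => ⟨⟨(y.1.1.1, y.1.2), y.2⟩, fun m hm => y.1.1.2⟩
        inv_hom := fun _ => rfl
        hom_inv := fun _ => rfl
        nat := fun _ _ => rfl }
  have hW : (Wf (wwC Q ε₁ ε₂ l) a 1 0).Mem (Pk P k) := by
    refine Mem.of_iso ?_ (h.n3 X ![1, ε₁, ε₂] ![1, 0, 0] ![0, 0, l] (Or.inr (Or.inl rfl))
      (fun i => by
        fin_cases i
        · exact one_ne_zero
        · exact h1
        · exact h2) (by
        unfold Ind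
        simp only [Matrix.cons_val_zero, Matrix.cons_val_one, Matrix.cons_val]
        push_cast
        intro h
        have : (l : ℤ) = 0 := by linear_combination -h
        omega))
    have key : ∀ {R : Type} [CommRing R] [Algebra k R] (y : F.obj R) (z r : R) (t : Fin 1 → R),
        t 0 = z →
        (algebraMap k R ε₁ * (Q 1).val y + algebraMap k R ε₂ * r ^ l * (Q 2).val y) +
          ∑ i : Fin 1, t i * (Q 0).val y =
        ∑ i, algebraMap k R ((![1, ε₁, ε₂] : Fin 3 → k) i) * z ^ (![1, 0, 0] : Fin 3 → ℕ) i *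
          r ^ (![0, 0, l] : Fin 3 → ℕ) i * (Q i).val y := by
      intro R _ _ y z r t hz
      rw [Fin.sum_univ_one, Fin.sum_univ_three, hz]
      simp only [Matrix.cons_val_zero, Matrix.cons_val_one, Matrix.cons_val, pow_zero, pow_one,
        map_one]
      ring
    exact
      { hom := fun {R} _ _ x => ⟨⟨((x.1.1.1.1.1, x.1.2 0), x.1.1.1.1.2), by
          change IsUnit (ev2 X (x.1.2 0) x.1.1.1.1.2)
          rw [ev2_X]
          exact x.1.1.1.2⟩, (key x.1.1.1.1.1 _ x.1.1.1.1.2 x.1.2 rfl).symm.trans x.2⟩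
        inv := fun {R} _ _ y => ⟨(⟨⟨(y.1.1.1.1, y.1.1.2), by
          have h3 : IsUnit (ev2 X y.1.1.1.2 y.1.1.2) := y.1.2
          rw [ev2_X] at h3
          exact h3⟩, fun _ hm => absurd hm (Nat.not_lt_zero _)⟩,
          fun _ => y.1.1.1.2), (key y.1.1.1.1 _ _ (fun _ => y.1.1.1.2) rfl).trans y.2⟩
        inv_hom := fun {R} _ _ x => Subtype.ext (Prod.ext rfl (funext fun i => by
          rw [Fin.eq_zero i]))
        hom_inv := fun _ => rfl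
        nat := fun _ _ => rfl }
  have h3 := strata hP hk (wwC Q ε₁ ε₂ l) a 1 0 (fun r' hr => by
    rcases (by omega : r' = 0 ∨ r' = 1) with rfl | rfl
    · exact hY0
    · exact hY1) hW
  refine Mem.of_iso ?_ h3
  exact
    { hom := fun x => ⟨⟨x.1.1, fun m hm => x.1.2⟩, x.2⟩
      inv := fun y => ⟨⟨y.1.1, y.1.2 0 Nat.zero_lt_one⟩, y.2⟩
      inv_hom := fun _ => rfl
      hom_inv := fun _ => rfl
      nat := fun _ _ => rfl }

/-! ### The fibration -/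

theorem ev2_hzr {R : Type} [CommRing R] [Algebra k R] (z r : R) : ev2 (hzr k) z r = r * z := by
  unfold hzr
  rw [ev2_mul, ev2_X]
  congr 1
  change eval₂ _ r (C X) = z
  rw [eval₂_C]
  exact aeval_X z

/-- a coordinate of the base -/
noncomputable def plC {F : KFn k} (h : k[X][X]) (u : Coord F) : Coord (PL F h) :=
  ⟨fun x => u.val x.1.1.1, fun f x => u.nat f x.1.1.1⟩

/-- `ε₁ z ^ a₁ r ^ b₁ Q₁ + ε₂ z ^ a₂ r ^ b₂ Q₂` -/
noncomputable def vbC {F : KFn k} (Q : Fin 3 → Coord F) (ε₁ ε₂ : k) (a₁ b₁ a₂ b₂ : ℕ) :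
    Coord (PL F (hzr k)) where
  val {R} _ _ x := algebraMap k R ε₁ * x.1.1.2 ^ a₁ * x.1.2 ^ b₁ * (Q 1).val x.1.1.1 +
    algebraMap k R ε₂ * x.1.1.2 ^ a₂ * x.1.2 ^ b₂ * (Q 2).val x.1.1.1
  nat f x := by
    simp only [map_add, map_mul, map_pow, f.commutes, (Q 1).nat, (Q 2).nat]
    rfl

/-- the boundary -/
noncomputable def VB {F : KFn k} (Q : Fin 3 → Coord F) (ε₁ ε₂ : k) (a₁ b₁ a₂ b₂ : ℕ) : KFn k :=
  ((PL F (hzr k)).cls (plC _ (Q 0))).cls (resC _ (vbC Q ε₁ ε₂ a₁ b₁ a₂ b₂))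

instance rp_vb {F : KFn k} [Rp F] (Q : Fin 3 → Coord F) (ε₁ ε₂ : k) (a₁ b₁ a₂ b₂ : ℕ) :
    Rp (VB Q ε₁ ε₂ a₁ b₁ a₂ b₂) := by
  unfold VB
  infer_instance

/-- the coordinate `z` -/
noncomputable def vbz {F : KFn k} (Q : Fin 3 → Coord F) (ε₁ ε₂ : k) (a₁ b₁ a₂ b₂ : ℕ) :
    Coord (VB Q ε₁ ε₂ a₁ b₁ a₂ b₂) := ⟨fun x => x.1.1.1.1.2, fun _ _ => rfl⟩

section

variable {K : Type} [Field K] [Algebra k K]

/-- scaling -/
theorem vb_scale {R : Type} [CommRing R] [Algebra K R] {c γ : K} (hc : c ≠ 0) (hγ : γ ≠ 0)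
    {a₁ b₁ a₂ l : ℕ} (h : γ ^ l * c ^ a₂ = c ^ a₁) (e₁ e₂ u v ρ : R) (hρ : IsUnit ρ) :
    e₁ * algebraMap K R c ^ a₁ * (algebraMap K R γ * ρ) ^ b₁ * u +
      e₂ * algebraMap K R c ^ a₂ * (algebraMap K R γ * ρ) ^ (b₁ + l) * v = 0 ↔
    e₁ * u + e₂ * ρ ^ l * v = 0 := by
  have h1 : algebraMap K R γ ^ l * algebraMap K R c ^ a₂ = algebraMap K R c ^ a₁ := by
    rw [← map_pow, ← map_pow, ← map_pow, ← map_mul, h]
  have h2 : e₁ * algebraMap K R c ^ a₁ * (algebraMap K R γ * ρ) ^ b₁ * u +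
      e₂ * algebraMap K R c ^ a₂ * (algebraMap K R γ * ρ) ^ (b₁ + l) * v =
      (algebraMap K R c ^ a₁ * (algebraMap K R γ * ρ) ^ b₁) * (e₁ * u + e₂ * ρ ^ l * v) := by
    rw [pow_add, mul_pow (algebraMap K R γ) ρ l, ← h1]
    ring
  rw [h2]
  have h3 : IsUnit (algebraMap K R c ^ a₁ * (algebraMap K R γ * ρ) ^ b₁) :=
    ((unit_const hc).pow _).mul (((unit_const hγ).mul hρ).pow _)
  exact h3.mul_right_eq_zero

/-- the fibre is constant -/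
noncomputable def vbFib {F : KFn k} (Q : Fin 3 → Coord F) (ε₁ ε₂ : k) {a₁ b₁ a₂ l : ℕ} {c γ : K}
    (hc : c ≠ 0) (hγ : γ ≠ 0) (h : γ ^ l * c ^ a₂ = c ^ a₁) :
    Iso ((ext K (VB Q ε₁ ε₂ a₁ b₁ a₂ (b₁ + l))).cls
      (subC (extC K (vbz Q ε₁ ε₂ a₁ b₁ a₂ (b₁ + l))) c)) (ext K (WW Q ε₁ ε₂ l)) where
  hom {R} _ _ x := ⟨⟨⟨(x.1.1.1.1.1.1, algebraMap K R γ⁻¹ * (x.1.1.1.1.2 : R)), by
    have h1 : IsUnit (@ev2 k _ (hzr k) R _ (down k K R) x.1.1.1.1.1.2 x.1.1.1.1.2) := x.1.1.1.2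
    rw [@ev2_hzr k _ R _ (down k K R)] at h1
    exact (unit_const (inv_ne_zero hγ)).mul (isUnit_of_mul_isUnit_left h1)⟩, x.1.1.2⟩, by
    let _ : Algebra k R := down k K R
    have h1 : IsUnit (ev2 (hzr k) (x.1.1.1.1.1.2 : R) x.1.1.1.1.2) := x.1.1.1.2
    rw [ev2_hzr] at h1
    have h2 := (unit_const (R := R) (inv_ne_zero hγ)).mul (isUnit_of_mul_isUnit_left h1)
    have hz : (x.1.1.1.1.1.2 : R) = algebraMap K R c := sub_eq_zero.1 x.2
    have hr : algebraMap K R γ * (algebraMap K R γ⁻¹ * (x.1.1.1.1.2 : R)) = x.1.1.1.1.2 := by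
      rw [← mul_assoc, ← map_mul, mul_inv_cancel₀ hγ, map_one, one_mul]
    have h3 : algebraMap k R ε₁ * (x.1.1.1.1.1.2 : R) ^ a₁ * x.1.1.1.1.2 ^ b₁ *
        (Q 1).val (F := F) (R := R) x.1.1.1.1.1.1 +
      algebraMap k R ε₂ * (x.1.1.1.1.1.2 : R) ^ a₂ * x.1.1.1.1.2 ^ (b₁ + l) *
        (Q 2).val (F := F) (R := R) x.1.1.1.1.1.1 = 0 := x.1.2
    rw [hz, ← hr] at h3
    exact (vb_scale hc hγ h _ _ _ _ _ h2).1 h3⟩
  inv {R} _ _ y := ⟨⟨⟨⟨((y.1.1.1.1, algebraMap K R c), algebraMap K R γ * (y.1.1.1.2 : R)), by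
    change IsUnit (@ev2 k _ (hzr k) R _ (down k K R) (algebraMap K R c)
      (algebraMap K R γ * (y.1.1.1.2 : R)))
    rw [@ev2_hzr k _ R _ (down k K R)]
    exact ((unit_const hγ).mul y.1.1.2).mul (unit_const hc)⟩, y.1.2⟩, by
    let _ : Algebra k R := down k K R
    have h3 : algebraMap k R ε₁ * (Q 1).val (F := F) (R := R) y.1.1.1.1 +
      algebraMap k R ε₂ * (y.1.1.1.2 : R) ^ l * (Q 2).val (F := F) (R := R) y.1.1.1.1 = 0 := y.2
    exact (vb_scale hc hγ h _ _ _ _ _ y.1.1.2).2 h3⟩, sub_self _⟩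
  inv_hom {R} _ _ x := by
    have hz : (x.1.1.1.1.1.2 : R) = algebraMap K R c := sub_eq_zero.1 x.2
    have hr : algebraMap K R γ * (algebraMap K R γ⁻¹ * (x.1.1.1.1.2 : R)) = x.1.1.1.1.2 := by
      rw [← mul_assoc, ← map_mul, mul_inv_cancel₀ hγ, map_one, one_mul]
    exact Subtype.ext (Subtype.ext (Subtype.ext (Subtype.ext (Prod.ext (Prod.ext rfl hz.symm) hr))))
  hom_inv {R} _ _ y := by
    have hr : algebraMap K R γ⁻¹ * (algebraMap K R γ * (y.1.1.1.2 : R)) = y.1.1.1.2 := by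
      rw [← mul_assoc, ← map_mul, inv_mul_cancel₀ hγ, map_one, one_mul]
    exact Subtype.ext (Subtype.ext (Subtype.ext (Prod.ext rfl hr)))
  nat {R S} _ _ _ _ f x := by
    refine Subtype.ext (Subtype.ext (Subtype.ext (Prod.ext rfl ?_)))
    change f (algebraMap K R γ⁻¹ * (x.1.1.1.1.2 : R)) = algebraMap K S γ⁻¹ * f (x.1.1.1.1.2 : R)
    rw [map_mul, f.commutes]

end

theorem vb_mem [Finite k] [CharP k p] (hp : p.Prime) (hP : StableClass p P) {F : KFn k} [Rp F]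
    {Q : Fin 3 → Coord F} (h : TD P Q) {ε₁ ε₂ : k} (h1 : ε₁ ≠ 0) (h2 : ε₂ ≠ 0)
    {a₁ b₁ a₂ b₂ : ℕ} (hb : b₁ < b₂) : (VB Q ε₁ ε₂ a₁ b₁ a₂ b₂).Mem (Pk P k) := by
  obtain ⟨l, rfl⟩ := Nat.exists_eq_add_of_lt hb
  have hrp := rp_vb Q ε₁ ε₂ a₁ b₁ a₂ (b₁ + l + 1)
  have hww := ww_mem hP (CharP.cast_eq_zero k p) h h1 h2 (Nat.succ_pos l)
  refine mem_fibration hp hP.toFormalClass (vbz Q ε₁ ε₂ a₁ b₁ a₂ (b₁ + l + 1))
    fun K _ _ _ _ G hG hW c => ?_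
  by_cases hc : c = 0
  · subst hc
    refine Mem.of_trivial hG.toKOps fun R _ _ x => ?_
    have hz : (x.1.1.1.1.1.2 : R) = 0 := (sub_eq_zero.1 x.2).trans (map_zero _)
    have h3 : IsUnit (@ev2 k _ (hzr k) R _ (down k K R) x.1.1.1.1.1.2 x.1.1.1.1.2) := x.1.1.1.2
    rw [@ev2_hzr k _ R _ (down k K R), hz, mul_zero] at h3
    exact subsingleton_of_zero_eq_one (isUnit_zero_iff.1 h3)
  · obtain ⟨γ, hγ⟩ := IsAlgClosed.exists_pow_nat_eq (c ^ a₁ * (c ^ a₂)⁻¹) (Nat.succ_pos l)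
    have hc2 : c ^ a₂ ≠ 0 := pow_ne_zero _ hc
    have hγ0 : γ ≠ 0 := by
      rintro rfl
      rw [zero_pow (Nat.succ_ne_zero l)] at hγ
      exact mul_ne_zero (pow_ne_zero _ hc) (inv_ne_zero hc2) hγ.symm
    have hγ' : γ ^ (l + 1) * c ^ a₂ = c ^ a₁ := by
      rw [hγ, mul_assoc, inv_mul_cancel₀ hc2, mul_one]
    exact Mem.of_iso (vbFib Q ε₁ ε₂ hc hγ0 hγ') (CstP.mem hG.toKOps hW hww)

end Pool.Agent.Helper67.TQ
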