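import Pool.Agent.Helper67.TQ.Geo2

/-!
# Three equations: the open part
-/

set_option autoImplicit false

namespace Pool.Agent.Helper67.TQ

open Pool.Agent.Helper29.CQ Pool.Agent.Helper65.CC Pool.Agent.Helper87.CC
  Pool.Agent.Helper65.CC.KFn
open Pool.Agent.Helper29.PF (Pk kops ftZ char0 StableClass)
open Polynomial

variable {p : ℕ} {P : ∀ (A : Type) [CommRing A], Prop} {k : Type} [Field k]

/-- open and closed subfunctors commute -/
def opnCls {F : KFn k} (u v : Coord F) :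
    Iso ((F.opn u).cls (resO u v)) ((F.cls v).opn (resC v u)) where
  hom x := ⟨⟨x.1.1, x.2⟩, x.1.2⟩
  inv y := ⟨⟨y.1.1, y.2⟩, y.1.2⟩
  inv_hom _ := rfl
  hom_inv _ := rfl
  nat _ _ := rfl

section

variable {F : KFn k} (Q : Fin 3 → Coord F) (ε : Fin 3 → k) (a b : Fin 3 → ℕ)

/-- the total space -/
noncomputable abbrev VV : KFn k := NN Q (hzr k) ε a b

/-- the coordinates -/
noncomputable def vq (i : Fin 3) : Coord (VV Q ε a b) :=
  ⟨fun x => (Q i).val x.1.1.1.1, fun f x => (Q i).nat f x.1.1.1.1⟩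

/-- the terms of the equation -/
def vt {R : Type} [CommRing R] [Algebra k R] (z r : R) (y : F.obj R) (l : Fin 3) : R :=
  algebraMap k R (ε l) * z ^ a l * r ^ b l * (Q l).val y

theorem vt_sum (σ : Equiv.Perm (Fin 3)) {R : Type} [CommRing R] [Algebra k R] (z r : R)
    (y : F.obj R) : ∑ l, vt Q ε a b z r y l =
      vt Q ε a b z r y (σ 0) + (vt Q ε a b z r y (σ 1) + vt Q ε a b z r y (σ 2)) := by
  rw [← Equiv.sum_comp σ, Fin.sum_univ_three]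
  exact add_assoc _ _ _

/-- the units -/
theorem vv_unit {R : Type} [CommRing R] [Algebra k R] (x : (VV Q ε a b).obj R) :
    IsUnit x.1.1.1.2 ∧ IsUnit x.1.1.2 := by
  have h1 : IsUnit (ev2 (hzr k) x.1.1.1.2 x.1.1.2) := x.1.2
  rw [ev2_hzr] at h1
  exact ⟨isUnit_of_mul_isUnit_right h1, isUnit_of_mul_isUnit_left h1⟩

theorem vv_eq {R : Type} [CommRing R] [Algebra k R] (x : (VV Q ε a b).obj R) :
    ∑ l, vt Q ε a b x.1.1.1.2 x.1.1.2 x.1.1.1.1 l = 0 := x.2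

/-- the coefficient of a term is a unit -/
theorem vt_zero {ε : Fin 3 → k} (hε : ∀ l, ε l ≠ 0) {R : Type} [CommRing R] [Algebra k R] {z r : R}
    (hz : IsUnit z) (hr : IsUnit r) (y : F.obj R) (l : Fin 3) (h : vt Q ε a b z r y l = 0) :
    (Q l).val y = 0 :=
  (((unit_const (hε l)).mul (hz.pow _)).mul (hr.pow _)).mul_right_eq_zero.1 h

/-- the closed parts -/
noncomputable def vvCls (σ : Equiv.Perm (Fin 3)) : Iso ((VV Q ε a b).cls (vq Q ε a b (σ 0)))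
    (VB (F := F) (fun i => Q (σ i)) (ε (σ 1)) (ε (σ 2)) (a (σ 1)) (b (σ 1)) (a (σ 2))
      (b (σ 2))) where
  hom {R} _ _ x := ⟨⟨x.1.1, x.2⟩, by
    have h1 := vv_eq Q ε a b x.1
    have h2 : (Q (σ 0)).val x.1.1.1.1.1 = 0 := x.2
    rw [vt_sum Q ε a b σ] at h1
    have h3 : vt Q ε a b x.1.1.1.1.2 x.1.1.1.2 x.1.1.1.1.1 (σ 0) = 0 := by
      unfold vt
      rw [h2, mul_zero]
    rw [h3, zero_add] at h1
    exact h1⟩
  inv {R} _ _ y := ⟨⟨y.1.1, by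
    have h1 : vt Q ε a b y.1.1.1.1.2 y.1.1.1.2 y.1.1.1.1.1 (σ 1) +
      vt Q ε a b y.1.1.1.1.2 y.1.1.1.2 y.1.1.1.1.1 (σ 2) = 0 := y.2
    have h2 : (Q (σ 0)).val y.1.1.1.1.1 = 0 := y.1.2
    have h3 : vt Q ε a b y.1.1.1.1.2 y.1.1.1.2 y.1.1.1.1.1 (σ 0) = 0 := by
      unfold vt
      rw [h2, mul_zero]
    have h4 := vt_sum Q ε a b σ y.1.1.1.1.2 y.1.1.1.2 y.1.1.1.1.1
    rw [h3, h1, add_zero] at h4
    exact h4⟩, y.1.2⟩
  inv_hom _ := rfl
  hom_inv _ := rfl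
  nat _ _ := rfl

/-- the intersections -/
noncomputable def vvCC {ε : Fin 3 → k} (hε : ∀ l, ε l ≠ 0) (σ : Equiv.Perm (Fin 3)) :
    Iso (((VV Q ε a b).cls (vq Q ε a b (σ 0))).cls (resC _ (vq Q ε a b (σ 1))))
      (ML (ML (N3 Q))) where
  hom {R} _ _ x := ⟨(⟨(⟨x.1.1.1.1.1.1, fun l => by
      have h1 := vv_eq Q ε a b x.1.1
      have h2 : (Q (σ 0)).val x.1.1.1.1.1.1 = 0 := x.1.2
      have h3 : (Q (σ 1)).val x.1.1.1.1.1.1 = 0 := x.2
      rw [vt_sum Q ε a b σ] at h1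
      have h4 : vt Q ε a b x.1.1.1.1.1.2 x.1.1.1.1.2 x.1.1.1.1.1.1 (σ 0) = 0 := by
        unfold vt
        rw [h2, mul_zero]
      have h5 : vt Q ε a b x.1.1.1.1.1.2 x.1.1.1.1.2 x.1.1.1.1.1.1 (σ 1) = 0 := by
        unfold vt
        rw [h3, mul_zero]
      rw [h4, h5, zero_add, zero_add] at h1
      have h6 := vt_zero Q a b hε (vv_unit Q ε a b x.1.1).1 (vv_unit Q ε a b x.1.1).2 _ _ h1
      obtain ⟨i, rfl⟩ := σ.surjective l
      fin_cases i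
      · exact h2
      · exact h3
      · exact h6⟩, x.1.1.1.1.1.2), (vv_unit Q ε a b x.1.1).1⟩, x.1.1.1.1.2),
      (vv_unit Q ε a b x.1.1).2⟩
  inv {R} _ _ y := ⟨⟨⟨⟨((y.1.1.1.1.1, y.1.1.1.2), y.1.2), by
      change IsUnit (ev2 (hzr k) y.1.1.1.2 y.1.2)
      rw [ev2_hzr]
      exact IsUnit.mul y.2 y.1.1.2⟩, by
      change ∑ l, vt Q ε a b y.1.1.1.2 y.1.2 y.1.1.1.1.1 l = 0
      refine Finset.sum_eq_zero fun l _ => ?_
      unfold vt
      rw [y.1.1.1.1.2 l, mul_zero]⟩, y.1.1.1.1.2 _⟩, y.1.1.1.1.2 _⟩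
  inv_hom _ := rfl
  hom_inv _ := rfl
  nat _ _ := rfl

/-- all coordinates are invertible -/
noncomputable abbrev VO : KFn k :=
  ((((VV Q ε a b).opn (vq Q ε a b 0)).opn (resO _ (vq Q ε a b 1))).opn
    (resO _ (resO _ (vq Q ε a b 2))))

end

/-- a cyclic permutation -/
def sg : Equiv.Perm (Fin 3) := Equiv.swap 0 1 * Equiv.swap 0 2

/-- **the open part** -/
theorem vo_mem [Finite k] [CharP k p] (hp : p.Prime) (hP : StableClass p P) {F : KFn k} [Rp F]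
    {Q : Fin 3 → Coord F} (h : TD P Q) {ε : Fin 3 → k} (hε : ∀ l, ε l ≠ 0) {a b : Fin 3 → ℕ}
    (hab : Ind a b) (h01 : b 0 < b 1) (h12 : b 1 < b 2) : (VO Q ε a b).Mem (Pk P k) := by
  have hk : (p : k) = 0 := CharP.cast_eq_zero k p
  have hG := kops hP.toFormalClass hk
  have hrN : Rp (N3 Q) := by
    refine Rp.iso (F := ((F.cls (Q 0)).cls (resC _ (Q 1))).cls (resC _ (resC _ (Q 2)))) ?_
    exact
      { hom := fun x => ⟨x.1.1.1, fun l => by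
          fin_cases l
          · exact x.1.1.2
          · exact x.1.2
          · exact x.2⟩
        inv := fun y => ⟨⟨⟨y.1, y.2 0⟩, y.2 1⟩, y.2 2⟩
        inv_hom := fun _ => rfl
        hom_inv := fun _ => rfl
        nat := fun _ _ => rfl }
  have hV : (VV Q ε a b).Mem (Pk P k) := h.n3 _ ε a b (Or.inr (Or.inr rfl)) hε hab
  have hN : (ML (ML (N3 Q))).Mem (Pk P k) := ml_mem hG (ml_mem hG (n3_mem hP hk h))
  have hcls : ∀ σ : Equiv.Perm (Fin 3), b (σ 1) < b (σ 2) →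
      ((VV Q ε a b).cls (vq Q ε a b (σ 0))).Mem (Pk P k) := fun σ hσ =>
    Mem.of_iso (vvCls Q ε a b σ) (vb_mem hp hP (h.perm σ) (hε _) (hε _) hσ)
  have hcc : ∀ σ : Equiv.Perm (Fin 3),
      (((VV Q ε a b).cls (vq Q ε a b (σ 0))).cls (resC _ (vq Q ε a b (σ 1)))).Mem (Pk P k) :=
    fun σ => Mem.of_iso (vvCC Q a b hε σ) hN
  have c0 : ((VV Q ε a b).cls (vq Q ε a b 0)).Mem (Pk P k) := hcls 1 h12
  have c1 : ((VV Q ε a b).cls (vq Q ε a b 1)).Mem (Pk P k) := by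
    have h1 := hcls (Equiv.swap 0 1)
    have e0 : Equiv.swap (0 : Fin 3) 1 0 = 1 := rfl
    have e1 : Equiv.swap (0 : Fin 3) 1 1 = 0 := rfl
    have e2 : Equiv.swap (0 : Fin 3) 1 2 = 2 := rfl
    rw [e0, e1, e2] at h1
    exact h1 (h01.trans h12)
  have c2 : ((VV Q ε a b).cls (vq Q ε a b 2)).Mem (Pk P k) := by
    have h1 := hcls sg
    have e0 : sg 0 = 2 := by decide
    have e1 : sg 1 = 0 := by decide
    have e2 : sg 2 = 1 := by decide
    rw [e0, e1, e2] at h1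
    exact h1 h01
  have c10 : (((VV Q ε a b).cls (vq Q ε a b 1)).cls (resC _ (vq Q ε a b 0))).Mem (Pk P k) := by
    have h1 := hcc (Equiv.swap 0 1)
    have e0 : Equiv.swap (0 : Fin 3) 1 0 = 1 := rfl
    have e1 : Equiv.swap (0 : Fin 3) 1 1 = 0 := rfl
    rw [e0, e1] at h1
    exact h1
  have c20 : (((VV Q ε a b).cls (vq Q ε a b 2)).cls (resC _ (vq Q ε a b 0))).Mem (Pk P k) := by
    have h1 := hcc sg
    have e0 : sg 0 = 2 := by decide
    have e1 : sg 1 = 0 := by decide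
    rw [e0, e1] at h1
    exact h1
  have o0 := mem_opn hG (vq Q ε a b 0) hV c0
  have o01 := mem_opn hG (resO _ (vq Q ε a b 1)) o0
    (Mem.of_iso (opnCls (vq Q ε a b 0) (vq Q ε a b 1)) (mem_opn hG _ c1 c10))
  refine mem_opn hG _ o01 (Mem.of_iso
    (F' := (((VV Q ε a b).cls (vq Q ε a b 2)).opn (resC _ (vq Q ε a b 0))).opn
      (resO _ (resC _ (vq Q ε a b 1)))) ?_
    (mem_opn hG _ (mem_opn hG _ c2 c20) (Mem.of_trivial hG fun R _ _ x => ?_)))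
  · exact
      { hom := fun x => ⟨⟨⟨x.1.1.1, x.2⟩, x.1.1.2⟩, x.1.2⟩
        inv := fun y => ⟨⟨⟨y.1.1.1, y.1.2⟩, y.2⟩, y.1.1.2⟩
        inv_hom := fun _ => rfl
        hom_inv := fun _ => rfl
        nat := fun _ _ => rfl }
  · have h1 := vv_eq Q ε a b x.1.1.1
    have h2 : (Q 2).val x.1.1.1.1.1.1.1 = 0 := x.1.1.2
    have h3 : (Q 1).val x.1.1.1.1.1.1.1 = 0 := x.2
    have h0 : IsUnit ((Q 0).val x.1.1.1.1.1.1.1) := x.1.2
    have h4 : vt Q ε a b x.1.1.1.1.1.1.2 x.1.1.1.1.1.2 x.1.1.1.1.1.1.1 2 = 0 := by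
      unfold vt
      rw [h2, mul_zero]
    have h5 : vt Q ε a b x.1.1.1.1.1.1.2 x.1.1.1.1.1.2 x.1.1.1.1.1.1.1 1 = 0 := by
      unfold vt
      rw [h3, mul_zero]
    rw [Fin.sum_univ_three, h4, h5, add_zero, add_zero] at h1
    have h6 := vt_zero Q a b hε (vv_unit Q ε a b x.1.1.1).1 (vv_unit Q ε a b x.1.1.1).2 _ _ h1
    rw [h6] at h0
    exact subsingleton_of_zero_eq_one (isUnit_zero_iff.1 h0)

end Pool.Agent.Helper67.TQ
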