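import Pool.Agent.Helper67.TQ.Geo3
import Pool.Agent.Helper9.TP.Tri

/-!
# Three equations: the twisted cover
-/

set_option autoImplicit false

namespace Pool.Agent.Helper67.TQ

open Pool.Agent.Helper29.CQ Pool.Agent.Helper65.CC Pool.Agent.Helper87.CC
  Pool.Agent.Helper65.CC.KFn
open Pool.Agent.Helper29.PF (Pk kops ftZ char0 StableClass)
open Polynomial

variable {p : ℕ} {P : ∀ (A : Type) [CommRing A], Prop} {k : Type} [Field k]

/-! ### Arithmetic -/

section arith

variable {R : Type} [CommRing R] {i j α β n : ℕ}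

theorem grp_root {Γ : Type} [CommGroup Γ] (h : α * i = β * j + 1) {A B : Γ}
    (hAB : A ^ i = B ^ j) : (B ^ α * (A ^ β)⁻¹) ^ j = A ∧ (B ^ α * (A ^ β)⁻¹) ^ i = B := by
  constructor
  · rw [mul_pow, ← pow_mul, mul_comm α j, pow_mul, ← hAB, ← pow_mul, mul_comm i α, h, pow_succ,
      inv_pow, ← pow_mul]
    rw [mul_right_comm, mul_inv_cancel, one_mul]
  · rw [mul_pow, ← pow_mul, h, inv_pow, ← pow_mul, mul_comm β i, pow_mul A, hAB, ← pow_mul,
      mul_comm j β, pow_succ, mul_right_comm, mul_inv_cancel, one_mul]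

theorem root_ex (h : α * i = β * j + 1) {q₀ q₁ q₂ z v v' : R} (h0 : IsUnit q₀) (h1 : IsUnit q₁)
    (h2 : IsUnit q₂) (hz : IsUnit z) (hv : IsUnit v) (hv' : IsUnit v')
    (he : q₀ ^ i * q₂ ^ j * z ^ n = q₁ ^ (i + j) * (v ^ i * v' ^ j)) :
    ∃ r : R, IsUnit r ∧ r ^ j * (v * q₁) = q₀ * z ^ (n * α) ∧ r ^ i * q₂ = v' * q₁ * z ^ (n * β) := by
  obtain ⟨q₀, rfl⟩ := h0
  obtain ⟨q₁, rfl⟩ := h1
  obtain ⟨q₂, rfl⟩ := h2
  obtain ⟨z, rfl⟩ := hz
  obtain ⟨v, rfl⟩ := hv
  obtain ⟨v', rfl⟩ := hv'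
  have he' : q₀ ^ i * q₂ ^ j * z ^ n = q₁ ^ (i + j) * (v ^ i * v' ^ j) := by
    apply Units.ext
    push_cast
    exact he
  obtain ⟨A, hA⟩ : ∃ A, A = q₀ * z ^ (n * α) * (v * q₁)⁻¹ := ⟨_, rfl⟩
  obtain ⟨B, hB⟩ : ∃ B, B = v' * q₁ * z ^ (n * β) * q₂⁻¹ := ⟨_, rfl⟩
  have hA' : A * (v * q₁) = q₀ * z ^ (n * α) := by rw [hA, inv_mul_cancel_right]
  have hB' : B * q₂ = v' * q₁ * z ^ (n * β) := by rw [hB, inv_mul_cancel_right]
  have hAB : A ^ i = B ^ j := by
    have e1 : A ^ i * (v * q₁) ^ i = (q₀ * z ^ (n * α)) ^ i := by rw [← mul_pow, hA']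
    have e2 : B ^ j * q₂ ^ j = (v' * q₁ * z ^ (n * β)) ^ j := by rw [← mul_pow, hB']
    have e3 : z ^ (n * α * i) = z ^ (n * β * j) * z ^ n := by
      rw [← pow_add]
      congr 1
      rw [mul_assoc, h]
      ring
    have e4 : A ^ i * ((v * q₁) ^ i * q₂ ^ j * z ^ (n * β * j)) =
        B ^ j * ((v * q₁) ^ i * q₂ ^ j * z ^ (n * β * j)) := by
      calc A ^ i * ((v * q₁) ^ i * q₂ ^ j * z ^ (n * β * j))
          = (A ^ i * (v * q₁) ^ i) * (q₂ ^ j * z ^ (n * β * j)) := by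
            rw [mul_assoc ((v * q₁) ^ i), mul_assoc (A ^ i)]
        _ = (q₀ ^ i * q₂ ^ j * z ^ n) * (z ^ (n * β * j) * z ^ (n * β * j)) := by
            rw [e1, mul_pow, ← pow_mul, e3]
            ext
            push_cast
            ring
        _ = B ^ j * ((v * q₁) ^ i * q₂ ^ j * z ^ (n * β * j)) := by
            rw [he', pow_add, mul_pow v]
            have e5 : B ^ j * (v ^ i * q₁ ^ i * q₂ ^ j * z ^ (n * β * j)) =
                (B ^ j * q₂ ^ j) * (v ^ i * q₁ ^ i * z ^ (n * β * j)) := by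
              ext
              push_cast
              ring
            rw [e5, e2, mul_pow, mul_pow, ← pow_mul]
            ext
            push_cast
            ring
    exact mul_right_cancel e4
  obtain ⟨g1, g2⟩ := grp_root h hAB
  refine ⟨((B ^ α * (A ^ β)⁻¹ : Rˣ) : R), Units.isUnit _, ?_, ?_⟩
  · have := congrArg (Units.val) hA'
    rw [← g1] at this
    push_cast at this ⊢
    exact this
  · have := congrArg (Units.val) hB'
    rw [← g2] at this
    push_cast at this ⊢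
    exact this

theorem root_uniq (h : α * i = β * j + 1) {r r' : R} (hr' : IsUnit r')
    (h1 : r ^ j = r' ^ j) (h2 : r ^ i = r' ^ i) : r = r' := by
  have e1 : r ^ (β * j) * r = r ^ (β * j) * r' := by
    have e2 : r ^ (β * j) = r' ^ (β * j) := by
      rw [mul_comm, pow_mul, h1, ← pow_mul]
    rw [← pow_succ, ← h, e2, ← pow_succ, ← h, mul_comm α i, pow_mul, h2, ← pow_mul]
  have e2 : IsUnit (r ^ (β * j)) := by
    rw [mul_comm, pow_mul, h1, ← pow_mul]
    exact hr'.pow _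
  exact e2.mul_left_cancel e1

theorem root_eq {q₀ q₁ q₂ z v r : R} (e1 : r ^ j * (v * q₁) = q₀ * z ^ (n * α))
    (e2 : r ^ i * q₂ = (1 - v) * q₁ * z ^ (n * β)) :
    z ^ (n * (α + β)) * q₀ - z ^ (n * β) * r ^ j * q₁ + r ^ (i + j) * q₂ = 0 := by
  rw [mul_add, pow_add, pow_add]
  linear_combination (-z ^ (n * β)) * e1 + r ^ j * e2

theorem root_eq2 {q₀ q₁ q₂ z v r : R} (hr : IsUnit r)
    (e : z ^ (n * (α + β)) * q₀ - z ^ (n * β) * r ^ j * q₁ + r ^ (i + j) * q₂ = 0)
    (e1 : r ^ j * (v * q₁) = q₀ * z ^ (n * α)) :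
    r ^ i * q₂ = (1 - v) * q₁ * z ^ (n * β) := by
  apply (hr.pow j).mul_left_cancel
  rw [mul_add, pow_add, pow_add] at e
  linear_combination e + (z ^ (n * β)) * e1

theorem root_eq3 (h : α * i = β * j + 1) {q₀ q₁ q₂ z v v' r : R} (hr : IsUnit r) (hz : IsUnit z)
    (e1 : r ^ j * (v * q₁) = q₀ * z ^ (n * α)) (e2 : r ^ i * q₂ = v' * q₁ * z ^ (n * β)) :
    q₀ ^ i * q₂ ^ j * z ^ n = q₁ ^ (i + j) * (v ^ i * v' ^ j) := by
  have e3 : z ^ (n * α * i) = z ^ (n * β * j) * z ^ n := by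
    rw [← pow_add]
    congr 1
    rw [mul_assoc, h]
    ring
  have f1 : r ^ (i * j) * (v ^ i * q₁ ^ i) = q₀ ^ i * z ^ (n * α * i) := by
    have := congrArg (· ^ i) e1
    simp only [mul_pow, ← pow_mul] at this
    rw [mul_comm i j]
    exact this
  have f2 : r ^ (i * j) * q₂ ^ j = v' ^ j * q₁ ^ j * z ^ (n * β * j) := by
    have := congrArg (· ^ j) e2
    simp only [mul_pow, ← pow_mul] at this
    exact this
  apply ((hr.pow (i * j)).mul (hz.pow (n * β * j))).mul_left_cancel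
  rw [pow_add]
  rw [e3] at f1
  linear_combination (-(v' ^ j * q₁ ^ j * z ^ (n * β * j))) * f1 +
    (q₀ ^ i * (z ^ (n * β * j) * z ^ n)) * f2

end arith

/-! ### The functors -/

section

variable {F : KFn k} (Q : Fin 3 → Coord F)

/-- the product of the coordinates -/
def prC : Coord F := ⟨fun x => (Q 0).val x * (Q 1).val x * (Q 2).val x, fun f x => by
  rw [map_mul, map_mul, (Q 0).nat, (Q 1).nat, (Q 2).nat]⟩

/-- all coordinates are invertible -/
def X3 : KFn k := F.opn (prC Q)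

instance [Rp F] : Rp (X3 Q) := by
  unfold X3
  infer_instance

variable {Q}

theorem x3_unit {R : Type} [CommRing R] [Algebra k R] (y : (X3 Q).obj R) (l : Fin 3) :
    IsUnit ((Q l).val y.1) := by
  have h1 : IsUnit ((Q 0).val y.1 * (Q 1).val y.1 * (Q 2).val y.1) := y.2
  fin_cases l
  · exact isUnit_of_mul_isUnit_left (isUnit_of_mul_isUnit_left h1)
  · exact isUnit_of_mul_isUnit_right (isUnit_of_mul_isUnit_left h1)
  · exact isUnit_of_mul_isUnit_right h1

variable (Q)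

/-- the function `Q₀ ^ i Q₂ ^ j / Q₁ ^ (i + j)` -/
noncomputable def uC (i j : ℕ) : Coord (X3 Q) where
  val x := (Q 0).val x.1 ^ i * (Q 2).val x.1 ^ j * Ring.inverse ((Q 1).val x.1 ^ (i + j))
  nat f x := by
    rw [map_mul, map_mul, map_pow, map_pow, (Q 0).nat, (Q 2).nat,
      inv_nat f ((x3_unit x 1).pow _), map_pow, (Q 1).nat]
    rfl

theorem uC_mul (i j : ℕ) {R : Type} [CommRing R] [Algebra k R] (x : (X3 Q).obj R) :
    (uC Q i j).val x * (Q 1).val x.1 ^ (i + j) = (Q 0).val x.1 ^ i * (Q 2).val x.1 ^ j := by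
  change (Q 0).val x.1 ^ i * (Q 2).val x.1 ^ j * Ring.inverse ((Q 1).val x.1 ^ (i + j)) *
    (Q 1).val x.1 ^ (i + j) = _
  rw [mul_assoc, Ring.inverse_mul_cancel _ ((x3_unit x 1).pow _), mul_one]

theorem uC_unit (i j : ℕ) {R : Type} [CommRing R] [Algebra k R] (x : (X3 Q).obj R) :
    IsUnit ((uC Q i j).val x) := by
  have h1 : IsUnit ((uC Q i j).val x * (Q 1).val x.1 ^ (i + j)) := by
    rw [uC_mul]
    exact ((x3_unit x 0).pow _).mul ((x3_unit x 2).pow _)
  exact isUnit_of_mul_isUnit_left h1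

end

/-- `u z ^ n = v ^ s (1 - v) ^ t` -/
def TT (F : KFn k) (u : Coord F) (n s t : ℕ) : KFn k :=
  F.line.line.cls ⟨fun x => u.val x.1.1 * x.1.2 ^ n - x.2 ^ s * (1 - x.2) ^ t, fun f x => by
    simp only [map_sub, map_mul, map_pow, map_one, u.nat]
    rfl⟩

instance (F : KFn k) [Rp F] (u : Coord F) (n s t : ℕ) : Rp (TT F u n s t) := by
  unfold TT
  infer_instance

/-- the coordinate `z` -/
def tz (F : KFn k) (u : Coord F) (n s t : ℕ) : Coord (TT F u n s t) :=
  ⟨fun x => x.1.1.2, fun _ _ => rfl⟩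

/-- the coordinate `v` -/
def tv (F : KFn k) (u : Coord F) (n s t : ℕ) : Coord (TT F u n s t) :=
  ⟨fun x => x.1.2, fun _ _ => rfl⟩

/-- the coordinate `1 - v` -/
def tw (F : KFn k) (u : Coord F) (n s t : ℕ) : Coord (TT F u n s t) :=
  ⟨fun x => 1 - x.1.2, fun f x => by
    rw [map_sub, map_one]
    rfl⟩

/-- the part `z = 0` -/
theorem tt_zero {K : Type} [Field K] {G : ∀ (R : Type) [CommRing R] [Algebra K R], Prop}
    (hG : KOps K G) {F : KFn K} (hF : F.Mem G) (u : Coord F) {n s t : ℕ} (hn : n ≠ 0)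
    (hs : s ≠ 0) (ht : t ≠ 0) : ((TT F u n s t).cls (tz F u n s t)).Mem G := by
  have key : ∀ {R : Type} [CommRing R] [Algebra K R] (x : ((TT F u n s t).cls (tz F u n s t)).obj R),
      x.1.1.2 ^ s * (1 - x.1.1.2) ^ t = 0 := by
    intro R _ _ x
    have h1 : u.val x.1.1.1.1 * x.1.1.1.2 ^ n - x.1.1.2 ^ s * (1 - x.1.1.2) ^ t = 0 := x.1.2
    have h2 : x.1.1.1.2 = 0 := x.2
    rw [h2, zero_pow hn, mul_zero, zero_sub, neg_eq_zero] at h1
    exact h1
  refine Mem.glue hG (resC _ (tv F u n s t)) ?_ ?_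
  · refine Mem.glue hG (resO _ (resC _ (tw F u n s t))) ?_ ?_
    · refine Mem.of_trivial hG fun R _ _ x => ?_
      have h1 := key x.1.1
      have h2 : IsUnit x.1.1.1.1.2 := x.1.2
      have h3 : IsUnit (1 - x.1.1.1.1.2) := x.2
      have h4 := (h2.pow s).mul (h3.pow t)
      rw [h1] at h4
      exact subsingleton_of_zero_eq_one (isUnit_zero_iff.1 h4)
    · refine Mem.of_iso (F' := F) ?_ hF
      exact
        { hom := fun x => x.1.1.1.1.1.1
          inv := fun {R} _ _ y => ⟨⟨⟨⟨((y, 0), 1), by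
            change u.val y * (0 : R) ^ n - (1 : R) ^ s * (1 - 1) ^ t = 0
            rw [zero_pow hn, sub_self, zero_pow ht, mul_zero, mul_zero, sub_self]⟩, rfl⟩,
            isUnit_one⟩, sub_self _⟩
          inv_hom := fun {R} _ _ x => by
            have h2 : x.1.1.1.1.1.2 = 0 := x.1.1.2
            have h3 : 1 - x.1.1.1.1.2 = 0 := x.2
            exact Subtype.ext (Subtype.ext (Subtype.ext (Subtype.ext
              (Prod.ext (Prod.ext rfl h2.symm) (sub_eq_zero.1 h3)))))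
          hom_inv := fun _ => rfl
          nat := fun _ _ => rfl }
  · refine Mem.of_iso (F' := F) ?_ hF
    exact
      { hom := fun x => x.1.1.1.1.1
        inv := fun {R} _ _ y => ⟨⟨⟨((y, 0), 0), by
          change u.val y * (0 : R) ^ n - (0 : R) ^ s * (1 - 0) ^ t = 0
          rw [zero_pow hn, zero_pow hs, zero_mul, mul_zero, sub_self]⟩, rfl⟩, rfl⟩
        inv_hom := fun {R} _ _ x => by
          have h2 : x.1.1.1.1.2 = 0 := x.1.2
          have h3 : x.1.1.1.2 = 0 := x.2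
          exact Subtype.ext (Subtype.ext (Subtype.ext
              (Prod.ext (Prod.ext rfl h2.symm) h3.symm)))
        hom_inv := fun _ => rfl
        nat := fun _ _ => rfl }

section

variable {F : KFn k} (Q : Fin 3 → Coord F) (n i j α β : ℕ)

/-- the exponents -/
def ea : Fin 3 → ℕ := ![n * (α + β), n * β, 0]

/-- the exponents -/
def eb : Fin 3 → ℕ := ![0, j, i + j]

/-- the signs -/
def es (k : Type) [Field k] : Fin 3 → k := ![1, -1, 1]

theorem es_ne (l : Fin 3) : es k l ≠ 0 := by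
  fin_cases l
  · exact one_ne_zero
  · exact neg_ne_zero.2 one_ne_zero
  · exact one_ne_zero

theorem ind_e {n i j α β : ℕ} (hn : n ≠ 0) (h : α * i = β * j + 1) :
    Ind (ea n α β) (eb i j) := by
  unfold Ind ea eb
  simp only [Matrix.cons_val_zero, Matrix.cons_val_one, Matrix.cons_val]
  push_cast
  intro h1
  have h2 : (α : ℤ) * i = β * j + 1 := by exact_mod_cast h
  have h3 : (n : ℤ) = 0 := by linear_combination -h1 - (n : ℤ) * h2
  exact hn (by exact_mod_cast h3)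

/-- the equation -/
theorem vt_e {R : Type} [CommRing R] [Algebra k R] (z r : R) (y : F.obj R) :
    ∑ l, vt Q (es k) (ea n α β) (eb i j) z r y l =
      z ^ (n * (α + β)) * (Q 0).val y - z ^ (n * β) * r ^ j * (Q 1).val y +
        r ^ (i + j) * (Q 2).val y := by
  rw [Fin.sum_univ_three]
  unfold vt es ea eb
  simp only [Matrix.cons_val_zero, Matrix.cons_val_one, Matrix.cons_val, map_one, map_neg,
    pow_zero]
  ring

end

end Pool.Agent.Helper67.TQ
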