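import Pool.Agent.Helper67.TQ.Geo4

/-!
# Three equations: the twisted cover is in the class
-/

set_option autoImplicit false

namespace Pool.Agent.Helper67.TQ

open Pool.Agent.Helper29.CQ Pool.Agent.Helper65.CC Pool.Agent.Helper87.CC
  Pool.Agent.Helper65.CC.KFn
open Pool.Agent.Helper29.PF (Pk kops ftZ char0 StableClass)
open Polynomial

variable {p : ℕ} {P : ∀ (A : Type) [CommRing A], Prop} {k : Type} [Field k]

section

variable {F : KFn k} (Q : Fin 3 → Coord F) {n i j α β : ℕ}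

theorem tt_root (h : α * i = β * j + 1) (hi : i ≠ 0) (hj : j ≠ 0) {R : Type} [CommRing R]
    [Algebra k R] (w : ((TT (X3 Q) (uC Q i j) n i j).opn (tz _ _ n i j)).obj R) :
    ∃ r : R, IsUnit r ∧ r ^ j * (w.1.1.2 * (Q 1).val w.1.1.1.1.1) =
        (Q 0).val w.1.1.1.1.1 * w.1.1.1.2 ^ (n * α) ∧
      r ^ i * (Q 2).val w.1.1.1.1.1 =
        (1 - w.1.1.2) * (Q 1).val w.1.1.1.1.1 * w.1.1.1.2 ^ (n * β) := by
  have hz : IsUnit w.1.1.1.2 := w.2
  have he : (uC Q i j).val w.1.1.1.1 * w.1.1.1.2 ^ n = w.1.1.2 ^ i * (1 - w.1.1.2) ^ j :=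
    sub_eq_zero.1 w.1.2
  have hu := (uC_unit Q i j w.1.1.1.1).mul (hz.pow n)
  rw [he] at hu
  refine root_ex h (x3_unit w.1.1.1.1 0) (x3_unit w.1.1.1.1 1) (x3_unit w.1.1.1.1 2) hz
    ((isUnit_pow_iff hi).1 (isUnit_of_mul_isUnit_left hu))
    ((isUnit_pow_iff hj).1 (isUnit_of_mul_isUnit_right hu)) ?_
  rw [← he, ← uC_mul]
  ring

/-- the solution -/
noncomputable def ttr (h : α * i = β * j + 1) (hi : i ≠ 0) (hj : j ≠ 0) {R : Type} [CommRing R]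
    [Algebra k R] (w : ((TT (X3 Q) (uC Q i j) n i j).opn (tz _ _ n i j)).obj R) : R :=
  Classical.choose (tt_root Q h hi hj w)

theorem ttr_spec (h : α * i = β * j + 1) (hi : i ≠ 0) (hj : j ≠ 0) {R : Type} [CommRing R]
    [Algebra k R] (w : ((TT (X3 Q) (uC Q i j) n i j).opn (tz _ _ n i j)).obj R) :
    IsUnit (ttr Q h hi hj w) ∧ (ttr Q h hi hj w) ^ j * (w.1.1.2 * (Q 1).val w.1.1.1.1.1) =
        (Q 0).val w.1.1.1.1.1 * w.1.1.1.2 ^ (n * α) ∧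
      (ttr Q h hi hj w) ^ i * (Q 2).val w.1.1.1.1.1 =
        (1 - w.1.1.2) * (Q 1).val w.1.1.1.1.1 * w.1.1.1.2 ^ (n * β) :=
  Classical.choose_spec (tt_root Q h hi hj w)

theorem vo_eq {R : Type} [CommRing R] [Algebra k R]
    (x : (VO Q (es k) (ea n α β) (eb i j)).obj R) :
    x.1.1.1.1.1.1.2 ^ (n * (α + β)) * (Q 0).val x.1.1.1.1.1.1.1 -
      x.1.1.1.1.1.1.2 ^ (n * β) * x.1.1.1.1.1.2 ^ j * (Q 1).val x.1.1.1.1.1.1.1 +
        x.1.1.1.1.1.2 ^ (i + j) * (Q 2).val x.1.1.1.1.1.1.1 = 0 := by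
  rw [← vt_e Q n i j α β]
  exact vv_eq Q (es k) (ea n α β) (eb i j) x.1.1.1

/-- the coordinate `v` -/
noncomputable def vov {R : Type} [CommRing R] [Algebra k R]
    (x : (VO Q (es k) (ea n α β) (eb i j)).obj R) : R :=
  Ring.inverse (x.1.1.1.1.1.2 ^ j * (Q 1).val x.1.1.1.1.1.1.1) *
    ((Q 0).val x.1.1.1.1.1.1.1 * x.1.1.1.1.1.1.2 ^ (n * α))

theorem vov_unit {R : Type} [CommRing R] [Algebra k R]
    (x : (VO Q (es k) (ea n α β) (eb i j)).obj R) :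
    IsUnit (x.1.1.1.1.1.2 ^ j * (Q 1).val x.1.1.1.1.1.1.1) :=
  ((vv_unit Q _ _ _ x.1.1.1).2.pow j).mul x.1.2

theorem vov_spec {R : Type} [CommRing R] [Algebra k R]
    (x : (VO Q (es k) (ea n α β) (eb i j)).obj R) :
    x.1.1.1.1.1.2 ^ j * (vov Q x * (Q 1).val x.1.1.1.1.1.1.1) =
      (Q 0).val x.1.1.1.1.1.1.1 * x.1.1.1.1.1.1.2 ^ (n * α) := by
  have h1 := Ring.mul_inverse_cancel _ (vov_unit Q x)
  unfold vov
  linear_combination ((Q 0).val x.1.1.1.1.1.1.1 * x.1.1.1.1.1.1.2 ^ (n * α)) * h1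

/-- the map -/
noncomputable def voHom (h : α * i = β * j + 1) {R : Type} [CommRing R] [Algebra k R]
    (x : (VO Q (es k) (ea n α β) (eb i j)).obj R) :
    ((TT (X3 Q) (uC Q i j) n i j).opn (tz _ _ n i j)).obj R :=
  ⟨⟨((⟨x.1.1.1.1.1.1.1, (IsUnit.mul x.1.1.2 x.1.2).mul x.2⟩,
      x.1.1.1.1.1.1.2), vov Q x), by
    have hz := (vv_unit Q _ _ _ x.1.1.1).1
    have hr := (vv_unit Q _ _ _ x.1.1.1).2
    have e1 := vov_spec Q x
    have e2 := root_eq2 hr (vo_eq Q x) e1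
    have e3 := root_eq3 h hr hz e1 e2
    obtain ⟨y, hy⟩ : ∃ y : (X3 Q).obj R, y = ⟨x.1.1.1.1.1.1.1,
      (IsUnit.mul x.1.1.2 x.1.2).mul x.2⟩ := ⟨_, rfl⟩
    have hy1 : y.1 = x.1.1.1.1.1.1.1 := by rw [hy]
    have e4 := uC_mul Q i j y
    have h1 : IsUnit ((Q 1).val y.1 ^ (i + j)) := (x3_unit y 1).pow _
    rw [hy1] at e4 h1
    change (uC Q i j).val (⟨x.1.1.1.1.1.1.1, (IsUnit.mul x.1.1.2 x.1.2).mul x.2⟩ :
      (X3 Q).obj R) * x.1.1.1.1.1.1.2 ^ n - vov Q x ^ i * (1 - vov Q x) ^ j = 0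
    rw [← hy, sub_eq_zero]
    apply h1.mul_left_cancel
    linear_combination x.1.1.1.1.1.1.2 ^ n * e4 + e3⟩, (vv_unit Q _ _ _ x.1.1.1).1⟩

theorem vo_uniq (h : α * i = β * j + 1) (hi : i ≠ 0) (hj : j ≠ 0) {R : Type} [CommRing R]
    [Algebra k R] (x : (VO Q (es k) (ea n α β) (eb i j)).obj R) :
    ttr Q h hi hj (voHom Q h x) = x.1.1.1.1.1.2 := by
  have hz := (vv_unit Q _ _ _ x.1.1.1).1
  have hr := (vv_unit Q _ _ _ x.1.1.1).2
  have e1 := vov_spec Q x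
  have e2 := root_eq2 hr (vo_eq Q x) e1
  have h0 : IsUnit ((Q 0).val x.1.1.1.1.1.1.1) := x.1.1.2
  have h2 : IsUnit ((Q 2).val x.1.1.1.1.1.1.1) := x.2
  have h3 : IsUnit (vov Q x * (Q 1).val x.1.1.1.1.1.1.1) := by
    have h4 := h0.mul (hz.pow (n * α))
    rw [← e1] at h4
    exact isUnit_of_mul_isUnit_right h4
  obtain ⟨s1, s2, s3⟩ := ttr_spec Q h hi hj (voHom Q h x)
  exact root_uniq h hr (h3.mul_right_cancel (s2.trans e1.symm))
    (h2.mul_right_cancel (s3.trans e2.symm))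

/-- the isomorphism -/
noncomputable def voTT (h : α * i = β * j + 1) (hi : i ≠ 0) (hj : j ≠ 0) :
    Iso (VO Q (es k) (ea n α β) (eb i j))
      ((TT (X3 Q) (uC Q i j) n i j).opn (tz _ _ n i j)) where
  hom x := voHom Q h x
  inv {R} _ _ w := ⟨⟨⟨⟨⟨((w.1.1.1.1.1, w.1.1.1.2), ttr Q h hi hj w), by
      change IsUnit (ev2 (hzr k) w.1.1.1.2 (ttr Q h hi hj w))
      rw [ev2_hzr]
      exact (ttr_spec Q h hi hj w).1.mul w.2⟩, by
      change ∑ l, vt Q (es k) (ea n α β) (eb i j) w.1.1.1.2 (ttr Q h hi hj w) w.1.1.1.1.1 l = 0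
      rw [vt_e]
      exact root_eq (ttr_spec Q h hi hj w).2.1 (ttr_spec Q h hi hj w).2.2⟩,
      x3_unit w.1.1.1.1 0⟩, x3_unit w.1.1.1.1 1⟩, x3_unit w.1.1.1.1 2⟩
  inv_hom {R} _ _ x := by
    refine Subtype.ext (Subtype.ext (Subtype.ext (Subtype.ext (Subtype.ext (Prod.ext rfl ?_)))))
    exact vo_uniq Q h hi hj x
  hom_inv {R} _ _ w := by
    refine Subtype.ext (Subtype.ext (Prod.ext rfl ?_))
    obtain ⟨s1, s2, s3⟩ := ttr_spec Q h hi hj w
    have h1 : IsUnit (ttr Q h hi hj w ^ j * (Q 1).val w.1.1.1.1.1) :=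
      (s1.pow j).mul (x3_unit w.1.1.1.1 1)
    have h2 := Ring.mul_inverse_cancel _ h1
    change Ring.inverse (ttr Q h hi hj w ^ j * (Q 1).val w.1.1.1.1.1) *
      ((Q 0).val w.1.1.1.1.1 * w.1.1.1.2 ^ (n * α)) = w.1.1.2
    rw [← s2]
    linear_combination w.1.1.2 * h2
  nat {R S} _ _ _ _ f x := by
    refine Subtype.ext (Subtype.ext (Prod.ext rfl ?_))
    change f (Ring.inverse (x.1.1.1.1.1.2 ^ j * (Q 1).val x.1.1.1.1.1.1.1) *
      ((Q 0).val x.1.1.1.1.1.1.1 * x.1.1.1.1.1.1.2 ^ (n * α))) =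
      Ring.inverse (f x.1.1.1.1.1.2 ^ j * (Q 1).val (F.map f x.1.1.1.1.1.1.1)) *
      ((Q 0).val (F.map f x.1.1.1.1.1.1.1) * f x.1.1.1.1.1.1.2 ^ (n * α))
    rw [map_mul, inv_nat f (vov_unit Q x), map_mul, map_mul, map_pow, map_pow, (Q 0).nat,
      (Q 1).nat]

end

/-- the base -/
theorem x3_mem [Finite k] (hP : StableClass p P) (hk : (p : k) = 0) {F : KFn k} [Rp F]
    {Q : Fin 3 → Coord F} (h : TD P Q) : (X3 Q).Mem (Pk P k) := by
  have hG := kops hP.toFormalClass hk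
  have o0 := mem_opn hG (Q 0) h.f (h.c1 0)
  have o01 := mem_opn hG (resO _ (Q 1)) o0 (Mem.of_iso (opnCls (Q 0) (Q 1))
    (mem_opn hG _ (h.c1 1) (h.c2 1 0 (by decide))))
  have o2 := mem_opn hG (resC _ (Q 0)) (h.c1 2) (h.c2 2 0 (by decide))
  have hn : ((((F.cls (Q 2)).cls (resC _ (Q 1))).cls (resC _ (resC _ (Q 0))))).Mem (Pk P k) := by
    refine Mem.of_iso ?_ (n3_mem hP hk h)
    exact
      { hom := fun x => ⟨x.1.1.1, fun l => by
          fin_cases l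
          · exact x.2
          · exact x.1.2
          · exact x.1.1.2⟩
        inv := fun y => ⟨⟨⟨y.1, y.2 2⟩, y.2 1⟩, y.2 0⟩
        inv_hom := fun _ => rfl
        hom_inv := fun _ => rfl
        nat := fun _ _ => rfl }
  have o21 := mem_opn hG (resO _ (resC _ (Q 1))) o2
    (Mem.of_iso (opnCls (resC (Q 2) (Q 0)) (resC (Q 2) (Q 1)))
      (mem_opn hG _ (h.c2 2 1 (by decide)) hn))
  have o012 := mem_opn hG (resO _ (resO _ (Q 2))) o01 (Mem.of_iso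
    (F' := (((F.cls (Q 2)).opn (resC _ (Q 0))).opn (resO _ (resC _ (Q 1))))) (by
      exact
        { hom := fun x => ⟨⟨⟨x.1.1.1, x.2⟩, x.1.1.2⟩, x.1.2⟩
          inv := fun y => ⟨⟨⟨y.1.1.1, y.1.2⟩, y.2⟩, y.1.1.2⟩
          inv_hom := fun _ => rfl
          hom_inv := fun _ => rfl
          nat := fun _ _ => rfl }) o21)
  refine Mem.of_iso ?_ o012
  exact
    { hom := fun x => ⟨⟨⟨x.1, x3_unit x 0⟩, x3_unit x 1⟩, x3_unit x 2⟩
      inv := fun y => ⟨y.1.1.1, (IsUnit.mul y.1.1.2 y.1.2).mul y.2⟩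
      inv_hom := fun _ => rfl
      hom_inv := fun _ => rfl
      nat := fun _ _ => rfl }

/-- **the twisted cover** -/
theorem tt_mem [Finite k] [CharP k p] (hp : p.Prime) (hP : StableClass p P) {F : KFn k} [Rp F]
    {Q : Fin 3 → Coord F} (h : TD P Q) {n i j : ℕ} (hn : n ≠ 0) (hi : 0 < i) (hj : 0 < j)
    (hij : i.Coprime j) : (TT (X3 Q) (uC Q i j) n i j).Mem (Pk P k) := by
  have hk : (p : k) = 0 := CharP.cast_eq_zero k p
  have hG := kops hP.toFormalClass hk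
  obtain ⟨α, β, hαβ⟩ : ∃ α β : ℕ, α * i = β * j + 1 := by
    obtain ⟨a, b, hab⟩ : ∃ a b : ℤ, a * i + b * j = 1 := by
      have h1 := Nat.gcd_eq_gcd_ab i j
      rw [Nat.Coprime.gcd_eq_one hij] at h1
      refine ⟨i.gcdA j, i.gcdB j, ?_⟩
      push_cast at h1
      linear_combination -h1
    -- shift by multiples of `j`
    obtain ⟨t, ht⟩ : ∃ t : ℕ, 0 ≤ a + t * j ∧ 0 ≤ t * i - b := by
      refine ⟨a.natAbs + b.natAbs, ?_, ?_⟩
      · have h1 : (1 : ℤ) ≤ j := by exact_mod_cast hj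
        have h2 : |a| ≤ ((a.natAbs + b.natAbs : ℕ) : ℤ) := by
          push_cast
          linarith [abs_nonneg b]
        have h3 := neg_abs_le a
        nlinarith [abs_nonneg a]
      · have h1 : (1 : ℤ) ≤ i := by exact_mod_cast hi
        have h2 : |b| ≤ ((a.natAbs + b.natAbs : ℕ) : ℤ) := by
          push_cast
          linarith [abs_nonneg a]
        have h3 := le_abs_self b
        nlinarith [abs_nonneg b]
    obtain ⟨α, hα⟩ := Int.eq_ofNat_of_zero_le ht.1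
    obtain ⟨β, hβ⟩ := Int.eq_ofNat_of_zero_le ht.2
    refine ⟨α, β, ?_⟩
    have h1 : (α : ℤ) * i = β * j + 1 := by
      rw [← hα, ← hβ]
      linear_combination hab
    exact_mod_cast h1
  refine Mem.glue hG (tz _ _ n i j) ?_ (tt_zero hG (x3_mem hP hk h) _ hn hi.ne' hj.ne')
  refine Mem.of_iso (voTT Q (n := n) hαβ hi.ne' hj.ne').symm
    (vo_mem hp hP h es_ne (ind_e hn hαβ) ?_ ?_)
  · exact hj
  · change j < i + j
    omega

end Pool.Agent.Helper67.TQ
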