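import Pool.Agent.Helper67.TQ.Quad
import Pool.Agent.Helper11.TP.Tsen

/-!
# Splitting off a hyperbolic plane
-/

set_option autoImplicit false

namespace Pool.Agent.Helper67.TQ

open Pool.Agent.Helper29.CQ Pool.Agent.Helper65.CC Pool.Agent.Helper87.CC
  Pool.Agent.Helper65.CC.KFn
open Pool.Agent.Helper29.PF (pw pwZero pwSucc rp_pw Zf rep_Zf)
open Polynomial

variable {K : Type} [Field K] {G : ∀ (R : Type) [CommRing R] [Algebra K R], Prop}

/-- the restriction of an isomorphism to closed subfunctors -/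
def isoCls {F F' : KFn K} (e : Iso F F') (u : Coord F) (u' : Coord F')
    (h : ∀ {R : Type} [CommRing R] [Algebra K R] (x : F.obj R),
      u.val x = 0 ↔ u'.val (e.hom x) = 0) : Iso (F.cls u) (F'.cls u') where
  hom x := ⟨e.hom x.1, (h x.1).1 x.2⟩
  inv y := ⟨e.inv y.1, (h _).2 (by rw [e.hom_inv]; exact y.2)⟩
  inv_hom x := Subtype.ext (e.inv_hom x.1)
  hom_inv y := Subtype.ext (e.hom_inv y.1)
  nat f x := Subtype.ext (e.nat f x.1)

/-- the restriction of an isomorphism to open subfunctors -/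
def isoOpn {F F' : KFn K} (e : Iso F F') (u : Coord F) (u' : Coord F')
    (h : ∀ {R : Type} [CommRing R] [Algebra K R] (x : F.obj R),
      IsUnit (u.val x) ↔ IsUnit (u'.val (e.hom x))) : Iso (F.opn u) (F'.opn u') where
  hom x := ⟨e.hom x.1, (h x.1).1 x.2⟩
  inv y := ⟨e.inv y.1, (h _).2 (by rw [e.hom_inv]; exact y.2)⟩
  inv_hom x := Subtype.ext (e.inv_hom x.1)
  hom_inv y := Subtype.ext (e.hom_inv y.1)
  nat f x := Subtype.ext (e.nat f x.1)

section iso3

variable {F : KFn K} {n : ℕ} (a : Fin (n + 3) → Coord F) (p q s : Coord F)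

/-- the new coefficient -/
def b0 : Coord F := ⟨fun x => -((a 0).val x * (a 1).val x * (a 2).val x * p.val x ^ 2),
  fun f x => by
    rw [map_neg, map_mul, map_mul, map_mul, map_pow, (a 0).nat, (a 1).nat, (a 2).nat, p.nat]⟩

/-- the coefficients of the rest -/
def bb : Fin (n + 1) → Coord F := Fin.cons (b0 a p) fun i => a i.succ.succ.succ

section alg

variable {R : Type} [CommRing R]

theorem quad_id {a0 a1 a2 p q s : R} (h : a0 * p ^ 2 + a1 * q ^ 2 + a2 * s ^ 2 = 0)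
    (α β γ : R) : a0 * (α * p + β) ^ 2 + (a1 * (α * q + γ * (a2 * s)) ^ 2 +
      a2 * (α * s - γ * (a1 * q)) ^ 2) =
      (2 * a0 * p * α + a0 * β) * β + -(a0 * a1 * a2 * p ^ 2) * γ ^ 2 := by
  linear_combination (α ^ 2 + a1 * a2 * γ ^ 2) * h

theorem al_id {a0 a1 a2 p q s u : R} (h : a0 * p ^ 2 + a1 * q ^ 2 + a2 * s ^ 2 = 0)
    (hu : a0 * p ^ 2 * u = 1) (α γ : R) :
    -((a1 * q * (α * q + γ * (a2 * s)) + a2 * s * (α * s - γ * (a1 * q))) * u) = α := by
  linear_combination (-u * α) * h + α * hu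

theorem ga_id {a0 a1 a2 p q s u : R} (h : a0 * p ^ 2 + a1 * q ^ 2 + a2 * s ^ 2 = 0)
    (hu : a0 * p ^ 2 * u = 1) (α γ : R) :
    -((s * (α * q + γ * (a2 * s)) - q * (α * s - γ * (a1 * q))) * u) = γ := by
  linear_combination (-u * γ) * h + γ * hu

theorem x1_id {a0 a1 a2 p q s u : R} (h : a0 * p ^ 2 + a1 * q ^ 2 + a2 * s ^ 2 = 0)
    (hu : a0 * p ^ 2 * u = 1) (x y : R) :
    -((a1 * q * x + a2 * s * y) * u) * q + -((s * x - q * y) * u) * (a2 * s) = x := by
  linear_combination (-u * x) * h + x * hu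

theorem x2_id {a0 a1 a2 p q s u : R} (h : a0 * p ^ 2 + a1 * q ^ 2 + a2 * s ^ 2 = 0)
    (hu : a0 * p ^ 2 * u = 1) (x y : R) :
    -((a1 * q * x + a2 * s * y) * u) * s - -((s * x - q * y) * u) * (a1 * q) = y := by
  linear_combination (-u * y) * h + y * hu

end alg

/-- the change of coordinates -/
noncomputable def iso3 (h : ∀ {R : Type} [CommRing R] [Algebra K R] (x : F.obj R),
      (a 0).val x * p.val x ^ 2 + (a 1).val x * q.val x ^ 2 + (a 2).val x * s.val x ^ 2 = 0)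
    (h2 : (2 : K) ≠ 0)
    (ha : ∀ {R : Type} [CommRing R] [Algebra K R] (x : F.obj R), IsUnit ((a 0).val x))
    (hp : ∀ {R : Type} [CommRing R] [Algebra K R] (x : F.obj R), IsUnit (p.val x)) :
    Iso (pw F (n + 3)) (pw F (n + 1)).line.line where
  hom {R} _ _ x :=
    let u := Ring.inverse ((a 0).val x.1 * p.val x.1 ^ 2)
    let α := -(((a 1).val x.1 * q.val x.1 * x.2 1 + (a 2).val x.1 * s.val x.1 * x.2 2) * u)
    let β := x.2 0 - α * p.val x.1
    let γ := -((s.val x.1 * x.2 1 - q.val x.1 * x.2 2) * u)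
    (((x.1, Fin.cons γ fun i => x.2 i.succ.succ.succ),
      2 * (a 0).val x.1 * p.val x.1 * α + (a 0).val x.1 * β), β)
  inv {R} _ _ y :=
    let z := y.1.1.1
    let α := (y.1.2 - (a 0).val z * y.2) * Ring.inverse (2 * (a 0).val z * p.val z)
    let β := y.2
    let γ := y.1.1.2 0
    (z, Fin.cons (α * p.val z + β) (Fin.cons (α * q.val z + γ * ((a 2).val z * s.val z))
      (Fin.cons (α * s.val z - γ * ((a 1).val z * q.val z)) (Fin.tail y.1.1.2))))
  inv_hom {R} _ _ x := by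
    have hu : (a 0).val x.1 * p.val x.1 ^ 2 *
        Ring.inverse ((a 0).val x.1 * p.val x.1 ^ 2) = 1 :=
      Ring.mul_inverse_cancel _ ((ha x.1).mul ((hp x.1).pow 2))
    have h2R : IsUnit (2 : R) := by
      have h1 := unit_const (R := R) h2
      rwa [map_ofNat] at h1
    have hv := Ring.mul_inverse_cancel _ ((h2R.mul (ha x.1)).mul (hp x.1))
    refine Prod.ext rfl ?_
    generalize hα : -(((a 1).val x.1 * q.val x.1 * x.2 1 + (a 2).val x.1 * s.val x.1 * x.2 2) *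
        Ring.inverse ((a 0).val x.1 * p.val x.1 ^ 2)) = α
    have e1 : ∀ w, (2 * (a 0).val x.1 * p.val x.1 * α + (a 0).val x.1 * w - (a 0).val x.1 * w) *
        Ring.inverse (2 * (a 0).val x.1 * p.val x.1) = α := by
      intro w
      linear_combination α * hv
    have key : (fun i => x.2 i) = Fin.cons (x.2 0) (Fin.cons (x.2 1) (Fin.cons (x.2 2)
        (fun i : Fin n => x.2 i.succ.succ.succ))) := by
      funext i
      refine Fin.cases rfl (fun i => ?_) i
      refine Fin.cases rfl (fun i => ?_) i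
      refine Fin.cases rfl (fun i => ?_) i
      rfl
    refine Eq.trans ?_ key.symm
    simp only [hα, e1]
    refine congrArg₂ _ ?_ (congrArg₂ _ ?_ (congrArg₂ _ ?_ ?_))
    · ring
    · rw [← hα]
      exact x1_id (h x.1) hu (x.2 1) (x.2 2)
    · rw [← hα]
      exact x2_id (h x.1) hu (x.2 1) (x.2 2)
    · rfl
  hom_inv {R} _ _ y := by
    have hu : (a 0).val y.1.1.1 * p.val y.1.1.1 ^ 2 *
        Ring.inverse ((a 0).val y.1.1.1 * p.val y.1.1.1 ^ 2) = 1 :=
      Ring.mul_inverse_cancel _ ((ha _).mul ((hp _).pow 2))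
    have h2R : IsUnit (2 : R) := by
      have h1 := unit_const (R := R) h2
      rwa [map_ofNat] at h1
    have hv := Ring.mul_inverse_cancel _ ((h2R.mul (ha y.1.1.1)).mul (hp y.1.1.1))
    generalize hα : (y.1.2 - (a 0).val y.1.1.1 * y.2) *
      Ring.inverse (2 * (a 0).val y.1.1.1 * p.val y.1.1.1) = α
    have e1 := al_id (h y.1.1.1) hu α (y.1.1.2 0)
    have e2 := ga_id (h y.1.1.1) hu α (y.1.1.2 0)
    obtain ⟨B, hB⟩ : ∃ B, B = α * q.val y.1.1.1 + y.1.1.2 0 * ((a 2).val y.1.1.1 * s.val y.1.1.1) :=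
      ⟨_, rfl⟩
    obtain ⟨C', hC⟩ : ∃ B, B = α * s.val y.1.1.1 - y.1.1.2 0 * ((a 1).val y.1.1.1 * q.val y.1.1.1) :=
      ⟨_, rfl⟩
    have e3 := hv
    have e4 : (y.1.2 - (a 0).val y.1.1.1 * y.2) = 2 * (a 0).val y.1.1.1 * p.val y.1.1.1 * α := by
      rw [← hα]
      linear_combination (-(y.1.2 - (a 0).val y.1.1.1 * y.2)) * hv
    rw [← hB, ← hC] at e1 e2
    simp only [hα, ← hB, ← hC]
    change (((y.1.1.1, (Fin.cons (-((s.val y.1.1.1 * B - q.val y.1.1.1 * C') *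
        Ring.inverse ((a 0).val y.1.1.1 * p.val y.1.1.1 ^ 2))) (Fin.tail y.1.1.2) :
          Fin (n + 1) → R)),
      2 * (a 0).val y.1.1.1 * p.val y.1.1.1 * (-(((a 1).val y.1.1.1 * q.val y.1.1.1 * B +
        (a 2).val y.1.1.1 * s.val y.1.1.1 * C') *
        Ring.inverse ((a 0).val y.1.1.1 * p.val y.1.1.1 ^ 2))) + (a 0).val y.1.1.1 *
        ((α * p.val y.1.1.1 + y.2) - (-(((a 1).val y.1.1.1 * q.val y.1.1.1 * B +
        (a 2).val y.1.1.1 * s.val y.1.1.1 * C') *
        Ring.inverse ((a 0).val y.1.1.1 * p.val y.1.1.1 ^ 2))) * p.val y.1.1.1)),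
      (α * p.val y.1.1.1 + y.2) - (-(((a 1).val y.1.1.1 * q.val y.1.1.1 * B +
        (a 2).val y.1.1.1 * s.val y.1.1.1 * C') *
        Ring.inverse ((a 0).val y.1.1.1 * p.val y.1.1.1 ^ 2))) * p.val y.1.1.1) = y
    rw [e1, e2]
    refine Prod.ext (Prod.ext (Prod.ext rfl (Fin.cons_self_tail _)) ?_) ?_
    · change 2 * (a 0).val y.1.1.1 * p.val y.1.1.1 * α + (a 0).val y.1.1.1 *
        ((α * p.val y.1.1.1 + y.2) - α * p.val y.1.1.1) = y.1.2
      linear_combination -e4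
    · change (α * p.val y.1.1.1 + y.2) - α * p.val y.1.1.1 = y.2
      ring
  nat {R S} _ _ _ _ f x := by
    have hu := (ha x.1).mul ((hp x.1).pow 2)
    have e0 : f (Ring.inverse ((a 0).val x.1 * p.val x.1 ^ 2)) =
        Ring.inverse ((a 0).val (F.map f x.1) * p.val (F.map f x.1) ^ 2) := by
      rw [inv_nat f hu, map_mul, map_pow, (a 0).nat, p.nat]
    refine Prod.ext (Prod.ext (Prod.ext rfl ?_) ?_) ?_
    · funext i
      refine Fin.cases ?_ (fun i => rfl) i
      change f (-(_ * _)) = -(_ * _)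
      rw [map_neg, map_mul, e0, map_sub, map_mul, map_mul, s.nat, q.nat]
      rfl
    · change f (_ * _ * _ * _ + _ * (_ - _ * _)) = _ * _ * _ * _ + _ * (_ - _ * _)
      simp only [map_neg, map_mul, map_add, map_sub, map_ofNat, e0, s.nat, q.nat, p.nat,
        (a 0).nat, (a 1).nat, (a 2).nat]
      rfl
    · change f (_ - _ * _) = _ - _ * _
      simp only [map_neg, map_mul, map_add, map_sub, map_ofNat, e0, s.nat, q.nat, p.nat,
        (a 0).nat, (a 1).nat, (a 2).nat]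
      rfl

theorem sum_three {R : Type} [CommRing R] {n : ℕ} (f : Fin (n + 3) → R) :
    ∑ l, f l = f 0 + (f 1 + f 2) + ∑ i : Fin n, f i.succ.succ.succ := by
  rw [Fin.sum_univ_succ, Fin.sum_univ_succ, Fin.sum_univ_succ]
  change f 0 + (f 1 + (f 2 + ∑ i : Fin n, f i.succ.succ.succ)) = _
  ring

/-- splitting off a hyperbolic plane -/
noncomputable def dgHg (h : ∀ {R : Type} [CommRing R] [Algebra K R] (x : F.obj R),
      (a 0).val x * p.val x ^ 2 + (a 1).val x * q.val x ^ 2 + (a 2).val x * s.val x ^ 2 = 0)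
    (h2 : (2 : K) ≠ 0)
    (ha : ∀ {R : Type} [CommRing R] [Algebra K R] (x : F.obj R), IsUnit ((a 0).val x))
    (hp : ∀ {R : Type} [CommRing R] [Algebra K R] (x : F.obj R), IsUnit (p.val x)) :
    Iso (DG F a) (HG F (bb a p)) :=
  isoCls (iso3 a p q s h h2 ha hp) _ _ fun {R} _ _ x => by
    have hu : (a 0).val x.1 * p.val x.1 ^ 2 *
        Ring.inverse ((a 0).val x.1 * p.val x.1 ^ 2) = 1 :=
      Ring.mul_inverse_cancel _ ((ha x.1).mul ((hp x.1).pow 2))
    suffices hs : ∑ l, (a l).val x.1 * x.2 l ^ 2 = ((iso3 a p q s h h2 ha hp).hom x).1.2 *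
        ((iso3 a p q s h h2 ha hp).hom x).2 +
        ∑ l, (bb a p l).val x.1 * ((iso3 a p q s h h2 ha hp).hom x).1.1.2 l ^ 2 by
      change ∑ l, (a l).val x.1 * x.2 l ^ 2 = 0 ↔ _
      rw [hs]
      exact Iff.rfl
    obtain ⟨α, hα⟩ : ∃ α, α = -(((a 1).val x.1 * q.val x.1 * x.2 1 +
      (a 2).val x.1 * s.val x.1 * x.2 2) * Ring.inverse ((a 0).val x.1 * p.val x.1 ^ 2)) :=
      ⟨_, rfl⟩
    obtain ⟨γ, hγ⟩ : ∃ γ, γ = -((s.val x.1 * x.2 1 - q.val x.1 * x.2 2) *
      Ring.inverse ((a 0).val x.1 * p.val x.1 ^ 2)) := ⟨_, rfl⟩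
    have e1 := x1_id (h x.1) hu (x.2 1) (x.2 2)
    have e2 := x2_id (h x.1) hu (x.2 1) (x.2 2)
    have e3 := quad_id (h x.1) α (x.2 0 - α * p.val x.1) γ
    rw [← hα, ← hγ] at e1 e2
    rw [e1, e2, add_sub_cancel] at e3
    have e4 : (((iso3 a p q s h h2 ha hp).hom x).1.1.2 : Fin (n + 1) → R) =
        Fin.cons γ fun i => x.2 i.succ.succ.succ := by
      rw [hγ]
      rfl
    have e5 : ((iso3 a p q s h h2 ha hp).hom x).2 = x.2 0 - α * p.val x.1 := by
      rw [hα]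
      rfl
    have e6 : ((iso3 a p q s h h2 ha hp).hom x).1.2 = 2 * (a 0).val x.1 * p.val x.1 * α +
        (a 0).val x.1 * (x.2 0 - α * p.val x.1) := by
      rw [hα]
      rfl
    rw [e4, e5, e6, sum_three, e3, Fin.sum_univ_succ, add_assoc]
    rfl

end iso3

end Pool.Agent.Helper67.TQ
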