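import Pool.Agent.Helper67.TQ.Whole

/-!
# Inseparable covers of affine spaces
-/

set_option autoImplicit false

namespace Pool.Agent.Helper67.TQ

open Pool.Agent.Helper29.CQ Pool.Agent.Helper65.CC Pool.Agent.Helper87.CC
  Pool.Agent.Helper65.CC.KFn
open Pool.Agent.Helper29.PF (Pk kops ftZ char0 StableClass root rep_root pw)
open Pool.Agent.Helper9.QP (Gen IsGen isGen_std ft_fin char_fin)
open Polynomial

variable {p : ℕ} {P : ∀ (A : Type) [CommRing A], Prop} {k : Type} [Field k]

/-! ### Adjoining roots -/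

theorem mem_of_root [Finite k] (hP : FormalClass p P) {F : KFn k} (c : Coord F) {d : ℕ}
    (hd : d ≠ 0) (h : (root F c d).Mem (Pk P k)) : F.Mem (Pk P k) := by
  intro A _ _ a hA ha
  obtain ⟨b, hb⟩ := rep_root c d ha
  exact Pool.Agent.Helper67.CQ.adjoin_transfer hP (ftZ hA) hd (c.val a)
    (h _ b (hA.trans (inferInstance : Algebra.FiniteType A
      (AdjoinRoot (X ^ d - C (c.val a) : A[X])))) hb)

/-- the roots of several coordinates -/
def rts (F : KFn k) {l : ℕ} (c : Fin l → Coord F) (d : ℕ) : KFn k :=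
  (pw F l).sub (fun x => ∀ i, x.2 i ^ d = (c i).val x.1) fun f x h i =>
    ((map_pow f _ _).symm.trans (congrArg f (h i))).trans ((c i).nat f x.1)

/-- one more root -/
def rtsSucc (F : KFn k) {l : ℕ} (c : Fin (l + 1) → Coord F) (d : ℕ) :
    Iso (root (rts F (fun i => c i.succ) d) ⟨fun x => (c 0).val x.1.1, fun f x =>
      (c 0).nat f x.1.1⟩ d) (rts F c d) where
  hom x := ⟨(x.1.1.1.1, Fin.cons x.1.2 x.1.1.1.2), fun i => by
    refine Fin.cases ?_ (fun i => ?_) i
    · exact sub_eq_zero.1 x.2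
    · exact x.1.1.2 i⟩
  inv y := ⟨(⟨(y.1.1, Fin.tail y.1.2), fun i => y.2 i.succ⟩, y.1.2 0), sub_eq_zero.2 (y.2 0)⟩
  inv_hom _ := rfl
  hom_inv y := Subtype.ext (Prod.ext rfl (Fin.cons_self_tail _))
  nat f x := Subtype.ext (Prod.ext rfl (funext fun i => Fin.cases rfl (fun _ => rfl) i))

theorem mem_rts [Finite k] (hP : FormalClass p P) {F : KFn k} {d : ℕ} (hd : d ≠ 0) {l : ℕ} :
    ∀ c : Fin l → Coord F, (rts F c d).Mem (Pk P k) → F.Mem (Pk P k) := by
  induction l with
  | zero =>
    intro c h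
    refine Mem.of_iso ?_ h
    exact
      { hom := fun x => ⟨(x, Fin.elim0), fun i => i.elim0⟩
        inv := fun y => y.1.1
        inv_hom := fun _ => rfl
        hom_inv := fun _ => Subtype.ext (Prod.ext rfl (funext fun i => i.elim0))
        nat := fun _ _ => Subtype.ext (Prod.ext rfl (funext fun i => i.elim0)) }
  | succ l ih =>
    intro c h
    exact ih (fun i => c i.succ) (mem_of_root hP _ hd (Mem.of_iso (rtsSucc F c d) h))

/-! ### The covers -/

/-- `b w ^ n = f` -/
noncomputable def GenF {N : ℕ} (b f : MvPolynomial (Fin N) k) (n : ℕ) : KFn k :=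
  (AF k N).line.cls ⟨fun x => (vC b).val x.1 * x.2 ^ n - (vC f).val x.1, fun g x => by
    rw [map_sub, map_mul, map_pow, (vC b).nat, (vC f).nat]
    rfl⟩

theorem rep_gen {N : ℕ} {b f : MvPolynomial (Fin N) k} {n : ℕ} {B : Type} [CommRing B]
    {i : MvPolynomial (Fin N) k →+* B} {w : B} (hB : IsGen i w n b f) :
    let _ : Algebra k B := (i.comp MvPolynomial.C).toAlgebra
    ∃ pt, (GenF b f n).Rep B pt := by
  intro _
  let j' : MvPolynomial (Fin N) k →ₐ[k] B := { i with commutes' := fun _ => rfl }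
  have hj' : MvPolynomial.aeval (R := k) (fun t => i (MvPolynomial.X t)) = j' := by
    apply MvPolynomial.algHom_ext
    intro t
    rw [MvPolynomial.aeval_X]
    rfl
  have hv : ∀ q : MvPolynomial (Fin N) k, (vC q).val (F := AF k N) (R := B)
      (fun t => i (MvPolynomial.X t)) = i q := fun q => DFunLike.congr_fun hj' q
  refine ⟨⟨((fun t => i (MvPolynomial.X t) : Fin N → B), w), ?_⟩, ?_⟩
  · refine sub_eq_zero.2 ((congrArg (· * w ^ n) (hv b)).trans (hB.rel.trans (hv f).symm))
  · intro R _ _ x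
    let v : MvPolynomial (Fin N) k →ₐ[k] R := MvPolynomial.aeval (R := k) (x.1.1 : Fin N → R)
    have hx : v b * x.1.2 ^ n = v f := sub_eq_zero.1 x.2
    obtain ⟨g, hg, hgw⟩ := hB.ex R (v : MvPolynomial (Fin N) k →+* R) x.1.2 hx
    have hg' : ∀ y, g (i y) = v y := fun y => RingHom.congr_fun hg y
    let g' : B →ₐ[k] R :=
      { g with
        commutes' := fun c => (hg' (MvPolynomial.C c)).trans
          (MvPolynomial.aeval_C (x.1.1 : Fin N → R) c) }
    refine ⟨g', ?_, ?_⟩
    · refine Subtype.ext (Prod.ext (funext fun t => ?_) hgw)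
      exact (hg' (MvPolynomial.X t)).trans (MvPolynomial.aeval_X (R := k) (x.1.1 : Fin N → R) t)
    · intro h hh
      apply AlgHom.coe_ringHom_injective
      refine hB.uniq R _ _ ?_ ((congrArg (fun z => z.1.2) hh).trans hgw.symm)
      refine Eq.trans ?_ hg.symm
      apply MvPolynomial.ringHom_ext
      · intro c
        exact (h.commutes c).trans (MvPolynomial.aeval_C (x.1.1 : Fin N → R) c).symm
      · intro t
        exact (congrFun (congrArg (fun z => z.1.1) hh) t).trans
          (MvPolynomial.aeval_X (R := k) (x.1.1 : Fin N → R) t).symm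

theorem genF_mem [Finite k] (hP : FormalClass p P) (hk : (p : k) = 0) {N : ℕ}
    {b f : MvPolynomial (Fin N) k} {n : ℕ} (h : P (Gen (MvPolynomial (Fin N) k) n b f)) :
    (GenF b f n).Mem (Pk P k) := by
  obtain ⟨pt, hpt⟩ := rep_gen (isGen_std n b f)
  let _ : Algebra k (Gen (MvPolynomial (Fin N) k) n b f) := ((AdjoinRoot.of (C b * X ^ n - C f :
    (MvPolynomial (Fin N) k)[X])).comp MvPolynomial.C).toAlgebra
  exact Mem.of_rep (kops hP hk) hpt h

theorem of_genF_mem [Finite k] {N : ℕ} {b f : MvPolynomial (Fin N) k} {n : ℕ}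
    (h : (GenF b f n).Mem (Pk P k)) : P (Gen (MvPolynomial (Fin N) k) n b f) := by
  have hD := isGen_std n b f
  have hft := hD.ft (ft_fin N)
  obtain ⟨pt, hpt⟩ := rep_gen hD
  let _ : Algebra k (Gen (MvPolynomial (Fin N) k) n b f) := ((AdjoinRoot.of (C b * X ^ n - C f :
    (MvPolynomial (Fin N) k)[X])).comp MvPolynomial.C).toAlgebra
  exact h _ pt (Algebra.FiniteType.of_restrictScalars_finiteType ℤ k _) hpt

/-! ### The Frobenius -/

theorem exists_frob [Finite k] [hpp : Fact p.Prime] (hk : (p : k) = 0) :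
    ∃ φ : k →+* k, ∀ (N : ℕ) (f : MvPolynomial (Fin N) k), MvPolynomial.aeval
      (fun i => (MvPolynomial.X i : MvPolynomial (Fin N) k) ^ p) f =
        (MvPolynomial.map φ f) ^ p := by
  have hch : CharP k p := (CharP.charP_iff_prime_eq_zero hpp.out).2 hk
  have hbij : Function.Bijective (frobenius k p) :=
    Finite.injective_iff_bijective.1 (frobenius_inj k p)
  set e : k ≃+* k := RingEquiv.ofBijective (frobenius k p) hbij with he
  have hes : ∀ c, e.symm c ^ p = c := by
    intro c
    have h1 := e.apply_symm_apply c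
    rw [he, RingEquiv.ofBijective_apply, frobenius_def] at h1
    exact h1
  refine ⟨(e.symm : k →+* k), fun N f => ?_⟩
  have hA : ExpChar (MvPolynomial (Fin N) k) p := by
    have : CharP (MvPolynomial (Fin N) k) p := inferInstance
    exact ExpChar.prime hpp.out
  have h1 : ((MvPolynomial.aeval (fun i => (MvPolynomial.X i : MvPolynomial (Fin N) k) ^ p) :
      MvPolynomial (Fin N) k →ₐ[k] MvPolynomial (Fin N) k) : MvPolynomial (Fin N) k →+* _) =
      (frobenius (MvPolynomial (Fin N) k) p).comp (MvPolynomial.map (e.symm : k →+* k)) := by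
    apply MvPolynomial.ringHom_ext
    · intro c
      change MvPolynomial.aeval _ (MvPolynomial.C c) = frobenius _ p (MvPolynomial.map _ _)
      rw [MvPolynomial.map_C, frobenius_def, ← MvPolynomial.C_pow, MvPolynomial.algHom_C]
      change MvPolynomial.C c = MvPolynomial.C (e.symm c ^ p)
      rw [hes]
    · intro i
      change MvPolynomial.aeval _ (MvPolynomial.X i) = frobenius _ p (MvPolynomial.map _ _)
      rw [MvPolynomial.map_X, frobenius_def, MvPolynomial.aeval_X]
  exact RingHom.congr_fun h1 f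

/-- **inseparable covers** -/
theorem insepN [Finite k] (hP : FormalClass p P) [hpp : Fact p.Prime] (hk : (p : k) = 0)
    {N : ℕ} {φ : k →+* k} (hφ : ∀ f : MvPolynomial (Fin N) k, MvPolynomial.aeval
      (fun i => (MvPolynomial.X i : MvPolynomial (Fin N) k) ^ p) f = (MvPolynomial.map φ f) ^ p)
    {m : ℕ} (b f : MvPolynomial (Fin N) k)
    (h : P (Gen (MvPolynomial (Fin N) k) m (MvPolynomial.map φ b) (MvPolynomial.map φ f))) :
    P (Gen (MvPolynomial (Fin N) k) (p * m) b f) := by
  have hG := kops hP hk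
  have hp0 : p ≠ 0 := hpp.out.ne_zero
  have hv : ∀ (a : MvPolynomial (Fin N) k) {R : Type} [CommRing R] [Algebra k R] (y : Fin N → R),
      (vC a).val (F := AF k N) (R := R) (fun i => y i ^ p) =
        (vC (MvPolynomial.map φ a)).val (F := AF k N) (R := R) y ^ p := by
    intro a R _ _ y
    have h1 := congrArg (MvPolynomial.aeval (R := k) y) (hφ a)
    rw [map_pow] at h1
    refine Eq.trans ?_ h1
    have h2 : (MvPolynomial.aeval (R := k) y).comp (MvPolynomial.aeval
        (fun i => (MvPolynomial.X i : MvPolynomial (Fin N) k) ^ p)) =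
        MvPolynomial.aeval (R := k) (fun i => y i ^ p) := by
      apply MvPolynomial.algHom_ext
      intro i
      rw [AlgHom.comp_apply, MvPolynomial.aeval_X, map_pow, MvPolynomial.aeval_X,
        MvPolynomial.aeval_X]
    exact (DFunLike.congr_fun h2 a).symm
  refine of_genF_mem (mem_rts hP (F := GenF b f (p * m)) hp0
    (fun i : Fin N => ⟨fun x => (x.1.1 : Fin N → _) i, fun _ _ => rfl⟩) ?_)
  let c' : Coord (rts (GenF b f (p * m)) (fun i : Fin N =>
      ⟨fun x => (x.1.1 : Fin N → _) i, fun _ _ => rfl⟩) p) :=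
    { val := fun {R} _ _ x => (vC (MvPolynomial.map φ b)).val (F := AF k N) (R := R) x.1.2 *
        x.1.1.1.2 ^ m - (vC (MvPolynomial.map φ f)).val (F := AF k N) (R := R) x.1.2
      nat := fun g x => by
        have e1 := (vC (MvPolynomial.map φ b)).nat (F := AF k N) g x.1.2
        have e2 := (vC (MvPolynomial.map φ f)).nat (F := AF k N) g x.1.2
        rw [map_sub, map_mul, map_pow]
        exact congrArg₂ (· - ·) (congrArg (· * _) e1) e2 }
  refine Mem.glue hG c' (Mem.of_trivial hG fun R _ _ x => ?_) ?_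
  · rcases subsingleton_or_nontrivial R with h0 | h0
    · exact h0
    exfalso
    have hR : (p : R) = 0 := char0 hk
    have hch : CharP R p := (CharP.charP_iff_prime_eq_zero hpp.out).2 hR
    have h1 : IsUnit ((vC (MvPolynomial.map φ b)).val (F := AF k N) (R := R) x.1.1.2 *
        x.1.1.1.1.2 ^ m - (vC (MvPolynomial.map φ f)).val (F := AF k N) (R := R) x.1.1.2) := x.2
    have h2 : (fun i => (x.1.1.2 i : R) ^ p) = x.1.1.1.1.1 := funext x.1.2
    have h3 : (vC b).val (F := AF k N) (R := R) x.1.1.1.1.1 * x.1.1.1.1.2 ^ (p * m) -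
      (vC f).val (F := AF k N) (R := R) x.1.1.1.1.1 = 0 := x.1.1.1.2
    rw [← h2] at h3
    have h4 := h1.pow p
    rw [sub_pow_char, mul_pow, ← hv, ← hv, ← pow_mul, mul_comm m p] at h4
    rw [h3] at h4
    exact not_isUnit_zero h4
  · refine Mem.of_iso ?_ (genF_mem hP hk h)
    exact
      { hom := fun x => ⟨(x.1.1.2, x.1.1.1.1.2), x.2⟩
        inv := fun {R} _ _ y => ⟨⟨(⟨((fun i => (y.1.1 : Fin N → R) i ^ p), y.1.2), by
          have h1 : (vC (MvPolynomial.map φ b)).val y.1.1 * y.1.2 ^ m -
            (vC (MvPolynomial.map φ f)).val y.1.1 = 0 := y.2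
          have h2 := congrArg (· ^ p) (sub_eq_zero.1 h1)
          refine sub_eq_zero.2 ?_
          change (vC b).val (F := AF k N) (R := R) (fun i => (y.1.1 : Fin N → R) i ^ p) *
            y.1.2 ^ (p * m) = (vC f).val (F := AF k N) (R := R)
              (fun i => (y.1.1 : Fin N → R) i ^ p)
          have e1 := hv b (y.1.1 : Fin N → R)
          have e2 := hv f (y.1.1 : Fin N → R)
          refine (congrArg (· * y.1.2 ^ (p * m)) e1).trans (Eq.trans ?_ e2.symm)
          rw [mul_comm p m, pow_mul]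
          exact (mul_pow _ _ _).symm.trans h2⟩, y.1.1), fun i => rfl⟩, y.2⟩
        inv_hom := fun {R} _ _ x => by
          have h2 : (fun i => (x.1.1.2 i : R) ^ p) = x.1.1.1.1.1 := funext x.1.2
          exact Subtype.ext (Subtype.ext (Prod.ext (Subtype.ext (Prod.ext h2 rfl)) rfl))
        hom_inv := fun _ => rfl
        nat := fun _ _ => rfl }

end Pool.Agent.Helper67.TQ
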