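import Pool.Agent.Helper67.TQ.Fam
import Pool.Agent.Helper67.CQ.Blocks
import Pool.Agent.Helper9.QP.Kum

/-!
# Quadratic equations over bases of low dimension
-/

set_option autoImplicit false

namespace Pool.Agent.Helper67.TQ

open Pool.Agent.Helper29.CQ Pool.Agent.Helper65.CC Pool.Agent.Helper87.CC
  Pool.Agent.Helper65.CC.KFn
open Pool.Agent.Helper29.PF (pw pwZero pwSucc rp_pw Zf rep_Zf mem_Zf Pk kops ftZ char0)
open Polynomial

variable {p : ℕ} {P : ∀ (A : Type) [CommRing A], Prop} {k : Type} [Field k]

/-- the product with an affine space is represented by the polynomial ring -/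
theorem rep_pw {F : KFn k} {A : Type} [CommRing A] [Algebra k A] {a : F.obj A} (ha : F.Rep A a)
    (N : ℕ) : (pw F N).Rep (MvPolynomial (Fin N) A)
      (F.map (IsScalarTower.toAlgHom k A (MvPolynomial (Fin N) A)) a, MvPolynomial.X) := by
  intro R _ _ x
  obtain ⟨f, hf, hu⟩ := ha R x.1
  let g0 : MvPolynomial (Fin N) A →ₐ[k] R :=
    { MvPolynomial.eval₂Hom (f : A →+* R) x.2 with
      commutes' := fun c => by
        rw [IsScalarTower.algebraMap_apply k A (MvPolynomial (Fin N) A)]
        change MvPolynomial.eval₂Hom (f : A →+* R) x.2 (MvPolynomial.C _) = _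
        rw [MvPolynomial.eval₂Hom_C]
        exact f.commutes c }
  have hg0 : g0.comp (IsScalarTower.toAlgHom k A (MvPolynomial (Fin N) A)) = f := by
    ext b
    change MvPolynomial.eval₂Hom (f : A →+* R) x.2 (MvPolynomial.C b) = _
    rw [MvPolynomial.eval₂Hom_C]
    rfl
  have hX : ∀ i, g0 (MvPolynomial.X i) = x.2 i := by
    intro i
    change MvPolynomial.eval₂Hom (f : A →+* R) x.2 (MvPolynomial.X i) = _
    rw [MvPolynomial.eval₂Hom_X']
  refine ⟨g0, ?_, ?_⟩
  · refine Prod.ext ?_ (funext hX)
    change F.map _ (F.map _ a) = x.1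
    rw [← F.comp_map, hg0, hf]
  · intro g hg
    have h1 : g.comp (IsScalarTower.toAlgHom k A (MvPolynomial (Fin N) A)) = f := by
      apply hu
      rw [F.comp_map]
      exact congrArg Prod.fst hg
    have h2 : ∀ i, g (MvPolynomial.X i) = x.2 i := fun i => congrFun (congrArg Prod.snd hg) i
    apply AlgHom.coe_ringHom_injective
    apply MvPolynomial.ringHom_ext
    · intro b
      exact DFunLike.congr_fun (h1.trans hg0.symm) b
    · intro i
      exact (h2 i).trans (hX i).symm

/-- the quadratic form as a coordinate -/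
def qfC {F : KFn k} {N : ℕ} (c : Fin N → Fin N → Coord F) : Coord (pw F N) where
  val x := ∑ a, ∑ b, (c a b).val x.1 * (x.2 a * x.2 b)
  nat f x := by
    rw [map_sum]
    refine Finset.sum_congr rfl fun a _ => ?_
    rw [map_sum]
    refine Finset.sum_congr rfl fun b _ => ?_
    rw [map_mul, map_mul, (c a b).nat]
    rfl

/-- one quadratic equation over a curve -/
theorem qf_curve [Finite k] (hp : p.Prime) (hP : FormalClass p P) (hk : (p : k) = 0) {F : KFn k}
    {A : Type} [CommRing A] [Algebra k A] {a : F.obj A} (hft : Algebra.FiniteType k A)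
    (ha : F.Rep A a) (hdim : ringKrullDim A ≤ 1) {N : ℕ} (c : Fin N → Fin N → Coord F) :
    (QF F c).Mem (Pk P k) := by
  classical
  obtain ⟨b, hb⟩ := (rep_pw ha N).cls (qfC c)
  refine Mem.of_rep (kops hP hk) hb ?_
  have e1 : (∑ i : Fin N, ∑ j : Fin N,
      (c i j).val (F.map (IsScalarTower.toAlgHom k A (MvPolynomial (Fin N) A)) a) *
        (MvPolynomial.X i * MvPolynomial.X j : MvPolynomial (Fin N) A)) =
      ∑ i, ∑ j, MvPolynomial.C ((c i j).val a) * (MvPolynomial.X i * MvPolynomial.X j) := by
    refine Finset.sum_congr rfl fun i _ => Finset.sum_congr rfl fun j _ => ?_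
    rw [← (c i j).nat]
    rfl
  change P (MvPolynomial (Fin N) A ⧸ Ideal.span {∑ i : Fin N, ∑ j : Fin N,
      (c i j).val (F.map (IsScalarTower.toAlgHom k A (MvPolynomial (Fin N) A)) a) *
        (MvPolynomial.X i * MvPolynomial.X j : MvPolynomial (Fin N) A)})
  rw [e1]
  have h1 := tameClosed_tame.lowDegree A (ftZ hft) (by
    intro q hq hlt
    exfalso
    have h2 : ringKrullDim (A ⧸ q) ≤ ringKrullDim A :=
      ringKrullDim_le_of_surjective (Ideal.Quotient.mk q) Ideal.Quotient.mk_surjective
    exact absurd (hlt.trans_le (h2.trans hdim)) (lt_irrefl _)) N ∅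
    {∑ i, ∑ j, MvPolynomial.C ((c i j).val a) * (MvPolynomial.X i * MvPolynomial.X j)} (by simp)
    (by
      intro q hq
      rw [Finset.mem_singleton] at hq
      rw [hq]
      refine MvPolynomial.IsHomogeneous.totalDegree_le ?_
      refine MvPolynomial.IsHomogeneous.sum _ _ _ fun i _ => ?_
      refine MvPolynomial.IsHomogeneous.sum _ _ _ fun j _ => ?_
      exact (((MvPolynomial.isHomogeneous_X A i).mul (MvPolynomial.isHomogeneous_X A j)).C_mul _))
    (by
      rw [Finset.card_singleton]
      calc ringKrullDim A + ((1 : ℕ) : WithBot ℕ∞) ≤ 1 + 1 := add_le_add hdim le_rfl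
        _ = 2 := by norm_num)
  rw [Finset.coe_empty, Set.empty_union, Finset.coe_singleton] at h1
  refine Pool.Agent.Helper67.CQ.of_tame hp hP h1 ?_
  rw [← map_natCast (algebraMap A _), char0 hk, map_zero]

/-- quadratic forms over open parts of the line over a finite field -/
theorem fam_fin [Finite k] (hp : p.Prime) (hP : FormalClass p P) (hk : (p : k) = 0) (h : k[X])
    {N : ℕ} (M : Fin N → Fin N → k[X]) : (Fam h (uM M)).Mem (Pk P k) := by
  have h1 : (A1 k).Rep k[X] X := by
    intro R _ _ x
    refine ⟨aeval (show R from x), ?_, fun f hf => ?_⟩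
    · change aeval (show R from x) X = x
      rw [aeval_X]
    · change f X = x at hf
      apply Polynomial.algHom_ext
      rw [hf, aeval_X]
  obtain ⟨b, hb⟩ := h1.opn (polyC (idL k) h)
  refine qf_curve hp hP hk (F := Bh h) (ft_away inferInstance _) hb
    (Pool.Agent.Helper9.QP.dim_away _ ?_) (fun a b => pC h (M a b))
  rw [Polynomial.ringKrullDim_of_isNoetherianRing, ringKrullDim_eq_zero_of_field, zero_add]

end Pool.Agent.Helper67.TQ
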