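import Pool.Agent.Helper67.TQ.Low

/-!
# Nets of quadratic forms in an odd number of variables over a finite field
-/

set_option autoImplicit false

namespace Pool.Agent.Helper67.TQ

open Pool.Agent.Helper29.CQ Pool.Agent.Helper65.CC Pool.Agent.Helper87.CC
  Pool.Agent.Helper65.CC.KFn
open Pool.Agent.Helper29.PF (pw pwZero pwSucc rp_pw Zf rep_Zf mem_Zf Pk kops ftZ char0)
open Polynomial

variable {p : ℕ} {P : ∀ (A : Type) [CommRing A], Prop} {k : Type} [Field k]

/-- the value of a polynomial in two variables -/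
noncomputable def ev2 (g : k[X][X]) {R : Type} [CommRing R] [Algebra k R] (z r : R) : R :=
  eval₂ ((aeval z : k[X] →ₐ[k] R) : k[X] →+* R) r g

theorem ev2_map {R S : Type} [CommRing R] [CommRing S] [Algebra k R] [Algebra k S]
    (f : R →ₐ[k] S) (g : k[X][X]) (z r : R) : f (ev2 g z r) = ev2 g (f z) (f r) := by
  have h1 := hom_eval₂ g ((aeval z : k[X] →ₐ[k] R) : k[X] →+* R) (f : R →+* S) r
  refine h1.trans ?_
  unfold ev2
  congr 1
  apply Polynomial.ringHom_ext
  · intro a
    change f (aeval z (C a)) = aeval (f z) (C a)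
    rw [aeval_C, aeval_C, f.commutes]
  · change f (aeval z X) = aeval (f z) X
    rw [aeval_X, aeval_X]

/-- polynomials as coordinates of the plane -/
noncomputable def e2 (g : k[X][X]) : Coord (A2 k) :=
  ⟨fun x => ev2 g x.1 x.2, fun f x => ev2_map f g x.1 x.2⟩

/-- open parts of the plane -/
noncomputable def Bz (h : k[X][X]) : KFn k := (A2 k).opn (e2 h)

instance (h : k[X][X]) : Rp (Bz h) := by
  unfold Bz
  infer_instance

/-- polynomials as coordinates of the open part -/
noncomputable def bC (h g : k[X][X]) : Coord (Bz h) :=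
  ⟨fun x => ev2 g x.1.1 x.1.2, fun f x => ev2_map f g x.1.1 x.1.2⟩

/-- families over the plane -/
noncomputable def Net (h : k[X][X]) {N : ℕ} (M : Fin N → Fin N → k[X][X]) : KFn k :=
  QF (Bz h) fun a b => bC h (M a b)

instance rp_net (h : k[X][X]) {N : ℕ} (M : Fin N → Fin N → k[X][X]) : Rp (Net h M) := by
  unfold Net
  infer_instance

/-- the first parameter -/
noncomputable def zN (h : k[X][X]) {N : ℕ} (M : Fin N → Fin N → k[X][X]) : Coord (Net h M) :=
  ⟨fun x => x.1.1.1.1, fun _ _ => rfl⟩

section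

variable {K : Type} [Field K] [Algebra k K]

/-- the polynomial in one variable over the extension field -/
noncomputable def atc (c : K) : k[X][X] →+* K[X] :=
  mapRingHom ((aeval c : k[X] →ₐ[k] K) : k[X] →+* K)

theorem ev2_fib (g : k[X][X]) (c : K) {R : Type} [CommRing R] [Algebra K R] (r : R) :
    @ev2 k _ g R _ (down k K R) (algebraMap K R c) r = aeval r (atc c g) := by
  let _ : Algebra k R := down k K R
  change eval₂ ((aeval (algebraMap K R c) : k[X] →ₐ[k] R) : k[X] →+* R) r g =
    eval₂ (algebraMap K R) r (g.map ((aeval c : k[X] →ₐ[k] K) : k[X] →+* K))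
  rw [eval₂_map]
  congr 1
  apply Polynomial.ringHom_ext
  · intro a
    change aeval (algebraMap K R c) (C a) = algebraMap K R (aeval c (C a))
    rw [aeval_C, aeval_C]
    rfl
  · change aeval (algebraMap K R c) X = algebraMap K R (aeval c X)
    rw [aeval_X, aeval_X]

/-- the fibre -/
noncomputable def netFib (h : k[X][X]) {N : ℕ} (M : Fin N → Fin N → k[X][X]) (c : K) :
    Iso ((ext K (Net h M)).cls (subC (extC K (zN h M)) c))
      (Fam (atc c h) (uM fun a b => atc c (M a b))) where
  hom {R} _ _ x := ⟨(⟨(x.1.1.1.1.2 : R), by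
    have hz : (x.1.1.1.1.1 : R) = algebraMap K R c := sub_eq_zero.1 x.2
    have h1 : IsUnit (@ev2 k _ h R _ (down k K R) x.1.1.1.1.1 x.1.1.1.1.2) := x.1.1.1.2
    rw [hz, ev2_fib] at h1
    exact h1⟩, x.1.1.2), by
    have hz : (x.1.1.1.1.1 : R) = algebraMap K R c := sub_eq_zero.1 x.2
    have h1 : ∑ a, ∑ b, @ev2 k _ (M a b) R _ (down k K R) x.1.1.1.1.1 x.1.1.1.1.2 *
      (x.1.1.2 a * x.1.1.2 b) = 0 := x.1.2
    rw [hz] at h1
    change ∑ a, ∑ b, aeval (x.1.1.1.1.2 : R) (atc c (M a b)) * (x.1.1.2 a * x.1.1.2 b) = 0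
    rw [← h1]
    exact Finset.sum_congr rfl fun a _ => Finset.sum_congr rfl fun b _ => by rw [ev2_fib]⟩
  inv {R} _ _ y := ⟨⟨(⟨(algebraMap K R c, (rB _).val y.1.1), by
    change IsUnit (@ev2 k _ h R _ (down k K R) (algebraMap K R c) ((rB _).val y.1.1))
    rw [ev2_fib]
    exact rB_unit _ y.1.1⟩, y.1.2), by
    change ∑ a, ∑ b, @ev2 k _ (M a b) R _ (down k K R) (algebraMap K R c) ((rB _).val y.1.1) *
      (y.1.2 a * y.1.2 b) = 0
    have h1 : ∑ a, ∑ b, aeval ((rB _).val y.1.1) (atc c (M a b)) * (y.1.2 a * y.1.2 b) = 0 := y.2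
    rw [← h1]
    exact Finset.sum_congr rfl fun a _ => Finset.sum_congr rfl fun b _ => by rw [ev2_fib]⟩,
    sub_self _⟩
  inv_hom {R} _ _ x := by
    have hz : (x.1.1.1.1.1 : R) = algebraMap K R c := sub_eq_zero.1 x.2
    exact Subtype.ext (Subtype.ext (Prod.ext (Subtype.ext (Prod.ext hz.symm rfl)) rfl))
  hom_inv _ := rfl
  nat _ _ := rfl

theorem aeval_down (g : k[X]) {R : Type} [CommRing R] [Algebra K R] (r : R) :
    @aeval k R _ _ (down k K R) r g = aeval r (g.map (algebraMap k K)) := by
  let _ : Algebra k R := down k K R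
  rw [aeval_def, aeval_def, eval₂_map]
  rfl

/-- the families over an extension of the base field -/
noncomputable def famExt (h : k[X]) {N : ℕ} (M : Fin N → Fin N → k[X]) :
    Iso (Fam (h.map (algebraMap k K)) (uM fun a b => (M a b).map (algebraMap k K)))
      (ext K (Fam h (uM M))) where
  hom {R} _ _ x := ⟨(⟨Coord.val (R := R) (rB (h.map (algebraMap k K))) x.1.1, by
    have h1 := rB_unit _ x.1.1
    rw [← aeval_down] at h1
    exact h1⟩, x.1.2), by
    have h1 : ∑ a, ∑ b, aeval ((rB _).val x.1.1) ((M a b).map (algebraMap k K)) *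
      (x.1.2 a * x.1.2 b) = 0 := x.2
    change ∑ a, ∑ b, @aeval k R _ _ (down k K R) ((rB (h.map (algebraMap k K))).val x.1.1) (M a b) *
      (x.1.2 a * x.1.2 b) = 0
    rw [← h1]
    exact Finset.sum_congr rfl fun a _ => Finset.sum_congr rfl fun b _ => by rw [aeval_down]⟩
  inv {R} _ _ y := ⟨(⟨Coord.val (R := R) (extC K (tF h (uM M))) y, by
    have h1 : IsUnit (@aeval k R _ _ (down k K R) (Coord.val (R := R)
      (extC K (tF h (uM M))) y) h) := y.1.1.2
    rw [aeval_down] at h1
    exact h1⟩, y.1.2), by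
    have h1 : ∑ a, ∑ b, @aeval k R _ _ (down k K R) (Coord.val (R := R)
      (extC K (tF h (uM M))) y) (M a b) * (y.1.2 a * y.1.2 b) = 0 := y.2
    change ∑ a, ∑ b, aeval (Coord.val (R := R) (extC K (tF h (uM M))) y)
      ((M a b).map (algebraMap k K)) * (y.1.2 a * y.1.2 b) = 0
    rw [← h1]
    exact Finset.sum_congr rfl fun a _ => Finset.sum_congr rfl fun b _ => by rw [aeval_down]⟩
  inv_hom _ := rfl
  hom_inv _ := rfl
  nat _ _ := rfl

end

theorem atc_inj {K : Type} [Field K] [Algebra k K] {c : K} (hc : Transcendental k c) :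
    Function.Injective (atc (k := k) c) :=
  map_injective _ (transcendental_iff_injective.1 hc)

/-- **nets of quadratic forms** -/
theorem net_mem [Finite k] [CharP k p] (hp : p.Prime) (hp2 : p ≠ 2) (hP : FormalClass p P)
    {m : ℕ} {h : k[X][X]} (h0 : h ≠ 0) (M : Matrix (Fin (2 * m + 1)) (Fin (2 * m + 1)) k[X][X])
    (hM : M.IsSymm) (hd : M.det ≠ 0) : (Net h M).Mem (Pk P k) := by
  have hrp : Rp (Net h M) := rp_net h M
  refine mem_fibration hp hP (zN h M) fun K _ _ _ _ G hG hW c => ?_
  have h2 : (2 : K) ≠ 0 := by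
    intro h2
    have h3 : ((2 : ℕ) : K) = 0 := by exact_mod_cast h2
    have h4 := (CharP.cast_eq_zero_iff K p 2).1 h3
    exact hp2 ((Nat.prime_dvd_prime_iff_eq hp Nat.prime_two).1 h4)
  by_cases hc : Transcendental k c
  · refine Mem.of_iso (netFib h M c) (qf_odd hG h2 m ?_ ((atc c).mapMatrix M) ?_ ?_)
    · rwa [Ne, map_eq_zero_iff _ (atc_inj hc)]
    · refine Matrix.ext fun a b => ?_
      change atc c (M b a) = atc c (M a b)
      rw [hM.apply]
    · rw [← RingHom.map_det]
      rwa [Ne, map_eq_zero_iff _ (atc_inj hc)]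
  · have halg : IsAlgebraic k c := by
      rw [Transcendental, not_not] at hc
      exact hc
    have hint : IsIntegral k c := halg.isIntegral
    let k' := IntermediateField.adjoin k {c}
    have hfd : FiniteDimensional k k' := IntermediateField.adjoin.finiteDimensional hint
    have hfin : Finite k' := Module.finite_of_finite k
    let c' : k' := ⟨c, IntermediateField.mem_adjoin_simple_self k c⟩
    have hk' : (p : k') = 0 := by
      rw [← map_natCast (algebraMap k k'), CharP.cast_eq_zero, map_zero]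
    have hmap : ∀ g : k[X][X], atc c g = (atc c' g).map (algebraMap k' K) := by
      intro g
      change g.map _ = (g.map _).map _
      rw [Polynomial.map_map]
      congr 1
      apply Polynomial.ringHom_ext
      · intro a
        change aeval c (C a) = algebraMap k' K (aeval c' (C a))
        rw [aeval_C, aeval_C]
        rfl
      · change aeval c X = algebraMap k' K (aeval c' X)
        rw [aeval_X, aeval_X]
        rfl
    refine Mem.of_iso (netFib h M c) ?_
    have h3 := CstP.mem (K := K) hG.toKOps hW (fam_fin hp hP hk' (atc c' h)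
      fun a b => atc c' (M a b))
    have h4 := Mem.of_iso (famExt (atc c' h) fun a b => atc c' (M a b)) h3
    rw [hmap h]
    have h5 : (fun a b => atc c (M a b)) = fun a b => (atc c' (M a b)).map (algebraMap k' K) := by
      funext a b
      exact hmap _
    rw [h5]
    exact h4

end Pool.Agent.Helper67.TQ
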