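import Pool.Agent.Helper67.TQ.Fibr
import Pool.Agent.Helper65.CC.Quadric

/-!
# Families of quadratic forms over the line
-/

set_option autoImplicit false

namespace Pool.Agent.Helper67.TQ

open Pool.Agent.Helper29.CQ Pool.Agent.Helper65.CC Pool.Agent.Helper87.CC
  Pool.Agent.Helper65.CC.KFn
open Pool.Agent.Helper29.PF (pw pwZero pwSucc rp_pw Zf rep_Zf)
open Polynomial

variable {K : Type} [Field K] {G : ∀ (R : Type) [CommRing R] [Algebra K R], Prop}

theorem mem_pwK (hG : KOps K G) {F : KFn K} (h : F.Mem G) (q : ℕ) : (pw F q).Mem G := by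
  induction q with
  | zero => exact Mem.of_iso (pwZero F) h
  | succ q ih => exact Mem.of_iso (pwSucc F q) (Mem.line hG ih)

/-- the quadratic form with the coefficients `c` over a functor -/
def QF (F : KFn K) {N : ℕ} (c : Fin N → Fin N → Coord F) : KFn K :=
  (pw F N).cls ⟨fun x => ∑ a, ∑ b, (c a b).val x.1 * (x.2 a * x.2 b), fun f x => by
    rw [map_sum]
    refine Finset.sum_congr rfl fun a _ => ?_
    rw [map_sum]
    refine Finset.sum_congr rfl fun b _ => ?_
    rw [map_mul, map_mul, (c a b).nat]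
    rfl⟩

instance (F : KFn K) [Rp F] {N : ℕ} (c : Fin N → Fin N → Coord F) : Rp (QF F c) := by
  unfold QF
  infer_instance

/-- the diagonal form with the coefficients `a` over a functor -/
def DG (F : KFn K) {N : ℕ} (a : Fin N → Coord F) : KFn K :=
  (pw F N).cls ⟨fun x => ∑ l, (a l).val x.1 * x.2 l ^ 2, fun f x => by
    rw [map_sum]
    refine Finset.sum_congr rfl fun l _ => ?_
    rw [map_mul, map_pow, (a l).nat]
    rfl⟩

instance (F : KFn K) [Rp F] {N : ℕ} (a : Fin N → Coord F) : Rp (DG F a) := by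
  unfold DG
  infer_instance

/-! ### One variable -/

theorem dg_one (hG : KOps K G) {F : KFn K} (h : F.Mem G) (a : Fin 1 → Coord F)
    (ha : ∀ {R : Type} [CommRing R] [Algebra K R] (x : F.obj R), IsUnit ((a 0).val x)) :
    (DG F a).Mem G := by
  have h0 : ∀ {R : Type} [CommRing R] [Algebra K R] (x : (DG F a).obj R), x.1.2 0 ^ 2 = 0 := by
    intro R _ _ x
    have h1 : ∑ l, (a l).val x.1.1 * x.1.2 l ^ 2 = 0 := x.2
    rw [Fin.sum_univ_one] at h1
    exact (ha x.1.1).mul_right_eq_zero.1 h1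
  refine Mem.glue hG ⟨fun x => x.1.2 0, fun _ _ => rfl⟩ ?_ ?_
  · refine Mem.of_trivial hG fun A _ _ x => ?_
    have h1 : IsUnit (x.1.1.2 0) := x.2
    have h2 := h0 x.1
    have h3 := h1.pow 2
    rw [h2] at h3
    exact subsingleton_of_zero_eq_one (isUnit_zero_iff.1 h3)
  · refine Mem.of_iso (F' := F) ?_ h
    exact
      { hom := fun x => x.1.1.1
        inv := fun {R} _ _ y => ⟨⟨(y, fun _ => 0), by
          change ∑ l, (a l).val y * (0 : R) ^ 2 = 0
          simp⟩, rfl⟩
        inv_hom := fun {R} _ _ x => by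
          apply Subtype.ext
          apply Subtype.ext
          refine Prod.ext rfl ?_
          funext i
          have h1 : x.1.1.2 0 = 0 := x.2
          rw [Fin.eq_zero i]
          exact h1.symm
        hom_inv := fun _ => rfl
        nat := fun _ _ => rfl }

/-! ### Hyperbolic planes -/

/-- `α β + ∑ b_l y_l ^ 2 = 0` -/
def HG (F : KFn K) {N : ℕ} (b : Fin N → Coord F) : KFn K :=
  (pw F N).line.line.cls ⟨fun x => x.1.2 * x.2 + ∑ l, (b l).val x.1.1.1 * x.1.1.2 l ^ 2,
    fun f x => by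
      rw [map_add, map_mul, map_sum]
      congr 1
      refine Finset.sum_congr rfl fun l _ => ?_
      rw [map_mul, map_pow, (b l).nat]
      rfl⟩

theorem hg_mem (hG : KOps K G) {F : KFn K} [Rp F] (h : F.Mem G) {N : ℕ} (b : Fin N → Coord F)
    (hb : (DG F b).Mem G) : (HG F b).Mem G := by
  have hp := mem_pwK hG h N
  refine Mem.glue hG ⟨fun x => x.1.2, fun _ _ => rfl⟩ ?_ ?_
  · refine Mem.of_iso (F' := (pw F N).line.opn (lineCoord _)) ?_
      (mem_opn hG _ (Mem.line hG hp) (Mem.of_iso (zeroSection _) hp))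
    exact
      { hom := fun x => ⟨(x.1.1.1.1, x.1.1.2), x.2⟩
        inv := fun {R} _ _ y => ⟨⟨((y.1.1, -(∑ l, (b l).val y.1.1.1 * y.1.1.2 l ^ 2) *
            Ring.inverse y.1.2), y.1.2), by
          have h1 : IsUnit y.1.2 := y.2
          have h2 := Ring.inverse_mul_cancel _ h1
          change -(∑ l, (b l).val y.1.1.1 * y.1.1.2 l ^ 2) * Ring.inverse y.1.2 * y.1.2 +
            ∑ l, (b l).val y.1.1.1 * y.1.1.2 l ^ 2 = 0
          rw [mul_assoc, h2, mul_one, neg_add_cancel]⟩, y.2⟩
        inv_hom := fun {R} _ _ x => by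
          apply Subtype.ext
          apply Subtype.ext
          refine Prod.ext (Prod.ext rfl ?_) rfl
          have h1 : IsUnit x.1.1.2 := x.2
          have h2 := Ring.mul_inverse_cancel _ h1
          have h3 : x.1.1.1.2 * x.1.1.2 + ∑ l, (b l).val x.1.1.1.1.1 * x.1.1.1.1.2 l ^ 2 = 0 :=
            x.1.2
          change -(∑ l, (b l).val x.1.1.1.1.1 * x.1.1.1.1.2 l ^ 2) * Ring.inverse x.1.1.2 =
            x.1.1.1.2
          linear_combination -Ring.inverse x.1.1.2 * h3 + x.1.1.1.2 * h2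
        hom_inv := fun _ => rfl
        nat := fun _ _ => rfl }
  · refine Mem.of_iso (F' := (DG F b).line) ?_ (Mem.line hG hb)
    exact
      { hom := fun {R} _ _ x => (⟨x.1.1.1.1, by
          have h1 : x.1.1.2 = 0 := x.2
          have h3 : x.1.1.1.2 * x.1.1.2 + ∑ l, (b l).val x.1.1.1.1.1 * x.1.1.1.1.2 l ^ 2 = 0 :=
            x.1.2
          rw [h1, mul_zero, zero_add] at h3
          exact h3⟩, x.1.1.1.2)
        inv := fun {R} _ _ y => ⟨⟨((y.1.1, y.2), 0), by
          have h1 : ∑ l, (b l).val y.1.1.1 * y.1.1.2 l ^ 2 = 0 := y.1.2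
          change y.2 * 0 + ∑ l, (b l).val y.1.1.1 * y.1.1.2 l ^ 2 = 0
          rw [mul_zero, zero_add, h1]⟩, rfl⟩
        inv_hom := fun {R} _ _ x => by
          apply Subtype.ext
          apply Subtype.ext
          refine Prod.ext rfl ?_
          have h1 : x.1.1.2 = 0 := x.2
          exact h1.symm
        hom_inv := fun _ => rfl
        nat := fun {R S} _ _ _ _ f x => rfl }

end Pool.Agent.Helper67.TQ
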