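import Pool.Agent.Helper67.TQ.Geo5
import Pool.Agent.Helper9.TP.Main

/-!
# Cyclic covers branched along three quadrics: the open part
-/

set_option autoImplicit false

namespace Pool.Agent.Helper67.TQ

open Pool.Agent.Helper29.CQ Pool.Agent.Helper65.CC Pool.Agent.Helper87.CC
  Pool.Agent.Helper65.CC.KFn
open Pool.Agent.Helper29.PF (Pk kops ftZ char0 StableClass)
open Pool.Agent.Helper9.TP (IsTri isTri_std tri_ft Tri TriClass QA qa_model untwist_tri)
open Pool.Agent.Helper9.QP (PK)
open Polynomial

variable {p : ℕ} {P : ∀ (A : Type) [CommRing A], Prop} {k : Type} [Field k]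

/-- the twisted cover is represented by the standard ring -/
theorem rep_tt {F : KFn k} {A : Type} [CommRing A] [Algebra k A] {a : F.obj A} (ha : F.Rep A a)
    (u : Coord F) {n s t : ℕ} {D : Type} [CommRing D] {i : A →+* D} {z v : D}
    (hD : IsTri i z v n s t (u.val a)) :
    let _ : Algebra k D := (i.comp (algebraMap k A)).toAlgebra
    ∃ pt, (TT F u n s t).Rep D pt := by
  intro _
  let ι : A →ₐ[k] D := { i with commutes' := fun _ => rfl }
  have hι : ∀ x, ι x = i x := fun _ => rfl
  refine ⟨⟨((F.map ι a, z), v), ?_⟩, ?_⟩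
  · change u.val (F.map ι a) * z ^ n - v ^ s * (1 - v) ^ t = 0
    rw [← u.nat, hι, hD.rel, sub_self]
  · intro R _ _ x
    obtain ⟨f, hf, hu⟩ := ha R x.1.1.1
    have hx : u.val x.1.1.1 * x.1.1.2 ^ n = x.1.2 ^ s * (1 - x.1.2) ^ t := sub_eq_zero.1 x.2
    obtain ⟨g, g1, g2, g3⟩ := hD.ex R (f : A →+* R) x.1.1.2 x.1.2 (by
      have h1 : (f : A →+* R) (u.val a) = u.val x.1.1.1 := by
        rw [← hf]
        exact u.nat f a
      rw [h1, hx])
    have g1' : ∀ y, g (i y) = f y := fun y => RingHom.congr_fun g1 y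
    let g' : D →ₐ[k] R :=
      { g with
        commutes' := fun c => by
          change g (i (algebraMap k A c)) = _
          rw [g1', f.commutes] }
    have hg' : g'.comp ι = f := AlgHom.ext fun y => g1' y
    refine ⟨g', ?_, ?_⟩
    · apply Subtype.ext
      refine Prod.ext (Prod.ext ?_ g2) g3
      change F.map g' (F.map ι a) = x.1.1.1
      rw [← F.comp_map, hg', hf]
    · intro h hh
      have h1 : h.comp ι = f := by
        apply hu
        rw [F.comp_map]
        exact congrArg (fun w => w.1.1.1) hh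
      have h2 : h z = x.1.1.2 := congrArg (fun w => w.1.1.2) hh
      have h3 : h v = x.1.2 := congrArg (fun w => w.1.2) hh
      apply AlgHom.coe_ringHom_injective
      refine hD.uniq R _ _ ?_ (h2.trans g2.symm) (h3.trans g3.symm)
      refine RingHom.ext fun y => ?_
      exact (DFunLike.congr_fun h1 y).trans (g1' y).symm

/-- the open part of the affine space -/
theorem lc_of_rep {N : ℕ} {w : MvPolynomial (Fin N) k} {u : Coord (AF k N)}
    (hu : ∀ {R : Type} [CommRing R] [Algebra k R] (y : Fin N → R),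
      u.val (F := AF k N) (R := R) y = MvPolynomial.aeval (R := k) y w) {A : Type} [CommRing A]
    [Algebra k A] {b : ((AF k N).opn u).obj A} (hb : ((AF k N).opn u).Rep A b) :
    IsLC ((MvPolynomial.aeval (R := k) (b.1 : Fin N → A) : MvPolynomial (Fin N) k →ₐ[k] A) :
      MvPolynomial (Fin N) k →+* A) ⊥ w where
  zero x hx := by rw [Ideal.mem_bot.1 hx, map_zero]
  unit := (iff_of_eq (congrArg IsUnit (hu (R := A) (b.1 : Fin N → A)))).1 b.2
  ex E _ v _ hv := by
    let _ : Algebra k E := (v.comp MvPolynomial.C).toAlgebra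
    let v' : MvPolynomial (Fin N) k →ₐ[k] E := { v with commutes' := fun _ => rfl }
    have hv' : MvPolynomial.aeval (R := k) (fun i => v (MvPolynomial.X i)) = v' := by
      apply MvPolynomial.algHom_ext
      intro i
      rw [MvPolynomial.aeval_X]
      rfl
    obtain ⟨g, hg, -⟩ := hb E ⟨(fun i => v (MvPolynomial.X i) : Fin N → E), by
      change IsUnit (u.val (F := AF k N) (R := E) fun i => v (MvPolynomial.X i))
      rw [hu, hv']
      exact hv⟩
    refine ⟨(g : A →+* E), ?_⟩
    have h1 : g.comp (MvPolynomial.aeval (R := k) (b.1 : Fin N → A)) = v' := by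
      apply MvPolynomial.algHom_ext
      intro i
      exact (congrArg g (MvPolynomial.aeval_X (R := k) (b.1 : Fin N → A) i)).trans
        (congrFun (congrArg Subtype.val hg) i)
    exact congrArg (fun h : MvPolynomial (Fin N) k →ₐ[k] E => (h : MvPolynomial (Fin N) k →+* E)) h1
  uniq E _ g g' hh := by
    let _ : Algebra k E := (g.comp (algebraMap k A)).toAlgebra
    have h0 : ∀ x, g (MvPolynomial.aeval (R := k) (b.1 : Fin N → A) x) =
        g' (MvPolynomial.aeval (R := k) (b.1 : Fin N → A) x) := fun x => RingHom.congr_fun hh x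
    let g1 : A →ₐ[k] E := { g with commutes' := fun _ => rfl }
    let g2 : A →ₐ[k] E :=
      { g' with
        commutes' := fun c => by
          have h3 := MvPolynomial.aeval_C (b.1 : Fin N → A) c
          exact ((congrArg g h3).symm.trans ((h0 (MvPolynomial.C c)).trans (congrArg g' h3))).symm }
    have h1 : g1 = g2 := by
      apply hb.ext
      apply Subtype.ext
      funext i
      have h2 := h0 (MvPolynomial.X i)
      have h3 := MvPolynomial.aeval_X (R := k) (b.1 : Fin N → A) i
      exact (congrArg g h3).symm.trans (h2.trans (congrArg g' h3))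
    exact congrArg (fun h : A →ₐ[k] E => (h : A →+* E)) h1

/-- **the open part**, `p ∤ n` -/
theorem qa_quad [Finite k] [CharP k p] (hp : p.Prime) (hP : TriClass p P) {N : ℕ}
    {q : Fin 3 → MvPolynomial (Fin N) k} (hQ : TD P (F := AF k N) fun l => vC (q l)) {n i j : ℕ}
    (hn : n ≠ 0) (hpn : ¬ p ∣ n) (hi : 0 < i) (hj : 0 < j) (hij : i.Coprime j) :
    QA P n (q 0 ^ i * q 2 ^ j) (q 1 ^ (i + j)) ⊥ (q 0 * q 1 * q 2) := by
  have hk : (p : k) = 0 := CharP.cast_eq_zero k p
  obtain ⟨b, hb⟩ := (rep_AF (k := k) N).opn (prC (F := AF k N) fun l => vC (q l))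
  obtain ⟨A, hA0, hA1, b, hft, hb⟩ : ∃ (A : Type) (_ : CommRing A) (_ : Algebra k A)
      (b : (X3 (F := AF k N) fun l => vC (q l)).obj A), Algebra.FiniteType k A ∧
      (X3 (F := AF k N) fun l => vC (q l)).Rep A b :=
    ⟨_, _, _, b, ft_away inferInstance _, hb⟩
  have hlc := lc_of_rep (w := q 0 * q 1 * q 2) (u := prC (F := AF k N) fun l => vC (q l))
    (fun {R} _ _ y => by
      rw [map_mul, map_mul]
      rfl) hb
  refine qa_model hP.toFormalClass hlc (a := (uC (F := AF k N) (fun l => vC (q l)) i j).val b) ?_ ?_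
  · have h1 := uC_mul (F := AF k N) (fun l => vC (q l)) i j b
    rw [map_mul, map_pow, map_pow, map_pow]
    exact h1
  · refine untwist_tri hP hpn hi hj A _ (uC_unit _ i j b) ?_
    have hD := isTri_std n i j ((uC (F := AF k N) (fun l => vC (q l)) i j).val b)
    obtain ⟨pt, hpt⟩ := rep_tt hb _ hD
    have hftD := tri_ft n i j ((uC (F := AF k N) (fun l => vC (q l)) i j).val b) (ftZ hft)
    have hmem := tt_mem hp hP.toStableClass hQ hn hi hj hij
    let _ : Algebra k (Tri A n i j ((uC (F := AF k N) (fun l => vC (q l)) i j).val b)) :=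
      (((AdjoinRoot.of (C (C ((uC (F := AF k N) (fun l => vC (q l)) i j).val b) * X ^ n) -
        X ^ i * (1 - X) ^ j : A[X][X])).comp C).comp (algebraMap k A)).toAlgebra
    exact hmem _ pt (Algebra.FiniteType.of_restrictScalars_finiteType ℤ k _) hpt

end Pool.Agent.Helper67.TQ
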