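import Pool.Agent.Helper67.TQ.Ring

/-!
# Cyclic covers of the open part: arbitrary exponents
-/

set_option autoImplicit false

namespace Pool.Agent.Helper67.TQ

open Pool.Agent.Helper29.CQ Pool.Agent.Helper65.CC Pool.Agent.Helper87.CC
  Pool.Agent.Helper65.CC.KFn
open Pool.Agent.Helper29.PF (Pk kops ftZ char0 StableClass root rep_root)
open Pool.Agent.Helper9.TP (IsTri isTri_std tri_ft Tri TriClass QA qa_model untwist_tri)
open Pool.Agent.Helper9.QP (PK)
open Polynomial

variable {p : ℕ} {P : ∀ (A : Type) [CommRing A], Prop} {k : Type} [Field k]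

/-- scaling -/
theorem TD.scale {F : KFn k} {Q Q' : Fin 3 → Coord F} (h : TD P Q) (c : Fin 3 → k)
    (hc : ∀ l, c l ≠ 0)
    (hQ : ∀ (l : Fin 3) {R : Type} [CommRing R] [Algebra k R] (y : F.obj R),
      (Q' l).val y = algebraMap k R (c l) * (Q l).val y) : TD P Q' where
  f := h.f
  c1 i := by
    refine Mem.of_iso ?_ (h.c1 i)
    have key : ∀ {R : Type} [CommRing R] [Algebra k R] (y : F.obj R),
        (Q' i).val y = 0 ↔ (Q i).val y = 0 := by
      intro R _ _ y
      rw [hQ]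
      exact (unit_const (hc i)).mul_right_eq_zero
    exact
      { hom := fun x => ⟨x.1, (key x.1).1 x.2⟩
        inv := fun x => ⟨x.1, (key x.1).2 x.2⟩
        inv_hom := fun _ => rfl
        hom_inv := fun _ => rfl
        nat := fun _ _ => rfl }
  c2 i j hij := by
    refine Mem.of_iso ?_ (h.c2 i j hij)
    have key : ∀ (i : Fin 3) {R : Type} [CommRing R] [Algebra k R] (y : F.obj R),
        (Q' i).val y = 0 ↔ (Q i).val y = 0 := by
      intro i R _ _ y
      rw [hQ]
      exact (unit_const (hc i)).mul_right_eq_zero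
    exact
      { hom := fun x => ⟨⟨x.1.1, (key i x.1.1).1 x.1.2⟩, (key j x.1.1).1 x.2⟩
        inv := fun x => ⟨⟨x.1.1, (key i x.1.1).2 x.1.2⟩, (key j x.1.1).2 x.2⟩
        inv_hom := fun _ => rfl
        hom_inv := fun _ => rfl
        nat := fun _ _ => rfl }
  n3 u ε a b h0 hε hab := by
    refine Mem.of_iso ?_ (h.n3 u (fun l => ε l * c l) a b h0
      (fun l => mul_ne_zero (hε l) (hc l)) hab)
    have key : ∀ {R : Type} [CommRing R] [Algebra k R] (x : (PL F u).obj R),
        (eqn Q' u ε a b).val x = (eqn Q u (fun l => ε l * c l) a b).val x := by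
      intro R _ _ x
      change ∑ l, algebraMap k R (ε l) * x.1.1.2 ^ a l * x.1.2 ^ b l * (Q' l).val x.1.1.1 =
        ∑ l, algebraMap k R (ε l * c l) * x.1.1.2 ^ a l * x.1.2 ^ b l * (Q l).val x.1.1.1
      refine Finset.sum_congr rfl fun l _ => ?_
      rw [hQ, map_mul]
      ring
    exact
      { hom := fun x => ⟨x.1, (key x.1).symm.trans x.2⟩
        inv := fun y => ⟨y.1, (key y.1).trans y.2⟩
        inv_hom := fun _ => rfl
        hom_inv := fun _ => rfl
        nat := fun _ _ => rfl }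

/-- coprime exponents -/
theorem root_cop [Finite k] [CharP k p] (hp : p.Prime) (hP : TriClass p P) {F : KFn k} [hF : Rp F]
    {Q : Fin 3 → Coord F} (hQ : TD P Q) {n i j : ℕ}
    (hn : n ≠ 0) (hpn : ¬ p ∣ n) (hi : 0 < i) (hj : 0 < j) (hij : i.Coprime j) :
    (root (X3 Q) (uC Q i j) n).Mem (Pk P k) := by
  have hk : (p : k) = 0 := CharP.cast_eq_zero k p
  have hX : Rp (X3 Q) := inferInstance
  obtain ⟨A, _, _, b, hft, hb⟩ := hX.out
  obtain ⟨c, hc⟩ := rep_root (uC Q i j) n hb
  refine Mem.of_rep (kops hP.toFormalClass hk) hc ?_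
  refine untwist_tri hP hpn hi hj A _ (uC_unit _ i j b) ?_
  have hD := isTri_std n i j ((uC Q i j).val b)
  obtain ⟨pt, hpt⟩ := rep_tt hb _ hD
  have hftD := tri_ft n i j ((uC Q i j).val b) (ftZ hft)
  have hmem := tt_mem hp hP.toStableClass hQ hn hi hj hij
  let _ : Algebra k (Tri A n i j ((uC Q i j).val b)) :=
    (((AdjoinRoot.of (C (C ((uC Q i j).val b) * X ^ n) -
      X ^ i * (1 - X) ^ j : A[X][X])).comp C).comp (algebraMap k A)).toAlgebra
  exact hmem _ pt (Algebra.FiniteType.of_restrictScalars_finiteType ℤ k _) hpt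

/-! ### Arbitrary exponents -/

section arith

variable {R : Type} [CommRing R] {α β n d : ℕ}

theorem root_fwd (h : α * d = β * n + 1) {w a c : R} (ha : IsUnit a) (hw : w ^ n = c * a ^ d) :
    (w ^ α * Ring.inverse (a ^ β)) ^ n = c ^ α * a := by
  have h1 := Ring.mul_inverse_cancel _ (ha.pow β)
  have h2 : (Ring.inverse (a ^ β)) ^ n * (a ^ β) ^ n = 1 := by
    rw [← mul_pow, mul_comm, h1, one_pow]
  calc (w ^ α * Ring.inverse (a ^ β)) ^ n
      = (w ^ n) ^ α * (Ring.inverse (a ^ β)) ^ n := by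
        rw [mul_pow, ← pow_mul, mul_comm α n, pow_mul]
    _ = c ^ α * a ^ (d * α) * (Ring.inverse (a ^ β)) ^ n := by rw [hw, mul_pow, ← pow_mul]
    _ = c ^ α * a * ((Ring.inverse (a ^ β)) ^ n * (a ^ β) ^ n) := by
        rw [mul_comm d α, h, pow_succ, ← pow_mul]
        ring
    _ = c ^ α * a := by rw [h2, mul_one]

theorem root_back {α β n d : ℕ} (h : α * d = β * n + 1) {t a c : R} (hc : IsUnit c)
    (ht : t ^ n = c ^ α * a) :
    (t ^ d * Ring.inverse (c ^ β)) ^ n = c * a ^ d := by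
  have h1 := Ring.mul_inverse_cancel _ (hc.pow β)
  have h2 : (Ring.inverse (c ^ β)) ^ n * (c ^ β) ^ n = 1 := by
    rw [← mul_pow, mul_comm, h1, one_pow]
  calc (t ^ d * Ring.inverse (c ^ β)) ^ n
      = (t ^ n) ^ d * (Ring.inverse (c ^ β)) ^ n := by
        rw [mul_pow, ← pow_mul, mul_comm d n, pow_mul]
    _ = c ^ (α * d) * a ^ d * (Ring.inverse (c ^ β)) ^ n := by rw [ht, mul_pow, ← pow_mul]
    _ = c * a ^ d * ((Ring.inverse (c ^ β)) ^ n * (c ^ β) ^ n) := by
        rw [h, pow_succ, ← pow_mul]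
        ring
    _ = c * a ^ d := by rw [h2, mul_one]

theorem root_fb {α β n d : ℕ} (h : α * d = β * n + 1) {w a c : R} (ha : IsUnit a) (hc : IsUnit c)
    (hw : w ^ n = c * a ^ d) :
    (w ^ α * Ring.inverse (a ^ β)) ^ d * Ring.inverse (c ^ β) = w := by
  have h1 := Ring.mul_inverse_cancel _ (hc.pow β)
  have h2 := Ring.mul_inverse_cancel _ (ha.pow β)
  have h3 : (Ring.inverse (a ^ β)) ^ d * (a ^ β) ^ d = 1 := by
    rw [← mul_pow, mul_comm, h2, one_pow]
  calc (w ^ α * Ring.inverse (a ^ β)) ^ d * Ring.inverse (c ^ β)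
      = w ^ (α * d) * (Ring.inverse (a ^ β)) ^ d * Ring.inverse (c ^ β) := by
        rw [mul_pow, ← pow_mul]
    _ = (w ^ n) ^ β * w * (Ring.inverse (a ^ β)) ^ d * Ring.inverse (c ^ β) := by
        rw [h, pow_succ, mul_comm β n, pow_mul]
    _ = w * ((Ring.inverse (a ^ β)) ^ d * (a ^ β) ^ d) * (c ^ β * Ring.inverse (c ^ β)) := by
        rw [hw, mul_pow, ← pow_mul, ← pow_mul, mul_comm d β]
        ring
    _ = w := by rw [h1, h3, mul_one, mul_one]

theorem root_bf {α β n d : ℕ} (h : α * d = β * n + 1) {t a c : R} (ha : IsUnit a) (hc : IsUnit c)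
    (ht : t ^ n = c ^ α * a) :
    (t ^ d * Ring.inverse (c ^ β)) ^ α * Ring.inverse (a ^ β) = t := by
  have h1 := Ring.mul_inverse_cancel _ (hc.pow β)
  have h2 := Ring.mul_inverse_cancel _ (ha.pow β)
  have h3 : (Ring.inverse (c ^ β)) ^ α * (c ^ β) ^ α = 1 := by
    rw [← mul_pow, mul_comm, h1, one_pow]
  calc (t ^ d * Ring.inverse (c ^ β)) ^ α * Ring.inverse (a ^ β)
      = t ^ (α * d) * (Ring.inverse (c ^ β)) ^ α * Ring.inverse (a ^ β) := by
        rw [mul_pow, ← pow_mul, mul_comm d α]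
    _ = (t ^ n) ^ β * t * (Ring.inverse (c ^ β)) ^ α * Ring.inverse (a ^ β) := by
        rw [h, pow_succ, mul_comm β n, pow_mul]
    _ = t * ((Ring.inverse (c ^ β)) ^ α * (c ^ β) ^ α) * (a ^ β * Ring.inverse (a ^ β)) := by
        rw [ht, mul_pow, ← pow_mul, ← pow_mul, mul_comm α β]
        ring
    _ = t := by rw [h2, h3, mul_one, mul_one]

end arith

/-! ### The fibres over the roots of unity -/

section fib

variable {F : KFn k} (Q : Fin 3 → Coord F)

/-- powers -/
theorem uC_pow (i j d : ℕ) {R : Type} [CommRing R] [Algebra k R] (x : (X3 Q).obj R) :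
    (uC Q (d * i) (d * j)).val x = (uC Q i j).val x ^ d := by
  have h1 := uC_mul Q (d * i) (d * j) x
  have h2 := uC_mul Q i j x
  have h3 : IsUnit ((Q 1).val x.1 ^ (d * i + d * j)) := (x3_unit x 1).pow _
  apply h3.mul_right_cancel
  rw [h1, ← mul_add, mul_comm d i, mul_comm d j, mul_comm d (i + j), pow_mul, pow_mul, pow_mul,
    ← mul_pow, ← mul_pow, h2]

/-- the cover -/
noncomputable abbrev R0 (i j d m e : ℕ) : KFn k :=
  root (X3 Q) (uC Q (d * e * i) (d * e * j)) (m * e)

/-- the root of unity -/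
noncomputable def bR (i j d m e : ℕ) : Coord (R0 Q i j d m e) where
  val x := x.1.2 ^ m * Ring.inverse ((uC Q i j).val x.1.1 ^ d)
  nat f x := by
    rw [map_mul, map_pow, inv_nat f ((uC_unit Q i j x.1.1).pow d), map_pow, (uC Q i j).nat]
    rfl

theorem bR_pow {i j d m e : ℕ} {R : Type} [CommRing R] [Algebra k R]
    (x : (R0 Q i j d m e).obj R) : (bR Q i j d m e).val x ^ e = 1 := by
  have h1 : x.1.2 ^ (m * e) = (uC Q (d * e * i) (d * e * j)).val x.1.1 := sub_eq_zero.1 x.2
  have h2 := Ring.mul_inverse_cancel _ ((uC_unit Q i j x.1.1).pow d)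
  rw [uC_pow] at h1
  change (x.1.2 ^ m * Ring.inverse ((uC Q i j).val x.1.1 ^ d)) ^ e = 1
  rw [mul_pow, ← pow_mul, h1, pow_mul, ← mul_pow, h2, one_pow]

theorem bR_eq {i j d m e : ℕ} {R : Type} [CommRing R] [Algebra k R]
    (x : (R0 Q i j d m e).obj R) {c : R} (hc : (bR Q i j d m e).val x = c) :
    x.1.2 ^ m = c * (uC Q i j).val x.1.1 ^ d := by
  have h2 := Ring.inverse_mul_cancel _ ((uC_unit Q i j x.1.1).pow d)
  rw [← hc]
  change _ = (x.1.2 ^ m * Ring.inverse ((uC Q i j).val x.1.1 ^ d)) * (uC Q i j).val x.1.1 ^ d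
  linear_combination (-(x.1.2 ^ m)) * h2

end fib

section two

variable {N : ℕ} {k' : Type} [Field k'] [Algebra k k'] {K : Type} [Field K] [Algebra k K]
  [Algebra k' K] [IsScalarTower k k' K]

/-- the forms over the extension, with factors -/
noncomputable def qs (q : Fin 3 → MvPolynomial (Fin N) k) (l : Fin 3 → k') :
    Fin 3 → MvPolynomial (Fin N) k' :=
  fun i => MvPolynomial.C (l i) * MvPolynomial.map (algebraMap k k') (q i)

theorem qs_val (q : Fin 3 → MvPolynomial (Fin N) k) (l : Fin 3 → k') (i : Fin 3) {R : Type}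
    [CommRing R] [Algebra K R] (y : Fin N → R) :
    @Coord.val k' _ _ (vC (qs q l i)) R _ (down k' K R) y =
      algebraMap K R (algebraMap k' K (l i)) * @Coord.val k _ _ (vC (q i)) R _ (down k K R) y := by
  let _ : Algebra k R := down k K R
  let _ : Algebra k' R := down k' K R
  change MvPolynomial.aeval (R := k') y (qs q l i) = _ * MvPolynomial.aeval (R := k) y (q i)
  unfold qs
  rw [map_mul, MvPolynomial.aeval_C]
  congr 1
  rw [MvPolynomial.aeval_def, MvPolynomial.aeval_def, MvPolynomial.eval₂_map]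
  congr 1
  refine RingHom.ext fun c => ?_
  change algebraMap K R (algebraMap k' K (algebraMap k k' c)) = algebraMap K R (algebraMap k K c)
  rw [IsScalarTower.algebraMap_apply k k' K c]

/-- the points of the two open parts agree -/
theorem qs_unit (q : Fin 3 → MvPolynomial (Fin N) k) {l : Fin 3 → k'} (hl : ∀ i, l i ≠ 0)
    {R : Type} [CommRing R] [Algebra K R] (y : Fin N → R) :
    IsUnit (@Coord.val k' _ _ (prC (F := AF k' N) fun i => vC (qs q l i)) R _ (down k' K R) y) ↔
      IsUnit (@Coord.val k _ _ (prC (F := AF k N) fun i => vC (q i)) R _ (down k K R) y) := by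
  have h1 : @Coord.val k' _ _ (prC (F := AF k' N) fun i => vC (qs q l i)) R _ (down k' K R) y =
      algebraMap K R (algebraMap k' K (l 0 * l 1 * l 2)) *
        @Coord.val k _ _ (prC (F := AF k N) fun i => vC (q i)) R _ (down k K R) y := by
    change @Coord.val k' _ _ (vC (qs q l 0)) R _ (down k' K R) y *
      @Coord.val k' _ _ (vC (qs q l 1)) R _ (down k' K R) y *
      @Coord.val k' _ _ (vC (qs q l 2)) R _ (down k' K R) y = _ *
      (@Coord.val k _ _ (vC (q 0)) R _ (down k K R) y *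
      @Coord.val k _ _ (vC (q 1)) R _ (down k K R) y *
      @Coord.val k _ _ (vC (q 2)) R _ (down k K R) y)
    rw [qs_val, qs_val, qs_val]
    simp only [map_mul]
    ring
  rw [h1]
  have h2 : IsUnit (algebraMap K R (algebraMap k' K (l 0 * l 1 * l 2))) :=
    unit_const ((map_ne_zero_iff _ (algebraMap k' K).injective).2
      (mul_ne_zero (mul_ne_zero (hl 0) (hl 1)) (hl 2)))
  exact ⟨fun h => isUnit_of_mul_isUnit_right h, fun h => h2.mul h⟩

/-- the quotients -/
theorem qs_uC (q : Fin 3 → MvPolynomial (Fin N) k) {l : Fin 3 → k'} {i j : ℕ} {c : K}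
    (hc : algebraMap k' K (l 0) ^ i * algebraMap k' K (l 2) ^ j =
      c * algebraMap k' K (l 1) ^ (i + j))
    {R : Type} [CommRing R] [Algebra K R]
    (y : @KFn.obj k _ (X3 (F := AF k N) fun i => vC (q i)) R _ (down k K R))
    (y' : @KFn.obj k' _ (X3 (F := AF k' N) fun i => vC (qs q l i)) R _ (down k' K R))
    (hy : (y.1 : Fin N → R) = y'.1) :
    @Coord.val k' _ _ (uC (F := AF k' N) (fun i => vC (qs q l i)) i j) R _ (down k' K R) y' =
      algebraMap K R c *
        @Coord.val k _ _ (uC (F := AF k N) (fun i => vC (q i)) i j) R _ (down k K R) y := by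
  have h1 := @uC_mul k' _ (AF k' N) (fun i => vC (qs q l i)) i j R _ (down k' K R) y'
  have h2 := @uC_mul k _ (AF k N) (fun i => vC (q i)) i j R _ (down k K R) y
  have h3 : IsUnit (@Coord.val k' _ _ (vC (qs q l 1)) R _ (down k' K R) y'.1 ^ (i + j)) :=
    (@x3_unit k' _ (AF k' N) (fun i => vC (qs q l i)) R _ (down k' K R) y' 1).pow _
  apply h3.mul_right_cancel
  refine h1.trans ?_
  have e := fun t => qs_val (K := K) q l t (R := R) (y.1 : Fin N → R)
  rw [← hy]
  rw [e 0, e 2, e 1]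
  have h4 := congrArg (algebraMap K R) hc
  simp only [map_mul, map_pow] at h4
  rw [mul_pow, mul_pow, mul_pow]
  linear_combination (@Coord.val k _ _ (vC (q 0)) R _ (down k K R) y.1 ^ i *
    @Coord.val k _ _ (vC (q 2)) R _ (down k K R) y.1 ^ j) * h4 -
    (algebraMap K R c * algebraMap K R (algebraMap k' K (l 1)) ^ (i + j)) * h2

/-- the fibre over a root of unity -/
noncomputable def rtFib (q : Fin 3 → MvPolynomial (Fin N) k) {l : Fin 3 → k'}
    (hl : ∀ i, l i ≠ 0) {i j d m e α β : ℕ} {c : K} (hc0 : c ≠ 0) (hce : c ^ e = 1)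
    (h : α * d = β * m + 1)
    (hc : algebraMap k' K (l 0) ^ i * algebraMap k' K (l 2) ^ j =
      c ^ α * algebraMap k' K (l 1) ^ (i + j)) :
    Iso ((ext K (R0 (F := AF k N) (fun t => vC (q t)) i j d m e)).cls
      (subC (extC K (bR (F := AF k N) (fun t => vC (q t)) i j d m e)) c))
      (ext K (root (X3 (F := AF k' N) fun t => vC (qs q l t))
        (uC (F := AF k' N) (fun t => vC (qs q l t)) i j) m)) where
  hom {R} _ _ x := ⟨(⟨x.1.1.1.1, (qs_unit q hl (R := R) x.1.1.1.1).2 x.1.1.1.2⟩,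
      (x.1.1.2 : R) ^ α * Ring.inverse (@Coord.val k _ _ (uC (F := AF k N) (fun t => vC (q t)) i j)
        R _ (down k K R) x.1.1.1 ^ β)), by
    have h1 := @bR_eq k _ _ (fun t => vC (q t)) i j d m e R _ (down k K R) x.1
      (c := algebraMap K R c) (sub_eq_zero.1 x.2)
    have h2 := @uC_unit k _ _ (fun t => vC (q t)) i j R _ (down k K R) x.1.1.1
    have h3 := qs_uC q hc (R := R) x.1.1.1
      ⟨x.1.1.1.1, (qs_unit q hl (R := R) x.1.1.1.1).2 x.1.1.1.2⟩ rfl
    refine sub_eq_zero.2 ((root_fwd h h2 h1).trans ?_)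
    rw [← map_pow]
    exact h3.symm⟩
  inv {R} _ _ y := ⟨⟨(⟨y.1.1.1, (qs_unit q hl (R := R) y.1.1.1).1 y.1.1.2⟩,
      (y.1.2 : R) ^ d * Ring.inverse (algebraMap K R c ^ β)), by
    have h3 := qs_uC q hc (R := R)
      ⟨y.1.1.1, (qs_unit q hl (R := R) y.1.1.1).1 y.1.1.2⟩ y.1.1 rfl
    have h4 : (y.1.2 : R) ^ m = _ := sub_eq_zero.1 y.2
    rw [map_pow] at h3
    have h5 := root_back h (unit_const hc0) (h4.trans h3)
    have h6 := @uC_pow k _ _ (fun t => vC (q t)) i j (d * e) R _ (down k K R)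
      ⟨y.1.1.1, (qs_unit q hl (R := R) y.1.1.1).1 y.1.1.2⟩
    refine sub_eq_zero.2 ((pow_mul _ m e).trans ((congrArg (· ^ e) h5).trans
      (Eq.trans ?_ h6.symm)))
    rw [mul_pow, ← map_pow, hce, map_one, one_mul, pow_mul]⟩, by
    have h3 := qs_uC q hc (R := R)
      ⟨y.1.1.1, (qs_unit q hl (R := R) y.1.1.1).1 y.1.1.2⟩ y.1.1 rfl
    have h4 : (y.1.2 : R) ^ m = _ := sub_eq_zero.1 y.2
    rw [map_pow] at h3
    have h5 := root_back h (unit_const hc0) (h4.trans h3)
    have h6 := @uC_unit k _ _ (fun t => vC (q t)) i j R _ (down k K R)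
      ⟨y.1.1.1, (qs_unit q hl (R := R) y.1.1.1).1 y.1.1.2⟩
    have h7 := Ring.mul_inverse_cancel _ (h6.pow d)
    refine sub_eq_zero.2 ((congrArg (· * Ring.inverse _) h5).trans ?_)
    rw [mul_assoc, h7, mul_one]⟩
  inv_hom {R} _ _ x := by
    have h1 := @bR_eq k _ _ (fun t => vC (q t)) i j d m e R _ (down k K R) x.1
      (c := algebraMap K R c) (sub_eq_zero.1 x.2)
    have h2 := @uC_unit k _ _ (fun t => vC (q t)) i j R _ (down k K R) x.1.1.1
    exact Subtype.ext (Subtype.ext (Prod.ext rfl (root_fb h h2 (unit_const hc0) h1)))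
  hom_inv {R} _ _ y := by
    have h3 := qs_uC q hc (R := R)
      ⟨y.1.1.1, (qs_unit q hl (R := R) y.1.1.1).1 y.1.1.2⟩ y.1.1 rfl
    have h4 : (y.1.2 : R) ^ m = _ := sub_eq_zero.1 y.2
    rw [map_pow] at h3
    have h6 := @uC_unit k _ _ (fun t => vC (q t)) i j R _ (down k K R)
      ⟨y.1.1.1, (qs_unit q hl (R := R) y.1.1.1).1 y.1.1.2⟩
    exact Subtype.ext (Prod.ext rfl (root_bf h h6 (unit_const hc0) (h4.trans h3)))
  nat {R S} _ _ _ _ f x := by
    refine Subtype.ext (Prod.ext rfl ?_)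
    have h2 := @uC_unit k _ _ (fun t => vC (q t)) i j R _ (down k K R) x.1.1.1
    have h3 := @Coord.nat k _ _ (uC (F := AF k N) (fun t => vC (q t)) i j) R S _ _ (down k K R)
      (down k K S) (dhom k f) x.1.1.1
    change f ((x.1.1.2 : R) ^ α * Ring.inverse (@Coord.val k _ _
      (uC (F := AF k N) (fun t => vC (q t)) i j) R _ (down k K R) x.1.1.1 ^ β)) = _
    rw [map_mul, map_pow, inv_nat f (h2.pow β), map_pow]
    exact congrArg (fun t => f (x.1.1.2 : R) ^ α * Ring.inverse (t ^ β)) h3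

end two

/-- the data over all finite extensions -/
def TDA (P : ∀ (A : Type) [CommRing A], Prop) {N : ℕ} (q : Fin 3 → MvPolynomial (Fin N) k) :
    Prop :=
  ∀ (k' : Type) [Field k'] [Finite k'] [Algebra k k'],
    TD P (F := AF k' N) fun l => vC (MvPolynomial.map (algebraMap k k') (q l))

theorem TDA.td [Finite k] {N : ℕ} {q : Fin 3 → MvPolynomial (Fin N) k} (h : TDA P q) :
    TD P (F := AF k N) fun l => vC (q l) := by
  have h1 := h k
  have h2 : ∀ l, MvPolynomial.map (algebraMap k k) (q l) = q l := fun l => MvPolynomial.map_id _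
  simp only [h2] at h1
  exact h1

theorem bez {i j : ℕ} (hi : 0 < i) (hj : 0 < j) (hij : i.Coprime j) :
    ∃ α β : ℕ, α * i = β * j + 1 := by
  obtain ⟨a, b, hab⟩ : ∃ a b : ℤ, a * i + b * j = 1 := by
    have h1 := Nat.gcd_eq_gcd_ab i j
    rw [Nat.Coprime.gcd_eq_one hij] at h1
    refine ⟨i.gcdA j, i.gcdB j, ?_⟩
    push_cast at h1
    linear_combination -h1
  obtain ⟨t, ht⟩ : ∃ t : ℕ, 0 ≤ a + t * j ∧ 0 ≤ t * i - b := by
    refine ⟨a.natAbs + b.natAbs, ?_, ?_⟩
    · have h1 : (1 : ℤ) ≤ j := by exact_mod_cast hj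
      have h2 : |a| ≤ ((a.natAbs + b.natAbs : ℕ) : ℤ) := by
        push_cast
        linarith [abs_nonneg b]
      have h3 := neg_abs_le a
      nlinarith [abs_nonneg a]
    · have h1 : (1 : ℤ) ≤ i := by exact_mod_cast hi
      have h2 : |b| ≤ ((a.natAbs + b.natAbs : ℕ) : ℤ) := by
        push_cast
        linarith [abs_nonneg a]
      have h3 := le_abs_self b
      nlinarith [abs_nonneg b]
  obtain ⟨α, hα⟩ := Int.eq_ofNat_of_zero_le ht.1
  obtain ⟨β, hβ⟩ := Int.eq_ofNat_of_zero_le ht.2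
  refine ⟨α, β, ?_⟩
  have h1 : (α : ℤ) * i = β * j + 1 := by
    rw [← hα, ← hβ]
    linear_combination hab
  exact_mod_cast h1

/-- **arbitrary exponents** -/
theorem root_all [Finite k] [CharP k p] (hp : p.Prime) (hP : TriClass p P) {N : ℕ}
    {q : Fin 3 → MvPolynomial (Fin N) k} (hq : TDA P q) {n i j : ℕ}
    (hn : n ≠ 0) (hpn : ¬ p ∣ n) (hi : 0 < i) (hj : 0 < j) :
    (root (X3 (F := AF k N) fun l => vC (q l)) (uC (F := AF k N) (fun l => vC (q l)) i j) n).Mem
      (Pk P k) := by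
  obtain ⟨D, i', j', hD, hij, rfl, rfl⟩ := Nat.exists_coprime' (Nat.gcd_pos_of_pos_left j hi)
  obtain ⟨e, m, d, he, hmd, rfl, rfl⟩ := Nat.exists_coprime'
    (Nat.gcd_pos_of_pos_left D (Nat.pos_of_ne_zero hn))
  have hi' : 0 < i' := Nat.pos_of_ne_zero fun h => by simp [h] at hi
  have hj' : 0 < j' := Nat.pos_of_ne_zero fun h => by simp [h] at hj
  have hd : 0 < d := Nat.pos_of_ne_zero fun h => by simp [h] at hD
  have hm : m ≠ 0 := fun h => hn (by rw [h, zero_mul])
  have hpm : ¬ p ∣ m := fun h => hpn (h.mul_right e)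
  obtain ⟨α, β, hαβ⟩ := bez hd (Nat.pos_of_ne_zero hm) hmd.symm
  obtain ⟨α', β', hαβ'⟩ := bez hi' hj' hij
  rw [mul_comm i', mul_comm j']
  have hrp : Rp (R0 (F := AF k N) (fun t => vC (q t)) i' j' d m e) := by
    unfold R0
    infer_instance
  refine mem_fibration hp hP.toFormalClass (bR (F := AF k N) (fun t => vC (q t)) i' j' d m e)
    fun K _ _ _ _ G hG hW c => ?_
  by_cases hc : c ^ e = 1
  · have hc0 : c ≠ 0 := by
      rintro rfl
      rw [zero_pow he.ne'] at hc
      exact zero_ne_one hc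
    have hint : IsIntegral k c := by
      refine ⟨X ^ e - 1, ?_, ?_⟩
      · exact monic_X_pow_sub_C (1 : k) he.ne'
      · rw [eval₂_sub, eval₂_X_pow, eval₂_one, hc, sub_self]
    let k' := IntermediateField.adjoin k {c}
    have hfd : FiniteDimensional k k' := IntermediateField.adjoin.finiteDimensional hint
    have hfin : Finite k' := Module.finite_of_finite k
    have hch : CharP k' p := charP_of_injective_algebraMap (algebraMap k k').injective p
    let c' : k' := ⟨c, IntermediateField.mem_adjoin_simple_self k c⟩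
    have hcc : algebraMap k' K c' = c := rfl
    have hc0' : c' ≠ 0 := fun h => hc0 (by rw [← hcc, h, map_zero])
    let l : Fin 3 → k' := ![(c' ^ α) ^ α', 1, ((c' ^ α)⁻¹) ^ β']
    have hl : ∀ t, l t ≠ 0 := by
      intro t
      fin_cases t
      · exact pow_ne_zero _ (pow_ne_zero _ hc0')
      · exact one_ne_zero
      · exact pow_ne_zero _ (inv_ne_zero (pow_ne_zero _ hc0'))
    have hl2 : algebraMap k' K (l 0) ^ i' * algebraMap k' K (l 2) ^ j' =
        c ^ α * algebraMap k' K (l 1) ^ (i' + j') := by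
      have h1 : l 0 ^ i' * l 2 ^ j' = c' ^ α := by
        change ((c' ^ α) ^ α') ^ i' * (((c' ^ α)⁻¹) ^ β') ^ j' = c' ^ α
        rw [← pow_mul, ← pow_mul (c' ^ α)⁻¹, hαβ', pow_succ, inv_pow, mul_right_comm,
          mul_inv_cancel₀ (pow_ne_zero _ (pow_ne_zero _ hc0')), one_mul]
      have h2 : l 1 = 1 := rfl
      rw [h2, map_one, one_pow, mul_one, ← map_pow, ← map_pow, ← map_mul, h1, map_pow, hcc]
    have hTD : TD P (F := AF k' N) fun t => vC (qs q l t) := by
      refine TD.scale (hq k') l hl fun t {R} _ _ y => ?_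
      change MvPolynomial.aeval (R := k') (y : Fin N → R)
        (MvPolynomial.C (l t) * MvPolynomial.map (algebraMap k k') (q t)) = _
      rw [map_mul, MvPolynomial.algHom_C]
      rfl
    have h1 := root_cop hp hP hTD hm hpm hi' hj' hij
    exact Mem.of_iso (rtFib q hl hc0 hc hαβ hl2) (CstP.mem hG.toKOps hW h1)
  · refine Mem.of_trivial hG.toKOps fun R _ _ x => ?_
    have h1 := @bR_pow k _ (AF k N) (fun t => vC (q t)) i' j' d m e R _ (down k K R) x.1
    have h2 : @Coord.val k _ _ (bR (F := AF k N) (fun t => vC (q t)) i' j' d m e) R _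
      (down k K R) x.1 = algebraMap K R c := sub_eq_zero.1 x.2
    rw [h2, ← map_pow] at h1
    have h3 : IsUnit (algebraMap K R (c ^ e - 1)) := unit_const (sub_ne_zero.2 hc)
    rw [map_sub, h1, map_one, sub_self] at h3
    exact subsingleton_of_zero_eq_one (isUnit_zero_iff.1 h3)

end Pool.Agent.Helper67.TQ
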