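import Pool.Agent.Helper67.TQ.Insep
import Pool.Agent.Helper9.TP.Forms

/-!
# Cyclic covers branched along three quadrics
-/

set_option autoImplicit false

namespace Pool.Agent.Helper67.TQ

open Pool.Agent.Helper29.CQ Pool.Agent.Helper65.CC Pool.Agent.Helper87.CC
  Pool.Agent.Helper65.CC.KFn
open Pool.Agent.Helper29.PF (Pk kops ftZ char0 StableClass root rep_root)
open Pool.Agent.Helper9.TP (TriClass bin_tower)
open Pool.Agent.Helper9.QP (Gen)
open Polynomial

variable {p : ℕ} {P : ∀ (A : Type) [CommRing A], Prop} {k : Type} [Field k]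

/-! ### Base change of the matrices -/

theorem map_qp {k' : Type} [Field k'] (f : k →+* k') {N : ℕ} (A : Matrix (Fin N) (Fin N) k) :
    MvPolynomial.map f (qp A) = qp (A.map f) := by
  unfold qp
  rw [map_sum]
  refine Finset.sum_congr rfl fun a _ => ?_
  rw [map_sum]
  refine Finset.sum_congr rfl fun b _ => ?_
  rw [map_mul, map_mul, MvPolynomial.map_C, MvPolynomial.map_X, MvPolynomial.map_X,
    Matrix.map_apply]

theorem net3_map {k' : Type} [Field k'] (f : k →+* k') {N : ℕ}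
    {A : Fin 3 → Matrix (Fin N) (Fin N) k} (h : (net3 A).det ≠ 0) :
    (net3 fun l => (A l).map f).det ≠ 0 := by
  have h1 : (net3 fun l => (A l).map f) = (MvPolynomial.map f).mapMatrix (net3 A) := by
    refine Matrix.ext fun a b => ?_
    change ∑ l, MvPolynomial.C (f (A l a b)) * MvPolynomial.X l =
      MvPolynomial.map f (∑ l, MvPolynomial.C (A l a b) * MvPolynomial.X l)
    rw [map_sum]
    refine Finset.sum_congr rfl fun l _ => ?_
    rw [map_mul, MvPolynomial.map_C, MvPolynomial.map_X]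
  rw [h1, ← RingHom.map_det]
  exact (map_ne_zero_iff _ (MvPolynomial.map_injective f f.injective)).2 h

theorem symm_map {k' : Type} [Field k'] (f : k →+* k') {N : ℕ} {A : Matrix (Fin N) (Fin N) k}
    (h : A.IsSymm) : (A.map f).IsSymm := by
  refine Matrix.ext fun a b => ?_
  change f (A b a) = f (A a b)
  rw [h.apply]

theorem tda_quad [Finite k] [CharP k p] (hp : p.Prime) (hp2 : p ≠ 2) (hP : FormalClass p P)
    {m : ℕ} (A : Fin 3 → Matrix (Fin (2 * m + 1)) (Fin (2 * m + 1)) k)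
    (hA : ∀ l, (A l).IsSymm) (hd : (net3 A).det ≠ 0) : TDA P fun l => qp (A l) := by
  intro k' _ _ _
  have hch : CharP k' p := charP_of_injective_algebraMap (algebraMap k k').injective p
  simp only [map_qp]
  exact td_quad hp hp2 hP (fun l => (A l).map (algebraMap k k')) (fun l => symm_map _ (hA l))
    (net3_map _ hd)

theorem TDA.map {N : ℕ} {q : Fin 3 → MvPolynomial (Fin N) k} (h : TDA P q) (φ : k →+* k) :
    TDA P fun l => MvPolynomial.map φ (q l) := by
  intro k' _ _ _
  have h1 := @h k' _ _ ((algebraMap k k').comp φ).toAlgebra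
  have h2 : ∀ l, MvPolynomial.map (algebraMap k k') (MvPolynomial.map φ (q l)) =
      MvPolynomial.map ((algebraMap k k').comp φ) (q l) := fun l => MvPolynomial.map_map _ _ _
  simp only [h2]
  exact h1

/-- **all the cyclic covers** -/
theorem gen_all [Finite k] [CharP k p] (hp : p.Prime) (hP : TriClass p P) {N : ℕ} {i j : ℕ}
    (hi : 0 < i) (hj : 0 < j) {n : ℕ} (hn : 0 < n) {q : Fin 3 → MvPolynomial (Fin N) k}
    (hq : TDA P q) :
    P (Gen (MvPolynomial (Fin N) k) n (q 1 ^ (i + j)) (q 0 ^ i * q 2 ^ j)) := by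
  have : Fact p.Prime := ⟨hp⟩
  have hk : (p : k) = 0 := CharP.cast_eq_zero k p
  induction n using Nat.strong_induction_on generalizing q with
  | _ n ih =>
    by_cases hpn : p ∣ n
    · obtain ⟨n', rfl⟩ := hpn
      obtain ⟨φ, hφ⟩ := exists_frob (k := k) hk
      have hn' : 0 < n' := Nat.pos_of_mul_pos_left hn
      refine insepN hP.toFormalClass hk (hφ _) _ _ ?_
      have h1 := ih n' (lt_mul_of_one_lt_left hn' hp.one_lt) hn' (hq.map φ)
      rw [map_mul, map_pow, map_pow, map_pow]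
      exact h1
    · exact gen_tame hp hP hq hn.ne' hpn hi hj

/-! ### The branch locus -/

section

variable {N : ℕ} {q : Fin 3 → MvPolynomial (Fin N) k}

/-- the locus `A = 0` -/
theorem lf_branch [Finite k] (hP : StableClass p P) (hk : (p : k) = 0)
    (hQ : TD P (F := AF k N) fun l => vC (q l)) {i j : ℕ} (hi : 0 < i) (hj : 0 < j) :
    (LF {q 0 ^ i * q 2 ^ j} 1).Mem (Pk P k) := by
  have hG := kops hP.toFormalClass hk
  have key : ∀ {R : Type} [CommRing R] [Algebra k R]
      (x : (LF {q 0 ^ i * q 2 ^ j} 1).obj R),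
        (vC (q 0)).val x.1 ^ i * (vC (q 2)).val x.1 ^ j = 0 := by
    intro R _ _ x
    have h2 := x.2.1 (q 0 ^ i * q 2 ^ j) (by simp)
    rw [vC_mul, vC_pow, vC_pow] at h2
    exact h2
  have mk : ∀ {R : Type} [CommRing R] [Algebra k R] (y : (AF k N).obj R),
      (vC (q 0)).val y ^ i * (vC (q 2)).val y ^ j = 0 →
      (∀ e ∈ ({q 0 ^ i * q 2 ^ j} : Set (MvPolynomial (Fin N) k)),
        (vC e).val (R := R) y = 0) ∧ IsUnit ((vC 1).val y) := by
    intro R _ _ y h2
    refine ⟨fun e he => ?_, ?_⟩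
    · rw [Set.mem_singleton_iff] at he
      rw [he, vC_mul, vC_pow, vC_pow, h2]
    · have h3 : (vC (1 : MvPolynomial (Fin N) k)).val y = 1 :=
        map_one (MvPolynomial.aeval (R := k) (y : Fin N → R))
      rw [h3]
      exact isUnit_one
  refine Mem.glue hG (lC (q 0)) ?_ ?_
  · refine Mem.glue hG (resO _ (lC (q 2))) (Mem.of_trivial hG fun R _ _ x => ?_) ?_
    · have h1 : IsUnit ((vC (q 0)).val x.1.1.1) := x.1.2
      have h3 : IsUnit ((vC (q 2)).val x.1.1.1) := x.2
      have h2 := (h1.pow i).mul (h3.pow j)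
      rw [key x.1.1] at h2
      exact subsingleton_of_zero_eq_one (isUnit_zero_iff.1 h2)
    · refine Mem.of_iso ?_ (mem_opn hG (resC _ (vC (q 0))) (hQ.c1 2) (hQ.c2 2 0 (by decide)))
      exact
        { hom := fun x => ⟨⟨x.1.1.1, x.2⟩, x.1.2⟩
          inv := fun {R} _ _ y => ⟨⟨⟨y.1.1, mk y.1.1 (by
            have h1 : (vC (q 2)).val y.1.1 = 0 := y.1.2
            rw [h1, zero_pow hj.ne', mul_zero])⟩, y.2⟩, y.1.2⟩
          inv_hom := fun _ => rfl
          hom_inv := fun _ => rfl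
          nat := fun _ _ => rfl }
  · refine Mem.of_iso ?_ (hQ.c1 0)
    exact
      { hom := fun x => ⟨x.1.1, x.2⟩
        inv := fun {R} _ _ y => ⟨⟨y.1, mk y.1 (by
          have h1 : (vC (q 0)).val y.1 = 0 := y.2
          rw [h1, zero_pow hi.ne', zero_mul])⟩, y.2⟩
        inv_hom := fun _ => rfl
        hom_inv := fun _ => rfl
        nat := fun _ _ => rfl }

end

/-- **the data give all the hypersurfaces** -/
theorem td_forms [Finite k] [CharP k p] (hp : p.Prime) (hP : TriClass p P) {N : ℕ}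
    {q : Fin 3 → MvPolynomial (Fin N) k} (hq : TDA P q) {i j : ℕ} (hi : 0 < i) (hj : 0 < j)
    {l : ℕ} (Φ : Fin l → MvPolynomial (Fin 2) k) {n : Fin l → ℕ} (hn : ∀ t, 0 < n t)
    (hΦ : ∀ t, (Φ t).IsHomogeneous (n t)) :
    P (MvPolynomial (Fin l × Fin 2) (MvPolynomial (Fin N) k) ⧸
      Ideal.span {MvPolynomial.C (q 1 ^ (i + j)) *
        MvPolynomial.map MvPolynomial.C (∑ t, MvPolynomial.rename (Prod.mk t) (Φ t)) -
        MvPolynomial.C (q 0 ^ i * q 2 ^ j)}) := by
  have hk : (p : k) = 0 := CharP.cast_eq_zero k p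
  exact bin_tower hp hP.toFormalClass (B := MvPolynomial (Fin N) k) inferInstance
    (fun n hn => gen_all hp hP hi hj hn hq)
    (lf_mem (lf_branch hP.toStableClass hk hq.td hi hj) (lc_quot _))
    (lf_mem (lf_closed hP.toStableClass hk hq.td hi hj) (lc_quot _)) Φ hn hΦ

/-- **Three quadrics** -/
theorem three_quadrics [Finite k] [CharP k p] (hp : p.Prime) (hp2 : p ≠ 2) (hP : TriClass p P)
    {m i j : ℕ} (hi : 0 < i) (hj : 0 < j)
    (A : Fin 3 → Matrix (Fin (2 * m + 1)) (Fin (2 * m + 1)) k)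
    (hA : ∀ l, (A l).IsSymm) (hd : (net3 A).det ≠ 0)
    {l : ℕ} (Φ : Fin l → MvPolynomial (Fin 2) k) {n : Fin l → ℕ} (hn : ∀ t, 0 < n t)
    (hΦ : ∀ t, (Φ t).IsHomogeneous (n t)) :
    P (MvPolynomial (Fin l × Fin 2) (MvPolynomial (Fin (2 * m + 1)) k) ⧸
      Ideal.span {MvPolynomial.C (qp (A 1) ^ (i + j)) *
        MvPolynomial.map MvPolynomial.C (∑ t, MvPolynomial.rename (Prod.mk t) (Φ t)) -
        MvPolynomial.C (qp (A 0) ^ i * qp (A 2) ^ j)}) :=
  td_forms hp hP (tda_quad hp hp2 hP.toFormalClass A hA hd) hi hj Φ hn hΦ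

end Pool.Agent.Helper67.TQ
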