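import Pool.Agent.Helper67.TQ.Root

/-!
# Cyclic covers branched along three quadrics: the whole ring
-/

set_option autoImplicit false

namespace Pool.Agent.Helper67.TQ

open Pool.Agent.Helper29.CQ Pool.Agent.Helper65.CC Pool.Agent.Helper87.CC
  Pool.Agent.Helper65.CC.KFn
open Pool.Agent.Helper29.PF (Pk kops ftZ char0 StableClass root rep_root)
open Pool.Agent.Helper9.TP (TriClass QA qa_model qa_glue qa_congr gen_open gen_closed ex_b)
open Pool.Agent.Helper9.QP (PK Gen IsGen isGen_std ft_fin char_fin lc_ft lc_char pk_zero)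
open Pool.Agent.Helper67.CQ (isLC_away glue')
open Polynomial

variable {p : ℕ} {P : ∀ (A : Type) [CommRing A], Prop} {k : Type} [Field k]

/-! ### Locally closed subschemes of the affine space -/

/-- locally closed subfunctors -/
def LF {N : ℕ} (E : Set (MvPolynomial (Fin N) k)) (w : MvPolynomial (Fin N) k) : KFn k :=
  (AF k N).sub (fun {R} _ _ x => (∀ e ∈ E, (vC e).val (R := R) x = 0) ∧ IsUnit ((vC w).val x))
    fun f x h => ⟨fun e he => by rw [← (vC e).nat, h.1 e he, map_zero], by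
      rw [← (vC w).nat]
      exact h.2.map f⟩

theorem rep_lf {N : ℕ} {E : Set (MvPolynomial (Fin N) k)} {w : MvPolynomial (Fin N) k} {T : Type}
    [CommRing T] {j : MvPolynomial (Fin N) k →+* T} (hj : IsLC j (Ideal.span E) w) :
    let _ : Algebra k T := (j.comp MvPolynomial.C).toAlgebra
    ∃ pt, (LF E w).Rep T pt := by
  intro _
  let j' : MvPolynomial (Fin N) k →ₐ[k] T := { j with commutes' := fun _ => rfl }
  have hj' : MvPolynomial.aeval (R := k) (fun i => j (MvPolynomial.X i)) = j' := by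
    apply MvPolynomial.algHom_ext
    intro i
    rw [MvPolynomial.aeval_X]
    rfl
  have hv : ∀ q : MvPolynomial (Fin N) k, (vC q).val (F := AF k N) (R := T)
      (fun i => j (MvPolynomial.X i)) = j q := fun q => DFunLike.congr_fun hj' q
  refine ⟨⟨(fun i => j (MvPolynomial.X i) : Fin N → T), fun e he => ?_, ?_⟩, ?_⟩
  · exact (hv e).trans (hj.zero e (Ideal.subset_span he))
  · exact (iff_of_eq (congrArg IsUnit (hv w))).2 hj.unit
  · intro R _ _ x
    let v : MvPolynomial (Fin N) k →ₐ[k] R := MvPolynomial.aeval (R := k) (x.1 : Fin N → R)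
    have hker : ∀ b ∈ Ideal.span E, (v : MvPolynomial (Fin N) k →+* R) b = 0 := by
      have h1 : Ideal.span E ≤ RingHom.ker (v : MvPolynomial (Fin N) k →+* R) := by
        rw [Ideal.span_le]
        intro e he
        exact x.2.1 e he
      exact fun b hb => h1 hb
    obtain ⟨g, hg⟩ := hj.ex R (v : MvPolynomial (Fin N) k →+* R) hker x.2.2
    have hg' : ∀ y, g (j y) = v y := fun y => RingHom.congr_fun hg y
    let g' : T →ₐ[k] R :=
      { g with
        commutes' := fun c => by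
          have h1 := hg' (MvPolynomial.C c)
          exact h1.trans (MvPolynomial.aeval_C (x.1 : Fin N → R) c) }
    refine ⟨g', ?_, ?_⟩
    · apply Subtype.ext
      funext i
      exact (hg' (MvPolynomial.X i)).trans (MvPolynomial.aeval_X (R := k) (x.1 : Fin N → R) i)
    · intro h hh
      apply AlgHom.coe_ringHom_injective
      apply hj.uniq
      refine Eq.trans ?_ hg.symm
      apply MvPolynomial.ringHom_ext
      · intro c
        exact (h.commutes c).trans (MvPolynomial.aeval_C (x.1 : Fin N → R) c).symm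
      · intro i
        exact (congrFun (congrArg Subtype.val hh) i).trans
          (MvPolynomial.aeval_X (R := k) (x.1 : Fin N → R) i).symm

theorem lf_mem [Finite k] {N : ℕ} {E : Set (MvPolynomial (Fin N) k)}
    {w : MvPolynomial (Fin N) k} (h : (LF E w).Mem (Pk P k)) {T : Type}
    [CommRing T] {j : MvPolynomial (Fin N) k →+* T} (hj : IsLC j (Ideal.span E) w) : P T := by
  have hft := lc_ft hj (ft_fin N)
  obtain ⟨pt, hpt⟩ := rep_lf hj
  let _ : Algebra k T := (j.comp MvPolynomial.C).toAlgebra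
  exact h T pt (Algebra.FiniteType.of_restrictScalars_finiteType ℤ k T) hpt

/-- quotients are locally closed -/
theorem lc_quot {A : Type} [CommRing A] (I : Ideal A) : IsLC (Ideal.Quotient.mk I) I 1 where
  zero b hb := Ideal.Quotient.eq_zero_iff_mem.2 hb
  unit := by rw [map_one]; exact isUnit_one
  ex E _ v hv _ := ⟨Ideal.Quotient.lift _ v hv, Ideal.Quotient.lift_comp_mk _ _ hv⟩
  uniq E _ h h' hh := Ideal.Quotient.ringHom_ext hh

/-- a coordinate on a locally closed subfunctor -/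
noncomputable def lC {N : ℕ} {E : Set (MvPolynomial (Fin N) k)} {w : MvPolynomial (Fin N) k}
    (q : MvPolynomial (Fin N) k) : Coord (LF E w) :=
  ⟨fun x => (vC q).val x.1, fun f x => (vC q).nat f x.1⟩

theorem vC_mul {N : ℕ} (a b : MvPolynomial (Fin N) k) {R : Type} [CommRing R] [Algebra k R]
    (y : (AF k N).obj R) : (vC (a * b)).val y = (vC a).val y * (vC b).val y :=
  map_mul (MvPolynomial.aeval (R := k) (y : Fin N → R)) a b

theorem vC_pow {N : ℕ} (a : MvPolynomial (Fin N) k) (n : ℕ) {R : Type} [CommRing R] [Algebra k R]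
    (y : (AF k N).obj R) : (vC (a ^ n)).val y = (vC a).val y ^ n :=
  map_pow (MvPolynomial.aeval (R := k) (y : Fin N → R)) a n

section

variable {N : ℕ} {q : Fin 3 → MvPolynomial (Fin N) k}

/-- the locus `B = A = 0` -/
theorem lf_closed [Finite k] (hP : StableClass p P) (hk : (p : k) = 0)
    (hQ : TD P (F := AF k N) fun l => vC (q l)) {i j : ℕ} (hi : 0 < i) (hj : 0 < j) :
    (LF {q 1 ^ (i + j), q 0 ^ i * q 2 ^ j} 1).Mem (Pk P k) := by
  have hG := kops hP.toFormalClass hk
  have key : ∀ {R : Type} [CommRing R] [Algebra k R]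
      (x : (LF {q 1 ^ (i + j), q 0 ^ i * q 2 ^ j} 1).obj R), (vC (q 1)).val x.1 ^ (i + j) = 0 ∧
        (vC (q 0)).val x.1 ^ i * (vC (q 2)).val x.1 ^ j = 0 := by
    intro R _ _ x
    have h1 := x.2.1 (q 1 ^ (i + j)) (by simp)
    have h2 := x.2.1 (q 0 ^ i * q 2 ^ j) (by simp)
    rw [vC_pow] at h1
    rw [vC_mul, vC_pow, vC_pow] at h2
    exact ⟨h1, h2⟩
  have mk : ∀ {R : Type} [CommRing R] [Algebra k R] (y : (AF k N).obj R),
      (vC (q 1)).val y = 0 → (vC (q 0)).val y ^ i * (vC (q 2)).val y ^ j = 0 →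
      (∀ e ∈ ({q 1 ^ (i + j), q 0 ^ i * q 2 ^ j} : Set (MvPolynomial (Fin N) k)),
        (vC e).val (R := R) y = 0) ∧ IsUnit ((vC 1).val y) := by
    intro R _ _ y h1 h2
    refine ⟨fun e he => ?_, ?_⟩
    · rcases he with rfl | he
      · rw [vC_pow, h1, zero_pow (by omega)]
      · rw [Set.mem_singleton_iff] at he
        rw [he, vC_mul, vC_pow, vC_pow, h2]
    · have h3 : (vC (1 : MvPolynomial (Fin N) k)).val y = 1 :=
        map_one (MvPolynomial.aeval (R := k) (y : Fin N → R))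
      rw [h3]
      exact isUnit_one
  have hn : ((((AF k N).cls (vC (q 1))).cls (resC _ (vC (q 2)))).cls
      (resC _ (resC _ (vC (q 0))))).Mem (Pk P k) := by
    refine Mem.of_iso ?_ (n3_mem hP hk hQ)
    exact
      { hom := fun x => ⟨x.1.1.1, fun l => by
          fin_cases l
          · exact x.2
          · exact x.1.1.2
          · exact x.1.2⟩
        inv := fun y => ⟨⟨⟨y.1, y.2 1⟩, y.2 2⟩, y.2 0⟩
        inv_hom := fun _ => rfl
        hom_inv := fun _ => rfl
        nat := fun _ _ => rfl }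
  refine Mem.glue hG (lC (q 1)) (Mem.of_trivial hG fun R _ _ x => ?_) ?_
  · have h1 : IsUnit ((vC (q 1)).val x.1.1) := x.2
    have h2 := h1.pow (i + j)
    rw [(key x.1).1] at h2
    exact subsingleton_of_zero_eq_one (isUnit_zero_iff.1 h2)
  refine Mem.glue hG (resC _ (lC (q 0))) ?_ ?_
  · refine Mem.glue hG (resO _ (resC _ (lC (q 2)))) (Mem.of_trivial hG fun R _ _ x => ?_) ?_
    · have h1 : IsUnit ((vC (q 0)).val x.1.1.1.1) := x.1.2
      have h3 : IsUnit ((vC (q 2)).val x.1.1.1.1) := x.2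
      have h2 := (h1.pow i).mul (h3.pow j)
      rw [(key x.1.1.1).2] at h2
      exact subsingleton_of_zero_eq_one (isUnit_zero_iff.1 h2)
    · refine Mem.of_iso ?_ (mem_opn hG _ (hQ.c2 1 2 (by decide)) hn)
      exact
        { hom := fun x => ⟨⟨⟨x.1.1.1.1, x.1.1.2⟩, x.2⟩, x.1.2⟩
          inv := fun {R} _ _ y => ⟨⟨⟨⟨y.1.1.1, mk y.1.1.1 y.1.1.2 (by
            have h1 : (vC (q 2)).val y.1.1.1 = 0 := y.1.2
            rw [h1, zero_pow hj.ne', mul_zero])⟩, y.1.1.2⟩, y.2⟩, y.1.2⟩
          inv_hom := fun _ => rfl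
          hom_inv := fun _ => rfl
          nat := fun _ _ => rfl }
  · refine Mem.of_iso ?_ (hQ.c2 1 0 (by decide))
    exact
      { hom := fun x => ⟨⟨x.1.1.1, x.1.2⟩, x.2⟩
        inv := fun {R} _ _ y => ⟨⟨⟨y.1.1, mk y.1.1 y.1.2 (by
          have h1 : (vC (q 0)).val y.1.1 = 0 := y.2
          rw [h1, zero_pow hi.ne', zero_mul])⟩, y.1.2⟩, y.2⟩
        inv_hom := fun _ => rfl
        hom_inv := fun _ => rfl
        nat := fun _ _ => rfl }

/-- the locus `u = 0`, `B ≠ 0` -/
theorem lf_mid [Finite k] (hP : StableClass p P) (hk : (p : k) = 0)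
    (hQ : TD P (F := AF k N) fun l => vC (q l)) {n : ℕ} (hn : n ≠ 0) :
    (LF {q 0 * q 1 * q 2} (q 1 ^ n)).Mem (Pk P k) := by
  have hG := kops hP.toFormalClass hk
  have key : ∀ {R : Type} [CommRing R] [Algebra k R]
      (x : (LF {q 0 * q 1 * q 2} (q 1 ^ n)).obj R), IsUnit ((vC (q 1)).val x.1) ∧
        (vC (q 0)).val x.1 * (vC (q 1)).val x.1 * (vC (q 2)).val x.1 = 0 := by
    intro R _ _ x
    have h1 := x.2.2
    have h2 := x.2.1 (q 0 * q 1 * q 2) (by simp)
    rw [vC_pow] at h1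
    rw [vC_mul, vC_mul] at h2
    exact ⟨(isUnit_pow_iff hn).1 h1, h2⟩
  have mk : ∀ {R : Type} [CommRing R] [Algebra k R] (y : (AF k N).obj R),
      IsUnit ((vC (q 1)).val y) → (vC (q 0)).val y * (vC (q 1)).val y * (vC (q 2)).val y = 0 →
      (∀ e ∈ ({q 0 * q 1 * q 2} : Set (MvPolynomial (Fin N) k)),
        (vC e).val (R := R) y = 0) ∧ IsUnit ((vC (q 1 ^ n)).val y) := by
    intro R _ _ y h1 h2
    refine ⟨fun e he => ?_, ?_⟩
    · rw [Set.mem_singleton_iff] at he
      rw [he, vC_mul, vC_mul, h2]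
    · rw [vC_pow]
      exact h1.pow n
  have hn3 : ((((AF k N).cls (vC (q 2))).cls (resC _ (vC (q 1)))).cls
      (resC _ (resC _ (vC (q 0))))).Mem (Pk P k) := by
    refine Mem.of_iso ?_ (n3_mem hP hk hQ)
    exact
      { hom := fun x => ⟨x.1.1.1, fun l => by
          fin_cases l
          · exact x.2
          · exact x.1.2
          · exact x.1.1.2⟩
        inv := fun y => ⟨⟨⟨y.1, y.2 2⟩, y.2 1⟩, y.2 0⟩
        inv_hom := fun _ => rfl
        hom_inv := fun _ => rfl
        nat := fun _ _ => rfl }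
  have o2 := mem_opn hG (resC _ (vC (q 0))) (hQ.c1 2) (hQ.c2 2 0 (by decide))
  have o21 := mem_opn hG (resO _ (resC _ (vC (q 1)))) o2
    (Mem.of_iso (opnCls (resC (vC (q 2)) (vC (q 0))) (resC (vC (q 2)) (vC (q 1))))
      (mem_opn hG _ (hQ.c2 2 1 (by decide)) hn3))
  refine Mem.glue hG (lC (q 0)) ?_ ?_
  · refine Mem.of_iso ?_ o21
    exact
      { hom := fun {R} _ _ x => ⟨⟨⟨x.1.1, by
          have h1 : IsUnit ((vC (q 0)).val x.1.1) := x.2
          have h2 := key x.1
          exact (h1.mul h2.1).mul_right_eq_zero.1 h2.2⟩, x.2⟩, (key x.1).1⟩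
        inv := fun {R} _ _ y => ⟨⟨y.1.1.1, mk y.1.1.1 y.2 (by
          have h1 : (vC (q 2)).val y.1.1.1 = 0 := y.1.1.2
          rw [h1, mul_zero])⟩, y.1.2⟩
        inv_hom := fun _ => rfl
        hom_inv := fun _ => rfl
        nat := fun _ _ => rfl }
  · refine Mem.of_iso ?_ (mem_opn hG (resC _ (vC (q 1))) (hQ.c1 0) (hQ.c2 0 1 (by decide)))
    exact
      { hom := fun {R} _ _ x => ⟨⟨x.1.1, x.2⟩, (key x.1).1⟩
        inv := fun {R} _ _ y => ⟨⟨y.1.1, mk y.1.1 y.2 (by
          have h1 : (vC (q 0)).val y.1.1 = 0 := y.1.2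
          rw [h1, zero_mul, zero_mul])⟩, y.1.2⟩
        inv_hom := fun _ => rfl
        hom_inv := fun _ => rfl
        nat := fun _ _ => rfl }

/-- **the open part**, `p ∤ n` -/
theorem qa_all [Finite k] [CharP k p] (hp : p.Prime) (hP : TriClass p P) (hq : TDA P q)
    {n i j : ℕ} (hn : n ≠ 0) (hpn : ¬ p ∣ n) (hi : 0 < i) (hj : 0 < j) :
    QA P n (q 0 ^ i * q 2 ^ j) (q 1 ^ (i + j)) ⊥ (q 0 * q 1 * q 2) := by
  obtain ⟨b, hb⟩ := (rep_AF (k := k) N).opn (prC (F := AF k N) fun l => vC (q l))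
  obtain ⟨A, hA0, hA1, b, hft, hb⟩ : ∃ (A : Type) (_ : CommRing A) (_ : Algebra k A)
      (b : (X3 (F := AF k N) fun l => vC (q l)).obj A), Algebra.FiniteType k A ∧
      (X3 (F := AF k N) fun l => vC (q l)).Rep A b :=
    ⟨_, _, _, b, ft_away inferInstance _, hb⟩
  have hlc := lc_of_rep (w := q 0 * q 1 * q 2) (u := prC (F := AF k N) fun l => vC (q l))
    (fun {R} _ _ y => by
      rw [map_mul, map_mul]
      rfl) hb
  refine qa_model hP.toFormalClass hlc (a := (uC (F := AF k N) (fun l => vC (q l)) i j).val b) ?_ ?_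
  · have h1 := uC_mul (F := AF k N) (fun l => vC (q l)) i j b
    rw [map_mul, map_pow, map_pow, map_pow]
    exact h1
  · obtain ⟨c, hc⟩ := rep_root (uC (F := AF k N) (fun l => vC (q l)) i j) n hb
    exact root_all hp hP hq hn hpn hi hj _ c (hft.trans (inferInstance : Algebra.FiniteType A
      (AdjoinRoot (X ^ n - C ((uC (F := AF k N) (fun l => vC (q l)) i j).val b) : A[X])))) hc

/-- **the whole ring**, `p ∤ n` -/
theorem gen_tame [Finite k] [CharP k p] (hp : p.Prime) (hP : TriClass p P) (hq : TDA P q)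
    {n i j : ℕ} (hn : n ≠ 0) (hpn : ¬ p ∣ n) (hi : 0 < i) (hj : 0 < j) :
    P (Gen (MvPolynomial (Fin N) k) n (q 1 ^ (i + j)) (q 0 ^ i * q 2 ^ j)) := by
  have hk : (p : k) = 0 := CharP.cast_eq_zero k p
  have hP' := hP.toFormalClass
  have hQ := hq.td
  have hD := isGen_std n (q 1 ^ (i + j)) (q 0 ^ i * q 2 ^ j)
  obtain ⟨r, hr⟩ := gen_closed hD
  have hj' := isLC_away (q 1 ^ (i + j))
  obtain ⟨a, ha⟩ := ex_b (algebraMap (MvPolynomial (Fin N) k)
    (Localization.Away (q 1 ^ (i + j)))) (q 0 ^ i * q 2 ^ j) _ hj'.unit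
  obtain ⟨s, hs⟩ := gen_open hD hj' ha
  refine glue' hP' _ (hD.ft (ft_fin N)) (hD.char (char_fin hk N)) hr hs ?_ ?_
  · exact hP'.poly _ (lf_mem (lf_closed hP.toStableClass hk hQ hi hj)
      (lc_quot _))
  · have hqa : QA P n (q 0 ^ i * q 2 ^ j) (q 1 ^ (i + j)) ⊥ (q 1 ^ (i + j)) := by
      refine qa_glue hP' (ft_fin N) (char_fin hk N) (q 0 * q 1 * q 2) ?_ ?_
      · intro T _ jj a hjj hB ha
        have hu : jj (q 0 * q 1 * q 2) = 0 := hjj.zero _
          (Ideal.mem_sup_right (Ideal.mem_span_singleton_self _))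
        have hq1 : IsUnit (jj (q 1)) := by
          rw [map_pow] at hB
          exact (isUnit_pow_iff (by omega)).1 hB
        have h02 : jj (q 0) * jj (q 2) = 0 := by
          rw [map_mul, map_mul] at hu
          apply (hq1.mul_right_eq_zero).1
          linear_combination hu
        have hA : jj (q 0 ^ i * q 2 ^ j) = 0 := by
          obtain ⟨i', rfl⟩ := Nat.exists_eq_succ_of_ne_zero hi.ne'
          obtain ⟨j', rfl⟩ := Nat.exists_eq_succ_of_ne_zero hj.ne'
          rw [map_mul, map_pow, map_pow, pow_succ, pow_succ]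
          linear_combination (jj (q 0) ^ i' * jj (q 2) ^ j') * h02
        have ha0 : a = 0 := by
          rw [hA] at ha
          exact hB.mul_left_eq_zero.1 ha
        rw [ha0]
        have hjj' : IsLC jj (Ideal.span {q 0 * q 1 * q 2}) (q 1 ^ (i + j)) := by
          rw [bot_sup_eq] at hjj
          exact hjj
        exact pk_zero hP' hn (lc_ft hjj (ft_fin N)) (lc_char jj (char_fin hk N))
          (lf_mem (lf_mid hP.toStableClass hk hQ (n := i + j) (by omega)) hjj')
      · refine qa_congr (N := 1) (M := i + j + 1) ?_ ?_ (qa_all hp hP hq hn hpn hi hj)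
        · rw [pow_one]
          exact Dvd.intro_left _ rfl
        · rw [pow_succ]
          refine mul_dvd_mul_right ?_ _
          exact pow_dvd_pow_of_dvd (Dvd.dvd.mul_right (Dvd.intro_left _ rfl) _) _
    exact hqa _ _ a hj' hj'.unit ha

end

end Pool.Agent.Helper67.TQ
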